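import Pool.Agent.U154.NI.Fdd

/-!
From characteristic functions to convergence in distribution to Brownian motion.
-/

set_option autoImplicit false

namespace Pool.Agent.U154.NI.Fdd

open MeasureTheory ProbabilityTheory ProbabilityTheory.BrownianReal Filter Topology Finset WithLp
open scoped NNReal ENNReal InnerProductSpace

variable {Ω : Type*} [MeasurableSpace Ω] {μ : Measure Ω}

theorem inner_S (I : Finset ℝ≥0) (t : EuclideanSpace ℝ I) (x : ℝ≥0 → ℝ) :
    ⟪(toLp 2 (fun s : I => x s) : EuclideanSpace ℝ I), t⟫_ℝ =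
      ∑ s ∈ I, (if h : s ∈ I then t ⟨s, h⟩ else 0) * x s := by
  rw [PiLp.inner_apply, ← Finset.sum_coe_sort I]
  refine Finset.sum_congr rfl fun s _ => ?_
  rw [dif_pos s.2]
  simp [mul_comm]

theorem fdd_lim {Ω' : Type*} [MeasurableSpace Ω'] {P : Measure Ω'} [IsProbabilityMeasure P]
    {B : ℝ≥0 → Ω' → ℝ} (hB : IsPreBrownianReal B P) [IsProbabilityMeasure μ]
    {X : ℕ → ℝ≥0 → Ω → ℝ} (hX : ∀ n s, Measurable (X n s)) (I : Finset ℝ≥0)
    (hlim : ∀ a : ℝ≥0 → ℝ, Tendsto (fun n => ∫ ω, e (S I a (X n) ω) ∂μ) atTop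
      (𝓝 ((Real.exp (-(Q I a) / 2) : ℝ) : ℂ))) :
    TendstoInDistribution (fun n ω (s : I) => X n s ω) atTop (fun ω (s : I) => B s ω)
      (fun _ => μ) P := by
  have hBm : AEMeasurable (fun ω (s : I) => B s ω) P := (hB.hasLaw I).aemeasurable
  have hXm : ∀ n, Measurable (fun ω (s : I) => X n s ω) := fun n =>
    measurable_pi_lambda _ fun s => hX n s
  have hE : TendstoInDistribution
      (fun n ω => (toLp 2 (fun s : I => X n s ω) : EuclideanSpace ℝ I)) atTop
      (fun ω => (toLp 2 (fun s : I => B s ω) : EuclideanSpace ℝ I)) (fun _ => μ) P := by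
    refine ⟨fun n => ((measurable_toLp 2 _).comp (hXm n)).aemeasurable,
      (measurable_toLp 2 _).comp_aemeasurable hBm,
      ProbabilityMeasure.tendsto_iff_tendsto_charFun.2 fun t => ?_⟩
    obtain ⟨a, ha⟩ : ∃ a : ℝ≥0 → ℝ, a = fun s => if h : s ∈ I then t ⟨s, h⟩ else 0 := ⟨_, rfl⟩
    have h1 : ∀ n, charFun (μ.map
        (fun ω => (toLp 2 (fun s : I => X n s ω) : EuclideanSpace ℝ I))) t =
        ∫ ω, e (S I a (X n) ω) ∂μ := by
      intro n
      have hF : Measurable (fun ω => (toLp 2 (fun s : I => X n s ω) : EuclideanSpace ℝ I)) :=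
        (measurable_toLp 2 _).comp (hXm n)
      rw [charFun_apply, integral_map hF.aemeasurable (by fun_prop)]
      refine integral_congr_ae (Eventually.of_forall fun ω => ?_)
      show Complex.exp _ = Complex.exp _
      rw [inner_S I t (fun s => X n s ω), ha]
      rfl
    have h2 : charFun (P.map
        (fun ω => (toLp 2 (fun s : I => B s ω) : EuclideanSpace ℝ I))) t =
        ((Real.exp (-(Q I a) / 2) : ℝ) : ℂ) := by
      have e1 : P.map (fun ω => (toLp 2 (fun s : I => B s ω) : EuclideanSpace ℝ I)) =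
          multivariateGaussian 0 (covMatrix I) := by
        have e2 := (measurePreserving_toLp_projectiveFamily I).map_eq
        rw [← (hB.hasLaw I).map_eq, AEMeasurable.map_map_of_aemeasurable
          (measurable_toLp 2 _).aemeasurable (hB.hasLaw I).aemeasurable] at e2
        exact e2
      rw [e1, charFun_multivariateGaussian (posSemidef_covMatrix I)]
      have e3 : Q I a = ∑ s : I, t s * ∑ u : I, (min s.1 u.1 : ℝ≥0) * t u := by
        unfold Q
        rw [← Finset.sum_coe_sort I]
        refine Finset.sum_congr rfl fun s _ => ?_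
        rw [← Finset.sum_coe_sort I, mul_sum]
        refine Finset.sum_congr rfl fun u _ => ?_
        rw [ha]
        simp only [dif_pos s.2, dif_pos u.2]
        ring
      rw [e3]
      simp only [inner_zero_right, Complex.ofReal_zero, zero_mul, zero_sub, dotProduct,
        Matrix.mulVec, covMatrix_apply]
      rw [Complex.ofReal_exp]
      congr 1
      push_cast
      ring
    show Tendsto (fun n => charFun (μ.map _) t) atTop (𝓝 (charFun (P.map _) t))
    rw [h2]
    exact (hlim a).congr fun n => (h1 n).symm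
  have h3 := hE.continuous_comp (g := fun x : EuclideanSpace ℝ I => ofLp x)
    (PiLp.continuous_ofLp 2 _)
  exact h3

end Pool.Agent.U154.NI.Fdd
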