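import Pool.Agent.U154.NI.Fin
import Pool.Agent.U154.NI.Fdd2
import Pool.Agent.H863R2.NL.CLTT

/-!
The number of layers in the infinite configuration: one-dimensional central limit theorem at the
distances `n ^ s`.
-/

set_option autoImplicit false

namespace Pool.Agent.U154.NI

open H974 Finset Real Filter Topology MeasureTheory ProbabilityTheory Pool.Agent.W819.EN
  Pool.Agent.H863R2.NL.PowAux Pool.Agent.H450R4.NL
open Pool.Agent.H863R2.NL (cN vN ET)
open Pool.Agent.N956.PL (crit op op_inter bc1 bc2 crit_op meas_op)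
open scoped NNReal ENNReal

/-- the number of layers up to the distance `m`, in an infinite configuration -/
noncomputable def Lw (ω : Edg → Bool) (m : ℕ) : ℕ := NA (op (boxE m) ω) (0, 0) 0 m

theorem NA_box {m M : ℕ} (h : m ≤ M) (F : Finset Edg) :
    NA (F ∩ boxE M) (0, 0) 0 m = NA F (0, 0) 0 m := by
  rw [geo.loc F (0, 0) 0 m (Nat.zero_le _), geo.loc (F ∩ boxE M) (0, 0) 0 m (Nat.zero_le _),
    inter_assoc]
  congr 2
  apply inter_eq_right.2
  refine subset_trans ?_ (boxE_mono h)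
  unfold an
  rw [bx_eq]
  exact sdiff_subset

theorem Lw_op {m M : ℕ} (h : m ≤ M) (ω : Edg → Bool) :
    NA (op (boxE M) ω) (0, 0) 0 m = Lw ω m := by
  unfold Lw
  rw [← op_inter (boxE_mono h) ω, NA_box le_rfl]

theorem Lw_mono {m M : ℕ} (h : m ≤ M) (ω : Edg → Bool) : Lw ω m ≤ Lw ω M := by
  rw [← Lw_op h ω]
  exact geo.mono _ (0, 0) 0 0 m M le_rfl h

theorem Lw_le (ω : Edg → Bool) (m : ℕ) : Lw ω m ≤ 2 * m := geo.le _ _ _ _

theorem meas_Lw (m : ℕ) : Measurable (fun ω => Lw ω m) := by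
  apply measurable_to_countable'
  intro j
  exact meas_op (boxE m) (fun F => NA F (0, 0) 0 m = j)

theorem meas_Lw' (m : ℕ) : Measurable (fun ω => (Lw ω m : ℝ)) :=
  measurable_from_nat.comp (meas_Lw m)

theorem crit_real (S : Finset Edg) (A : Finset Edg → Prop) :
    crit.real {ω : Edg → Bool | A (op S ω)} = Pr P2 S A := by
  rw [measureReal_def, crit_op, ENNReal.toReal_ofReal (Pr_nonneg hok _ _)]

theorem Ex_NA {m M : ℕ} (h : m ≤ M) (g : ℕ → ℝ) :
    Ex P2 (boxE M) (fun F => g (NA F (0, 0) 0 m)) = ET m g := by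
  rw [ET_eq, bx_eq]
  apply Ex_local (boxE_mono h)
  intro F _
  rw [NA_box le_rfl]

theorem prob_Lw (m : ℕ) (Q : ℕ → Prop) :
    crit.real {ω | Q (Lw ω m)} = ET m (fun j => ind (Q j)) := by
  rw [← Ex_NA le_rfl]
  exact crit_real (boxE m) (fun F => Q (NA F (0, 0) 0 m))

theorem Lw_changes (ω : sqLattice.edgeSet → Bool) (m : ℕ) :
    Lw (fun e => ω (toE e)) m = Pool.Agent.H863R2.NL.changes m ω := by
  rw [Pool.Agent.H863R2.NL.changes_FF, ← NS_zero, ← NA_eq]
  rfl

/-- the normalized number of layers -/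
noncomputable def Zm (m : ℕ) (ω : Edg → Bool) : ℝ := ((Lw ω m : ℝ) - cN * log m) / √(log m)

theorem meas_Zm (m : ℕ) : Measurable (Zm m) := ((meas_Lw' m).sub_const _).div_const _

/-- the limit law -/
noncomputable def gv : Measure ℝ := gaussianReal 0 (Real.toNNReal vN)

instance : IsProbabilityMeasure gv := by unfold gv; infer_instance

theorem cdf_Zm (x : ℝ) : Tendsto (fun m : ℕ => (crit.map (Zm m)).real (Set.Iic x)) atTop
    (𝓝 (gv.real (Set.Iic x))) := by
  refine (Pool.Agent.H863R2.NL.clt_ET x).congr' ?_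
  filter_upwards [eventually_ge_atTop 2] with m hm
  have hl : 0 < log (m : ℝ) := log_pos (by exact_mod_cast hm)
  rw [map_measureReal_apply (meas_Zm m) measurableSet_Iic,
    ← prob_Lw m (fun j => (j : ℝ) ≤ cN * log m + x * √(log m))]
  congr 1
  ext ω
  show _ ↔ Zm m ω ≤ x
  unfold Zm
  rw [div_le_iff₀ (sqrt_pos.2 hl)]
  constructor
  · intro h
    have h' : (Lw ω m : ℝ) ≤ cN * log m + x * √(log m) := h
    linarith
  · intro h
    show (Lw ω m : ℝ) ≤ cN * log m + x * √(log m)
    linarith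

theorem clt_Zm : TendstoInDistribution Zm atTop (fun x : ℝ => x) (fun _ => crit) gv := by
  refine ⟨fun m => (meas_Zm m).aemeasurable, aemeasurable_id, ?_⟩
  have hpi : IsPiSystem {s : Set ℝ | ∃ a b : ℝ, s = Set.Ioc a b} := by
    rintro s ⟨a, b, rfl⟩ t ⟨c, d, rfl⟩ -
    exact ⟨max a c, min b d, Set.Ioc_inter_Ioc⟩
  refine hpi.tendsto_probabilityMeasure_of_tendsto_of_mem ?_ ?_ ?_
  · rintro s ⟨a, b, rfl⟩
    exact measurableSet_Ioc
  · intro u hu x hx
    obtain ⟨δ, hδ, hb⟩ := Metric.isOpen_iff.1 hu x hx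
    refine ⟨Set.Ioc (x - δ / 2) (x + δ / 2), ⟨_, _, rfl⟩, ?_, ?_⟩
    · exact Ioc_mem_nhds (by linarith) (by linarith)
    · intro y hy
      apply hb
      rw [Metric.mem_ball, Real.dist_eq, abs_lt]
      constructor <;> linarith [hy.1, hy.2]
  · rintro s ⟨a, b, rfl⟩
    rw [← NNReal.tendsto_coe]
    have key : ∀ (ν : Measure ℝ) [IsProbabilityMeasure ν] (a b : ℝ), ν.real (Set.Ioc a b) =
        ν.real (Set.Iic b) - ν.real (Set.Iic (min a b)) := by
      intro ν _ a b
      rw [← measureReal_diff (Set.Iic_subset_Iic.2 (min_le_right _ _)) measurableSet_Iic,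
        Set.Iic_sdiff_Iic]
      congr 1
      rcases le_total a b with h | h
      · rw [min_eq_left h]
      · rw [min_eq_right h, Set.Ioc_eq_empty (not_lt.2 h), Set.Ioc_self]
    have h1 := (cdf_Zm b).sub (cdf_Zm (min a b))
    have h2 : ∀ m, IsProbabilityMeasure (crit.map (Zm m)) := fun m =>
      Measure.isProbabilityMeasure_map (meas_Zm m).aemeasurable
    have h3 : Measure.map (fun x : ℝ => x) gv = gv := Measure.map_id
    simp only [← key] at h1
    show Tendsto (fun m => (crit.map (Zm m)).real (Set.Ioc a b)) atTop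
      (𝓝 ((Measure.map (fun x : ℝ => x) gv).real (Set.Ioc a b)))
    rw [h3]
    exact h1

end Pool.Agent.U154.NI
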