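import Pool.Agent.U154.NI.Sc
import Pool.Agent.N956.PL.Inf

/-!
Almost sure upper bounds for the fluctuations of the number of layers.
-/

set_option autoImplicit false

namespace Pool.Agent.U154.NI

open H974 Finset Real Filter Topology MeasureTheory Pool.Agent.W819.EN
  Pool.Agent.H863R2.NL.PowAux Pool.Agent.H450R4.NL
open Pool.Agent.H863R2.NL (cN vN ET)
open Pool.Agent.N956.PL (crit op op_inter bc1 bc2)

/-- the number of layers up to the distance `2 ^ k`, in an infinite configuration -/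
noncomputable def Tw (ω : Edg → Bool) (k : ℕ) : ℕ := Tn (op (Bk k) ω) k

theorem Tw_op {k K : ℕ} (h : k ≤ K) (ω : Edg → Bool) : Tn (op (Bk K) ω) k = Tw ω k := by
  unfold Tw
  rw [← op_inter (Bk_mono h) ω, Tn_loc (subset_refl _)]

theorem Am_op {k K : ℕ} (h : k + 1 ≤ K) (ω : Edg → Bool) :
    Am (op (Ak k K) ω) k K = Am (op (Bk K) ω) k K := by
  rw [← op_inter (Ak_sub k K) ω, Am_loc h (subset_refl _)]

/-- summability of negative powers of `log t` along geometric scales -/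
theorem summ {b c : ℝ} (hb : 1 < b) (hc : 0 < c) (Kj : ℕ → ℕ)
    (h : ∀ᶠ j : ℕ in atTop, c * j ≤ log (tK (Kj j))) :
    Summable (fun j => exp (-(b * log (log (tK (Kj j)))))) := by
  have h1 : Summable (fun j : ℕ => c ^ (-b) * (j : ℝ) ^ (-b)) :=
    (Real.summable_nat_rpow.2 (by linarith)).mul_left _
  refine Summable.of_norm_bounded_eventually_nat h1 ?_
  filter_upwards [h, eventually_ge_atTop 1] with j k1 k2
  have hj : (0:ℝ) < j := by exact_mod_cast k2
  have hcj : 0 < c * j := by positivity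
  rw [norm_eq_abs, abs_of_nonneg (exp_pos _).le, ← mul_rpow hc.le hj.le,
    rpow_def_of_pos hcj]
  apply exp_le_exp.2
  have h2 : log (c * j) ≤ log (log (tK (Kj j))) := log_le_log hcj k1
  nlinarith

theorem sqrt_K {c : ℝ} (hc : 0 < c) {ε : ℝ} (hε : 0 < ε) : ∀ᶠ K : ℕ in atTop,
    c * √K ≤ ε * nrm vN (tK K) := by
  have hvN := vN_pos
  have hl := sqrt_pos.2 log2_pos
  filter_upwards [tend_tK.eventually (nrm_ge_sqrt hvN (c / (ε * √(log 2))) 0)] with K hK
  have e : √(K:ℝ) = √(tK K) / √(log 2) := by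
    unfold tK
    rw [sqrt_mul (Nat.cast_nonneg _)]
    field_simp
  rw [e]
  have h2 := mul_le_mul_of_nonneg_left hK hε.le
  calc c * (√(tK K) / √(log 2)) = ε * (c / (ε * √(log 2)) * √(tK K) + 0) := by
        field_simp
        ring
    _ ≤ _ := h2

/-- the upper bound of the probability that the number of layers is large at some scale -/
theorem pr_up {ε : ℝ} (h0 : 0 < ε) (h1 : ε ≤ 1) : ∃ C : ℝ, 0 < C ∧ ∀ᶠ K : ℕ in atTop,
    Pr P2 (Bk K) (fun F => ∃ k ∈ Icc 1 (K - 2),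
      cN * tK k + (1 + ε) * nrm vN (tK K) ≤ Tn F k) ≤
      C * exp (-((1 + ε) * log (log (tK K)))) := by
  obtain ⟨c2, hc2, h⟩ := max_up
  obtain ⟨C, hC, hT⟩ := tail_nrm 2 (by norm_num)
  refine ⟨2 * C, by positivity, ?_⟩
  filter_upwards [hT, sqrt_K hc2 (show 0 < ε / 2 by positivity),
    (tend_ll.comp tend_tK).eventually_ge_atTop 0] with K k1 k2 k3
  refine (h K ((1 + ε) * nrm vN (tK K))).trans ?_
  have k4 := (k1 (1 + ε / 2) (by positivity) (by linarith)).1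
  have k5 : ET (2 ^ K) (fun m => ind (cN * tK K + ((1 + ε) * nrm vN (tK K) - c2 * √K) ≤ m)) ≤
      ET (2 ^ K) (fun m => ind (cN * tK K + (1 + ε / 2) * nrm vN (tK K) ≤ m)) := by
    refine Pool.Agent.H863R2.NL.ET_le_ET fun m => ind_mono fun hm => ?_
    linarith
  have k6 : exp (-((1 + ε / 2) ^ 2 * log (log (tK K)))) ≤ exp (-((1 + ε) * log (log (tK K)))) := by
    apply exp_le_exp.2
    have k3' : 0 ≤ log (log (tK K)) := k3
    nlinarith [mul_nonneg (sq_nonneg ε) k3']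
  have k7 := mul_le_mul_of_nonneg_left k6 hC.le
  linarith

/-- logarithms of the scale are small -/
theorem kap_small {r ε : ℝ} (hr : 0 < r) (hε : 0 < ε) : ∀ᶠ K : ℕ in atTop,
    4 + 18 * (r * log K) ≤ ε * nrm vN (tK K) := by
  have h4 : (fun x : ℝ => log x) =o[atTop] fun x => x ^ (1 / 2 : ℝ) :=
    isLittleO_log_rpow_atTop (by norm_num)
  have h5 := (h4.comp_tendsto (tendsto_natCast_atTop_atTop (R := ℝ))).def (c := 1) one_pos
  filter_upwards [h5, eventually_ge_atTop 1,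
    sqrt_K (show 0 < 4 + 18 * r by positivity) hε] with K k1 k2 k3
  have hK : (1:ℝ) ≤ K := by exact_mod_cast k2
  simp only [Function.comp, norm_eq_abs, one_mul] at k1
  rw [abs_of_nonneg (log_nonneg hK), ← sqrt_eq_rpow, abs_of_nonneg (sqrt_nonneg _)] at k1
  have hs : 1 ≤ √(K:ℝ) := one_le_sqrt.2 hK
  have := mul_le_mul_of_nonneg_left k1 hr.le
  linarith

/-- the upper bound of the probability that the number of layers is small at some scale -/
theorem pr_dn {ε ρ r : ℝ} (h0 : 0 < ε) (h1 : ε ≤ 1) (hρ : 0 < ρ) (hr : 0 < r) :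
    ∃ C : ℝ, 0 < C ∧ ∀ᶠ K : ℕ in atTop, ∀ κ : ℕ, (κ : ℝ) ≤ r * log K →
    Pr P2 (Bk K) (fun F => ∃ k ∈ Icc 1 (K - 2),
      (Tn F k : ℝ) ≤ cN * tK k - (1 + ε) * nrm vN (tK K)) ≤
      C * (exp (-((1 + ε) * log (log (tK K)))) + K * ρ ^ κ) := by
  obtain ⟨c2, D, hc2, hD, h⟩ := max_dn hρ
  obtain ⟨C, hC, hT⟩ := tail_nrm 2 (by norm_num)
  refine ⟨2 * C + 2 * D, by positivity, ?_⟩
  have hlog := kap_small hr (show 0 < ε / 4 by positivity)
  filter_upwards [hT, sqrt_K hc2 (show 0 < ε / 4 by positivity), hlog,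
    (tend_ll.comp tend_tK).eventually_ge_atTop 0] with K k1 k2 k8 k3 κ hκ
  refine (h K κ ((1 + ε) * nrm vN (tK K))).trans ?_
  have k4 := (k1 (1 + ε / 2) (by positivity) (by linarith)).2
  have k5 : ET (2 ^ K) (fun m => ind ((m : ℝ) ≤
      cN * tK K - ((1 + ε) * nrm vN (tK K) - c2 * √K - (4 + 18 * κ)))) ≤
      ET (2 ^ K) (fun m => ind ((m : ℝ) ≤ cN * tK K - (1 + ε / 2) * nrm vN (tK K))) := by
    refine Pool.Agent.H863R2.NL.ET_le_ET fun m => ind_mono fun hm => ?_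
    linarith
  have k6 : exp (-((1 + ε / 2) ^ 2 * log (log (tK K)))) ≤ exp (-((1 + ε) * log (log (tK K)))) := by
    apply exp_le_exp.2
    have k3' : 0 ≤ log (log (tK K)) := k3
    nlinarith [mul_nonneg (sq_nonneg ε) k3']
  have k7 := mul_le_mul_of_nonneg_left k6 hC.le
  have k9 : 0 ≤ exp (-((1 + ε) * log (log (tK K)))) := (exp_pos _).le
  have k10 : 0 ≤ (K : ℝ) * ρ ^ κ := by positivity
  have k11 : (2 * C + 2 * D) * (exp (-((1 + ε) * log (log (tK K)))) + K * ρ ^ κ) =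
      2 * (C * exp (-((1 + ε) * log (log (tK K)))) + K * (D * ρ ^ κ)) +
        (2 * D * exp (-((1 + ε) * log (log (tK K)))) + 2 * C * (K * ρ ^ κ)) := by ring
  have k12 : 0 ≤ 2 * D * exp (-((1 + ε) * log (log (tK K)))) + 2 * C * (K * ρ ^ κ) := by
    positivity
  rw [k11]
  linarith

/-- the scales -/
noncomputable def Kg (x : ℝ) (j : ℕ) : ℕ := ⌈x ^ j⌉₊ + 2

theorem Kg_ge {x : ℝ} (j : ℕ) : x ^ j ≤ Kg x j := by
  unfold Kg
  push_cast
  have := Nat.le_ceil (x ^ j)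
  linarith

theorem Kg_le {x : ℝ} (hx : 1 < x) (j : ℕ) : (Kg x j : ℝ) ≤ x ^ j + 3 := by
  unfold Kg
  push_cast
  have := Nat.ceil_lt_add_one (show 0 ≤ x ^ j by positivity)
  linarith

theorem Kg_tend {x : ℝ} (hx : 1 < x) : Tendsto (Kg x) atTop atTop := by
  rw [← tendsto_natCast_atTop_iff (R := ℝ)]
  exact tendsto_atTop_mono Kg_ge (tendsto_pow_atTop_atTop_of_one_lt hx)

theorem log_Kg {x : ℝ} (hx : 1 < x) : ∀ᶠ j : ℕ in atTop, log x / 2 * j ≤ log (tK (Kg x j)) := by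
  have hlx : 0 < log x := log_pos hx
  have h1 : Tendsto (fun j : ℕ => log x / 2 * (j : ℝ)) atTop atTop :=
    tendsto_natCast_atTop_atTop.const_mul_atTop (by positivity)
  filter_upwards [h1.eventually_ge_atTop (-log (log 2))] with j hj
  have h2 : x ^ j * log 2 ≤ tK (Kg x j) := mul_le_mul_of_nonneg_right (Kg_ge j) log2_pos.le
  have h3 := log_le_log (mul_pos (pow_pos (by linarith) j) log2_pos) h2
  rw [log_mul (pow_pos (by linarith) j).ne' log2_pos.ne', log_pow] at h3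
  linarith

theorem as_up {x ε : ℝ} (hx : 1 < x) (h0 : 0 < ε) (h1 : ε ≤ 1) : ∀ᵐ ω ∂crit,
    ∀ᶠ j : ℕ in atTop, ∀ k ∈ Icc 1 (Kg x j - 2),
      (Tw ω k : ℝ) ≤ cN * tK k + (1 + ε) * nrm vN (tK (Kg x j)) := by
  obtain ⟨C, hC, h⟩ := pr_up h0 h1
  have hs : Summable (fun j => Pr (fun _ => (1/2:ℝ)) (Bk (Kg x j)) (fun F =>
      ∃ k ∈ Icc 1 (Kg x j - 2), cN * tK k + (1 + ε) * nrm vN (tK (Kg x j)) ≤ Tn F k)) := by
    refine Summable.of_norm_bounded_eventually_nat
      ((summ (b := 1 + ε) (by linarith) (half_pos (log_pos hx)) (Kg x) (log_Kg hx)).mul_left C) ?_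
    filter_upwards [(Kg_tend hx).eventually h] with j hj
    rw [norm_eq_abs, abs_of_nonneg (Pr_nonneg hok _ _)]
    exact hj
  filter_upwards [bc1 _ _ hs] with ω hω
  filter_upwards [hω] with j hj k hk
  by_contra hcon
  push Not at hcon
  apply hj
  refine ⟨k, hk, ?_⟩
  rw [mem_Icc] at hk
  rw [Tw_op (by omega)]
  exact hcon.le

theorem as_dn {x ε : ℝ} (hx : 1 < x) (h0 : 0 < ε) (h1 : ε ≤ 1) : ∀ᵐ ω ∂crit,
    ∀ᶠ j : ℕ in atTop, ∀ k ∈ Icc 1 (Kg x j - 2),
      cN * tK k - (1 + ε) * nrm vN (tK (Kg x j)) ≤ Tw ω k := by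
  have hlx : 0 < log x := log_pos hx
  obtain ⟨C, hC, h⟩ := pr_dn (ρ := 1 / (2 * x)) (r := 1 / log x) h0 h1 (by positivity)
    (by positivity)
  have hs : Summable (fun j => Pr (fun _ => (1/2:ℝ)) (Bk (Kg x j)) (fun F =>
      ∃ k ∈ Icc 1 (Kg x j - 2), (Tn F k : ℝ) ≤ cN * tK k - (1 + ε) * nrm vN (tK (Kg x j)))) := by
    have hg : Summable (fun j : ℕ => 4 * (1 / 2 : ℝ) ^ j) :=
      (summable_geometric_of_lt_one (by norm_num) (by norm_num)).mul_left _
    refine Summable.of_norm_bounded_eventually_nat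
      (((summ (b := 1 + ε) (by linarith) (half_pos (log_pos hx)) (Kg x) (log_Kg hx)).add
        hg).mul_left C) ?_
    filter_upwards [(Kg_tend hx).eventually h] with j hj
    rw [norm_eq_abs, abs_of_nonneg (Pr_nonneg hok _ _)]
    have hκ : (j : ℝ) ≤ 1 / log x * log (Kg x j) := by
      have h3 := log_le_log (pow_pos (by linarith) j) (Kg_ge (x := x) j)
      rw [log_pow] at h3
      calc (j : ℝ) = 1 / log x * (j * log x) := by field_simp
        _ ≤ _ := mul_le_mul_of_nonneg_left h3 (by positivity)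
    refine (hj j hκ).trans ?_
    apply mul_le_mul_of_nonneg_left _ hC.le
    have h4 : (Kg x j : ℝ) * (1 / (2 * x)) ^ j ≤ 4 * (1 / 2 : ℝ) ^ j := by
      have h5 : (Kg x j : ℝ) ≤ 4 * x ^ j := by
        have := Kg_le hx j
        have h6 : 1 ≤ x ^ j := one_le_pow₀ hx.le
        linarith
      have hx0 : 0 < x ^ j := by positivity
      calc (Kg x j : ℝ) * (1 / (2 * x)) ^ j ≤ 4 * x ^ j * (1 / (2 * x)) ^ j :=
            mul_le_mul_of_nonneg_right h5 (by positivity)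
        _ = 4 * (1 / 2) ^ j := by
            rw [show 1 / (2 * x) = (1 / 2) * (1 / x) by field_simp, mul_pow, one_div_pow x]
            field_simp
    linarith
  filter_upwards [bc1 _ _ hs] with ω hω
  filter_upwards [hω] with j hj k hk
  by_contra hcon
  push Not at hcon
  apply hj
  refine ⟨k, hk, ?_⟩
  rw [mem_Icc] at hk
  rw [Tw_op (by omega)]
  exact hcon.le

/-- every large scale is in one of the blocks -/
theorem blk {x : ℝ} (hx : 1 < x) {P : ℕ → ℕ → Prop}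
    (h : ∀ᶠ j : ℕ in atTop, ∀ k ∈ Icc 1 (Kg x j - 2), P j k) :
    ∀ᶠ k : ℕ in atTop, ∃ j, P j k ∧ (k : ℝ) ≤ Kg x j ∧ (Kg x j : ℝ) ≤ x ^ 2 * k := by
  classical
  obtain ⟨J, hJ⟩ := eventually_atTop.1 h
  have hx2 : 0 < x ^ 2 - x := by nlinarith
  filter_upwards [eventually_gt_atTop ⌈x ^ (J + 1)⌉₊,
    (tendsto_natCast_atTop_atTop (R := ℝ)).eventually_ge_atTop (3 / (x ^ 2 - x)),
    eventually_ge_atTop 1] with k k1 k2 k3
  have hex : ∃ j, k ≤ ⌈x ^ j⌉₊ := by
    obtain ⟨j, hj⟩ := ((tendsto_pow_atTop_atTop_of_one_lt hx).eventually_ge_atTop (k:ℝ)).exists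
    refine ⟨j, ?_⟩
    have := hj.trans (Nat.le_ceil (x ^ j))
    exact_mod_cast this
  obtain ⟨j, hj⟩ : ∃ j, j = Nat.find hex := ⟨_, rfl⟩
  have hj1 : k ≤ ⌈x ^ j⌉₊ := by rw [hj]; exact Nat.find_spec hex
  have hjJ : J + 1 < j := by
    by_contra hcon
    push Not at hcon
    have : ⌈x ^ j⌉₊ ≤ ⌈x ^ (J + 1)⌉₊ := Nat.ceil_mono (pow_le_pow_right₀ hx.le hcon)
    omega
  have hj2 : ⌈x ^ (j - 1)⌉₊ < k := by
    by_contra hcon
    push Not at hcon
    exact Nat.find_min hex (m := j - 1) (by omega) hcon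
  refine ⟨j, hJ j (by omega) k ?_, ?_, ?_⟩
  · rw [mem_Icc]
    refine ⟨k3, ?_⟩
    unfold Kg
    omega
  · have : k ≤ Kg x j := by
      unfold Kg
      omega
    exact_mod_cast this
  · refine (Kg_le hx j).trans ?_
    have e : x ^ j = x * x ^ (j - 1) := by
      rw [← pow_succ']
      congr 1
      omega
    have h4 : x ^ (j - 1) ≤ k := by
      refine (Nat.le_ceil _).trans ?_
      exact_mod_cast hj2.le
    rw [div_le_iff₀ hx2] at k2
    rw [e]
    have := mul_le_mul_of_nonneg_left h4 (show 0 ≤ x by linarith)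
    linarith

/-- the norming function at the end of the block -/
theorem blk_nrm {x η : ℝ} (hx : 1 < x) (hη : 0 < η) : ∀ᶠ k : ℕ in atTop, ∀ j : ℕ,
    (k : ℝ) ≤ Kg x j → (Kg x j : ℝ) ≤ x ^ 2 * k →
      nrm vN (tK (Kg x j)) ≤ x * (1 + η) * nrm vN (tK k) := by
  have hvN := vN_pos
  filter_upwards [tend_tK.eventually (nrm_scale hvN (a := x ^ 2) (by nlinarith) hη),
    (tendsto_log_atTop.comp tend_tK).eventually_gt_atTop 1, tend_tK.eventually_gt_atTop 0]
    with k k1 k2 k3 j h1 h2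
  have h3 : tK k ≤ tK (Kg x j) := mul_le_mul_of_nonneg_right h1 log2_pos.le
  have h4 : tK (Kg x j) ≤ x ^ 2 * tK k := by
    unfold tK
    rw [← mul_assoc]
    exact mul_le_mul_of_nonneg_right h2 log2_pos.le
  have h5 : 1 < log (tK (Kg x j)) := lt_of_lt_of_le k2 (log_le_log k3 h3)
  refine (nrm_mono hvN.le h5 h4 (by linarith)).trans ?_
  rwa [sqrt_sq (by linarith)] at k1

/-- The upper half of the law of the iterated logarithm at the dyadic scales. -/
theorem lil_le {ε : ℝ} (h0 : 0 < ε) (h1 : ε ≤ 1) : ∀ᵐ ω ∂crit, ∀ᶠ k : ℕ in atTop,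
    (Tw ω k : ℝ) ≤ cN * tK k + (1 + ε) * nrm vN (tK k) ∧
    cN * tK k - (1 + ε) * nrm vN (tK k) ≤ Tw ω k := by
  obtain ⟨η, hη⟩ : ∃ η : ℝ, η = ε / 16 := ⟨_, rfl⟩
  have hη0 : 0 < η := by rw [hη]; positivity
  have hη1 : η ≤ 1 / 16 := by rw [hη]; linarith
  have hx : 1 < 1 + η := by linarith
  filter_upwards [as_up hx hη0 (by linarith), as_dn hx hη0 (by linarith)] with ω h2 h3
  filter_upwards [blk hx h2, blk hx h3, blk_nrm hx hη0] with k k1 k2 k3
  have hN := nrm_nonneg vN (tK k)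
  have hc : (1 + η) * ((1 + η) * (1 + η) * nrm vN (tK k)) ≤ (1 + ε) * nrm vN (tK k) := by
    have : (1 + η) * ((1 + η) * (1 + η)) ≤ 1 + ε := by
      have e : ε = 16 * η := by rw [hη]; ring
      rw [e]
      nlinarith [mul_pos hη0 hη0, mul_pos (mul_pos hη0 hη0) hη0]
    calc (1 + η) * ((1 + η) * (1 + η) * nrm vN (tK k)) =
        (1 + η) * ((1 + η) * (1 + η)) * nrm vN (tK k) := by ring
      _ ≤ _ := mul_le_mul_of_nonneg_right this hN
  constructor
  · obtain ⟨j, h4, h5, h6⟩ := k1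
    have := mul_le_mul_of_nonneg_left (k3 j h5 h6) (show 0 ≤ 1 + η by linarith)
    linarith
  · obtain ⟨j, h4, h5, h6⟩ := k2
    have := mul_le_mul_of_nonneg_left (k3 j h5 h6) (show 0 ≤ 1 + η by linarith)
    linarith

end Pool.Agent.U154.NI
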