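import Mathlib

/-!
Elementary asymptotics for the law of the iterated logarithm.
-/

set_option autoImplicit false

namespace Pool.Agent.U154.NI

open Real Filter Topology

/-- the norming function, with the variance `v` -/
noncomputable def nrm (v t : ℝ) : ℝ := √(2 * v * t * log (log t))

theorem tend_ll : Tendsto (fun t : ℝ => log (log t)) atTop atTop :=
  tendsto_log_atTop.comp tendsto_log_atTop

/-- powers of `log log t` are small -/
theorem ll_cube (C : ℝ) : ∀ᶠ t : ℝ in atTop, C * log (log t) ^ 3 ≤ t := by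
  have h1 := (isLittleO_pow_log_id_atTop (n := 3)).def (c := 1 / (|C| + 1)) (by positivity)
  filter_upwards [h1, eventually_ge_atTop (exp 1), tend_ll.eventually_ge_atTop 0] with t k1 k2 k3
  have ht0 : 0 < t := lt_of_lt_of_le (exp_pos 1) k2
  have hx1 : 1 ≤ log t := by
    rw [← log_exp 1]
    exact log_le_log (exp_pos 1) k2
  simp only [norm_eq_abs, id] at k1
  rw [abs_of_nonneg (by positivity), abs_of_pos ht0] at k1
  have h2 : log (log t) ≤ log t := by
    have := log_le_sub_one_of_pos (show 0 < log t by linarith)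
    linarith
  have h3 : log (log t) ^ 3 ≤ log t ^ 3 := pow_le_pow_left₀ k3 h2 3
  have h4 : (|C| + 1) * log t ^ 3 ≤ t := by
    calc (|C| + 1) * log t ^ 3 ≤ (|C| + 1) * (1 / (|C| + 1) * t) :=
          mul_le_mul_of_nonneg_left k1 (by positivity)
      _ = t := by field_simp
  have h5 : 0 ≤ log (log t) ^ 3 := by positivity
  calc C * log (log t) ^ 3 ≤ (|C| + 1) * log (log t) ^ 3 :=
        mul_le_mul_of_nonneg_right (by linarith [le_abs_self C]) h5
    _ ≤ (|C| + 1) * log t ^ 3 := mul_le_mul_of_nonneg_left h3 (by positivity)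
    _ ≤ t := h4

theorem ll_lin (C : ℝ) (hC : 0 ≤ C) : ∀ᶠ t : ℝ in atTop, C * log (log t) ≤ t := by
  filter_upwards [ll_cube C, tend_ll.eventually_ge_atTop 1] with t h1 h2
  refine le_trans ?_ h1
  refine mul_le_mul_of_nonneg_left ?_ hC
  nlinarith [sq_nonneg (log (log t))]

theorem nrm_eq {v t : ℝ} (hv : 0 ≤ v) (ht : 0 ≤ t) :
    nrm v t = √(2 * log (log t)) * √(v * t) := by
  unfold nrm
  rw [← sqrt_mul' _ (mul_nonneg hv ht)]
  congr 1
  ring

/-- the norming function dominates `log log t` -/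
theorem nrm_ge {v : ℝ} (hv : 0 < v) (A B : ℝ) : ∀ᶠ t : ℝ in atTop,
    A * log (log t) + B ≤ nrm v t := by
  filter_upwards [ll_lin ((|A| + |B|) ^ 2 / (2 * v)) (by positivity),
    tend_ll.eventually_ge_atTop 1, eventually_ge_atTop 0] with t h1 h2 h3
  have h4 : A * log (log t) + B ≤ (|A| + |B|) * log (log t) := by
    have a1 : A * log (log t) ≤ |A| * log (log t) :=
      mul_le_mul_of_nonneg_right (le_abs_self A) (by linarith)
    have a2 : |B| * 1 ≤ |B| * log (log t) := mul_le_mul_of_nonneg_left h2 (abs_nonneg B)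
    have a3 := le_abs_self B
    linarith
  refine h4.trans ?_
  unfold nrm
  apply le_sqrt_of_sq_le
  rw [mul_pow]
  have h5 : (|A| + |B|) ^ 2 * log (log t) ≤ 2 * v * t := by
    have : (|A| + |B|) ^ 2 / (2 * v) * log (log t) * (2 * v) ≤ t * (2 * v) :=
      mul_le_mul_of_nonneg_right h1 (by positivity)
    calc (|A| + |B|) ^ 2 * log (log t) =
          (|A| + |B|) ^ 2 / (2 * v) * log (log t) * (2 * v) := by field_simp
      _ ≤ t * (2 * v) := this
      _ = _ := by ring
  calc (|A| + |B|) ^ 2 * log (log t) ^ 2 = ((|A| + |B|) ^ 2 * log (log t)) * log (log t) := by ring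
    _ ≤ (2 * v * t) * log (log t) := mul_le_mul_of_nonneg_right h5 (by linarith)

/-- the norming function dominates the square root -/
theorem nrm_ge_sqrt {v : ℝ} (hv : 0 < v) (A B : ℝ) : ∀ᶠ t : ℝ in atTop,
    A * √t + B ≤ nrm v t := by
  filter_upwards [tend_ll.eventually_ge_atTop ((|A| + |B|) ^ 2 / (2 * v)),
    eventually_ge_atTop 1] with t h1 h2
  have hs : 1 ≤ √t := one_le_sqrt.2 h2
  have h4 : A * √t + B ≤ (|A| + |B|) * √t := by
    have a1 : A * √t ≤ |A| * √t := mul_le_mul_of_nonneg_right (le_abs_self A) (by linarith)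
    have a2 : |B| * 1 ≤ |B| * √t := mul_le_mul_of_nonneg_left hs (abs_nonneg B)
    have a3 := le_abs_self B
    linarith
  refine h4.trans ?_
  unfold nrm
  apply le_sqrt_of_sq_le
  rw [mul_pow, sq_sqrt (by linarith)]
  rw [div_le_iff₀ (by positivity)] at h1
  calc (|A| + |B|) ^ 2 * t ≤ (log (log t) * (2 * v)) * t :=
        mul_le_mul_of_nonneg_right h1 (by linarith)
    _ = _ := by ring

theorem nrm_nonneg (v t : ℝ) : 0 ≤ nrm v t := sqrt_nonneg _

/-- comparison of the norming function at proportional times -/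
theorem nrm_scale {v : ℝ} (hv : 0 < v) {a η : ℝ} (ha : 1 ≤ a) (hη : 0 < η) :
    ∀ᶠ t : ℝ in atTop, nrm v (a * t) ≤ √a * (1 + η) * nrm v t := by
  have hl : Tendsto (fun t : ℝ => log t) atTop atTop := tendsto_log_atTop
  filter_upwards [hl.eventually_ge_atTop (log a), tend_ll.eventually_ge_atTop (log 2 / η),
    tend_ll.eventually_ge_atTop 1, hl.eventually_ge_atTop 1, eventually_ge_atTop 1]
    with t h1 h2 h3 h4 h5
  have ha0 : 0 < a := by linarith
  have ht0 : 0 < t := by linarith
  have h6 : log (a * t) ≤ 2 * log t := by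
    rw [log_mul ha0.ne' ht0.ne']
    linarith
  have h7 : 0 < log (a * t) := by
    rw [log_mul ha0.ne' ht0.ne']
    have := log_nonneg ha
    linarith
  have h8 : log (log (a * t)) ≤ (1 + η) * log (log t) := by
    have h9 : log (log (a * t)) ≤ log (2 * log t) := log_le_log h7 h6
    have e9 : log (2 * log t) = log 2 + log (log t) := log_mul (by norm_num) (by linarith)
    rw [div_le_iff₀ hη] at h2
    linarith
  unfold nrm
  have e : √a * (1 + η) * √(2 * v * t * log (log t)) =
      √(a * (1 + η) ^ 2 * (2 * v * t * log (log t))) := by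
    rw [sqrt_mul (show 0 ≤ a * (1 + η) ^ 2 by positivity), sqrt_mul ha0.le,
      sqrt_sq (by linarith)]
  rw [e]
  apply sqrt_le_sqrt
  have h10 : 2 * v * (a * t) * log (log (a * t)) ≤ 2 * v * (a * t) * ((1 + η) * log (log t)) :=
    mul_le_mul_of_nonneg_left h8 (by positivity)
  refine h10.trans ?_
  have h11 : 0 ≤ a * (2 * v * t * log (log t)) := by
    have : 0 ≤ log (log t) := by linarith
    positivity
  nlinarith [mul_nonneg h11 hη.le, mul_nonneg (mul_nonneg h11 hη.le) hη.le]

theorem nrm_mono {v : ℝ} (hv : 0 ≤ v) {s t : ℝ} (hs : 1 < log s) (hst : s ≤ t) (hs0 : 0 < s) :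
    nrm v s ≤ nrm v t := by
  unfold nrm
  apply sqrt_le_sqrt
  have h1 : log s ≤ log t := log_le_log hs0 hst
  have h2 : log (log s) ≤ log (log t) := log_le_log (by linarith) h1
  have h3 : 0 ≤ log (log s) := log_nonneg hs.le
  have h4 : 2 * v * s ≤ 2 * v * t := mul_le_mul_of_nonneg_left hst (by positivity)
  exact mul_le_mul h4 h2 h3 (by nlinarith)

end Pool.Agent.U154.NI
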