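import Pool.Agent.H450R4.NLMom

/-!
Lower bounds for the exponential moments on the cylinder, uniformly near zero.
-/

set_option autoImplicit false

namespace Pool.Agent.U154.NI

open H974 Finset Real Pool.Agent.H863R2.NL Pool.Agent.H450R4.NL

theorem exp_le_cub {z : ℝ} (h0 : 0 ≤ z) (h1 : z ≤ 1 / 2) :
    exp z ≤ 1 + z + z ^ 2 / 2 + z ^ 3 := by
  have h := exp_bound' h0 (by linarith) (n := 3) (by norm_num)
  simp only [Finset.sum_range_succ, Finset.sum_range_zero, Nat.factorial] at h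
  norm_num at h
  have : 0 ≤ z ^ 3 := by positivity
  linarith

theorem fac_up_lo {p l : ℝ} (hp0 : 0 ≤ p) (hl0 : 0 ≤ l) (hl1 : l ≤ 1 / 2) (hp1 : p ≤ 1 / 3) :
    exp (l * p + l ^ 2 / 2 * (p * (1 - p)) + -(2 * l ^ 3) * p) ≤ 1 + p * (exp l - 1) := by
  obtain ⟨z, hz⟩ : ∃ z : ℝ, z = l * p + l ^ 2 / 2 * (p * (1 - p)) + -(2 * l ^ 3) * p := ⟨_, rfl⟩
  rw [← hz]
  obtain ⟨w, hw⟩ : ∃ w : ℝ, w = l * p := ⟨_, rfl⟩
  have hw0 : 0 ≤ w := by rw [hw]; positivity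
  have hw1 : w ≤ 1 / 6 := by
    rw [hw]
    nlinarith
  have e1 : z = w * (1 + l / 2 * (1 - p) - 2 * l ^ 2) := by rw [hz, hw]; ring
  have hz0 : 0 ≤ z := by
    rw [e1]
    apply mul_nonneg hw0
    nlinarith
  have hz1 : z ≤ w * (1 + l / 2) := by
    rw [e1]
    apply mul_le_mul_of_nonneg_left _ hw0
    nlinarith [mul_nonneg hl0 hp0, sq_nonneg l]
  have hz2 : z ≤ 5 / 4 * w := by nlinarith
  have h1 := exp_le_cub hz0 (by linarith)
  have h2 := quadratic_le_exp_of_nonneg hl0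
  have h3 : p * (l + l ^ 2 / 2) ≤ p * (exp l - 1) := mul_le_mul_of_nonneg_left (by linarith) hp0
  have h4 : z ^ 2 ≤ w ^ 2 * (1 + l / 2) ^ 2 := by
    rw [← mul_pow]
    exact pow_le_pow_left₀ hz0 hz1 2
  have h5 : z ^ 3 ≤ 2 * w ^ 3 := by
    calc z ^ 3 ≤ (5 / 4 * w) ^ 3 := pow_le_pow_left₀ hz0 hz2 3
      _ = (125 / 64) * w ^ 3 := by ring
      _ ≤ 2 * w ^ 3 := mul_le_mul_of_nonneg_right (by norm_num) (by positivity)
  have h6 : z + z ^ 2 / 2 + z ^ 3 ≤ p * (l + l ^ 2 / 2) := by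
    have e2 : p * (l + l ^ 2 / 2) = w + w * l / 2 := by rw [hw]; ring
    have e3 : z = w + w * l / 2 - w ^ 2 / 2 - 2 * w * l ^ 2 := by
      rw [e1, hw]; ring
    have h7 : w ^ 2 * (1 + l / 2) ^ 2 / 2 + 2 * w ^ 3 ≤ w ^ 2 / 2 + 2 * w * l ^ 2 := by
      have e4 : w ^ 2 * (1 + l / 2) ^ 2 / 2 + 2 * w ^ 3 - (w ^ 2 / 2 + 2 * w * l ^ 2) =
          w * l ^ 2 * (p / 2 + l * p / 8 + 2 * p ^ 2 - 2) := by rw [hw]; ring
      have h8 : p / 2 + l * p / 8 + 2 * p ^ 2 - 2 ≤ 0 := by nlinarith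
      have h9 : w * l ^ 2 * (p / 2 + l * p / 8 + 2 * p ^ 2 - 2) ≤ 0 :=
        mul_nonpos_of_nonneg_of_nonpos (by positivity) h8
      linarith
    rw [e2]
    nlinarith
  linarith

theorem exp_neg_le {z : ℝ} (hz0 : 0 ≤ z) : exp (-z) ≤ 1 - z + z ^ 2 / 2 := by
  have h := quadratic_le_exp_of_nonneg hz0
  have h' : exp (-z) * exp z = 1 := by rw [← exp_add]; simp
  have h2 : 0 < 1 - z + z ^ 2 / 2 := by nlinarith [sq_nonneg (z - 1)]
  by_contra hcon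
  push Not at hcon
  have h3 : (1 - z + z ^ 2 / 2) * (1 + z + z ^ 2 / 2) < exp (-z) * exp z :=
    mul_lt_mul hcon h (by positivity) (exp_pos _).le
  rw [h'] at h3
  have : 0 ≤ z ^ 4 := by positivity
  nlinarith

theorem exp_neg_ge {l : ℝ} (hl0 : 0 ≤ l) (hl1 : l ≤ 1 / 2) :
    1 - l + l ^ 2 / 2 - l ^ 3 ≤ exp (-l) := by
  have h1 := exp_le_cub hl0 hl1
  have h2 : exp (-l) * exp l = 1 := by rw [← exp_add]; simp
  have h3 : exp (-l) = 1 / exp l := by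
    rw [eq_div_iff (exp_pos l).ne']
    exact h2
  rw [h3, le_div_iff₀ (exp_pos l)]
  have h4 : 0 ≤ 1 - l + l ^ 2 / 2 - l ^ 3 := by nlinarith
  calc (1 - l + l ^ 2 / 2 - l ^ 3) * exp l ≤
        (1 - l + l ^ 2 / 2 - l ^ 3) * (1 + l + l ^ 2 / 2 + l ^ 3) :=
        mul_le_mul_of_nonneg_left h1 h4
    _ = 1 - 7 / 4 * l ^ 4 - l ^ 6 := by ring
    _ ≤ 1 := by
        have : 0 ≤ l ^ 4 := by positivity
        have : 0 ≤ l ^ 6 := by positivity
        linarith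

theorem fac_dn_lo {p l : ℝ} (hp0 : 0 ≤ p) (hl0 : 0 ≤ l) (hl1 : l ≤ 1 / 2) (hp1 : p ≤ 1 / 3) :
    exp (-l * p + l ^ 2 / 2 * (p * (1 - p)) + -(2 * l ^ 3) * p) ≤ 1 + p * (exp (-l) - 1) := by
  obtain ⟨z, hz⟩ : ∃ z : ℝ, z = l * p - l ^ 2 / 2 * (p * (1 - p)) + 2 * l ^ 3 * p := ⟨_, rfl⟩
  have e0 : -l * p + l ^ 2 / 2 * (p * (1 - p)) + -(2 * l ^ 3) * p = -z := by rw [hz]; ring
  rw [e0]
  obtain ⟨w, hw⟩ : ∃ w : ℝ, w = l * p := ⟨_, rfl⟩
  have hw0 : 0 ≤ w := by rw [hw]; positivity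
  have e1 : z = w * (1 - l / 2 * (1 - p) + 2 * l ^ 2) := by rw [hz, hw]; ring
  have hz0 : 0 ≤ z := by
    rw [e1]
    apply mul_nonneg hw0
    nlinarith [mul_nonneg hl0 hp0, sq_nonneg l]
  have hz1 : z ≤ w * (1 + 7 / 6 * l) := by
    rw [e1]
    apply mul_le_mul_of_nonneg_left _ hw0
    nlinarith [mul_nonneg hl0 hp0]
  have h1 := exp_neg_le hz0
  have h2 := exp_neg_ge hl0 hl1
  have h3 : p * (-l + l ^ 2 / 2 - l ^ 3) ≤ p * (exp (-l) - 1) :=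
    mul_le_mul_of_nonneg_left (by linarith) hp0
  have h4 : z ^ 2 ≤ w ^ 2 * (1 + 7 / 6 * l) ^ 2 := by
    rw [← mul_pow]
    exact pow_le_pow_left₀ hz0 hz1 2
  have h6 : -z + z ^ 2 / 2 ≤ p * (-l + l ^ 2 / 2 - l ^ 3) := by
    have e2 : p * (-l + l ^ 2 / 2 - l ^ 3) = -w + w * l / 2 - w * l ^ 2 := by rw [hw]; ring
    have e3 : z = w - w * l / 2 + w ^ 2 / 2 + 2 * w * l ^ 2 := by
      rw [e1, hw]; ring
    have h7 : w ^ 2 * (1 + 7 / 6 * l) ^ 2 / 2 ≤ w ^ 2 / 2 + w * l ^ 2 := by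
      have e4 : w ^ 2 * (1 + 7 / 6 * l) ^ 2 / 2 - (w ^ 2 / 2 + w * l ^ 2) =
          w * l ^ 2 * (7 / 6 * p + 49 / 72 * (l * p) - 1) := by rw [hw]; ring
      have h8 : 7 / 6 * p + 49 / 72 * (l * p) - 1 ≤ 0 := by nlinarith
      have h9 : w * l ^ 2 * (7 / 6 * p + 49 / 72 * (l * p) - 1) ≤ 0 :=
        mul_nonpos_of_nonneg_of_nonpos (by positivity) h8
      linarith
    rw [e2]
    linarith
  linarith

theorem prod_bound_lo {f : ℝ → ℝ} {A B D : ℝ} (s : Multiset ℝ)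
    (h : ∀ p ∈ s, exp (A * p + B * (p * (1 - p)) + D * p) ≤ f p) :
    exp (A * s.sum + B * (s.map (fun p => p * (1 - p))).sum + D * s.sum) ≤ (s.map f).prod := by
  induction s using Multiset.induction_on with
  | empty => simp
  | cons a s ih =>
    have ih' := ih (fun p hp => h p (Multiset.mem_cons_of_mem hp))
    simp only [Multiset.map_cons, Multiset.prod_cons, Multiset.sum_cons]
    have h1 := h a (Multiset.mem_cons_self a s)
    calc exp (A * (a + s.sum) + B * (a * (1 - a) + (s.map (fun p => p * (1 - p))).sum) +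
          D * (a + s.sum)) = exp (A * a + B * (a * (1 - a)) + D * a) *
          exp (A * s.sum + B * (s.map (fun p => p * (1 - p))).sum + D * s.sum) := by
          rw [← exp_add]
          congr 1
          ring
      _ ≤ _ := mul_le_mul h1 ih' (exp_pos _).le ((exp_pos _).le.trans h1)

/-- lower bounds for the exponential moments on the cylinder -/
theorem EN_up_lo : ∃ c : ℝ, 0 < c ∧ ∀ l : ℝ, 0 ≤ l → l ≤ 1 / 2 → ∀ n : ℕ, 1 ≤ n →
    c * exp ((cN * l + vN * l ^ 2 / 2 - 2 * cN * l ^ 3) * log n) ≤ EN n (fun m => exp l ^ m) := by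
  obtain ⟨ps, hps, ⟨C1, hC1⟩, ⟨C2, hC2⟩, -⟩ := ps_exists
  have hC10 : 0 ≤ C1 := (abs_nonneg _).trans (hC1 1 le_rfl)
  have hC20 : 0 ≤ C2 := (abs_nonneg _).trans (hC2 1 le_rfl)
  refine ⟨exp (-(C1 + C2 + 2 * C1)), exp_pos _, ?_⟩
  intro l hl0 hl1 n hn
  rw [PsSumAux.real_id (hps n hn)]
  refine le_trans ?_ (prod_bound_lo (A := l) (B := l ^ 2 / 2) (D := -(2 * l ^ 3)) _ ?_)
  · rw [← exp_add]
    apply exp_le_exp.2
    have h1 := (abs_le.1 (hC1 n hn)).1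
    have h1' := (abs_le.1 (hC1 n hn)).2
    have h2 := (abs_le.1 (hC2 n hn)).1
    have h3 : l * (cN * log n) - C1 ≤ l * (ps n).sum := by
      have : l * (-C1) ≤ l * ((ps n).sum - cN * log n) := mul_le_mul_of_nonneg_left h1 hl0
      have : l * C1 ≤ 1 * C1 := mul_le_mul_of_nonneg_right (by linarith) hC10
      linarith
    have h4 : l ^ 2 / 2 * (vN * log n) - C2 ≤
        l ^ 2 / 2 * ((ps n).map (fun p => p * (1 - p))).sum := by
      have h5 : l ^ 2 / 2 * (-C2) ≤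
          l ^ 2 / 2 * (((ps n).map (fun p => p * (1 - p))).sum - vN * log n) :=
        mul_le_mul_of_nonneg_left h2 (by positivity)
      have h6 : l ^ 2 / 2 * C2 ≤ 1 * C2 := mul_le_mul_of_nonneg_right (by nlinarith) hC20
      linarith
    have h5 : l ^ 3 * (ps n).sum ≤ l ^ 3 * (cN * log n) + C1 := by
      have h6 : l ^ 3 * ((ps n).sum - cN * log n) ≤ l ^ 3 * C1 :=
        mul_le_mul_of_nonneg_left h1' (by positivity)
      have h8 : l ^ 3 ≤ 1 := pow_le_one₀ hl0 (by linarith)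
      have h7 : l ^ 3 * C1 ≤ 1 * C1 := mul_le_mul_of_nonneg_right h8 hC10
      linarith
    linarith
  · intro p hp
    have h1 := (hps n hn).1 p hp
    exact fac_up_lo h1.1.le hl0 hl1 h1.2

theorem EN_dn_lo : ∃ c : ℝ, 0 < c ∧ ∀ l : ℝ, 0 ≤ l → l ≤ 1 / 2 → ∀ n : ℕ, 1 ≤ n →
    c * exp ((-(cN * l) + vN * l ^ 2 / 2 - 2 * cN * l ^ 3) * log n) ≤
      EN n (fun m => exp (-l) ^ m) := by
  obtain ⟨ps, hps, ⟨C1, hC1⟩, ⟨C2, hC2⟩, -⟩ := ps_exists
  have hC10 : 0 ≤ C1 := (abs_nonneg _).trans (hC1 1 le_rfl)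
  have hC20 : 0 ≤ C2 := (abs_nonneg _).trans (hC2 1 le_rfl)
  refine ⟨exp (-(C1 + C2 + 2 * C1)), exp_pos _, ?_⟩
  intro l hl0 hl1 n hn
  rw [PsSumAux.real_id (hps n hn)]
  refine le_trans ?_ (prod_bound_lo (A := -l) (B := l ^ 2 / 2) (D := -(2 * l ^ 3)) _ ?_)
  · rw [← exp_add]
    apply exp_le_exp.2
    have h1' := (abs_le.1 (hC1 n hn)).2
    have h2 := (abs_le.1 (hC2 n hn)).1
    have h3 : -l * (cN * log n) - C1 ≤ -l * (ps n).sum := by
      have : l * ((ps n).sum - cN * log n) ≤ l * C1 := mul_le_mul_of_nonneg_left h1' hl0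
      have : l * C1 ≤ 1 * C1 := mul_le_mul_of_nonneg_right (by linarith) hC10
      linarith
    have h4 : l ^ 2 / 2 * (vN * log n) - C2 ≤
        l ^ 2 / 2 * ((ps n).map (fun p => p * (1 - p))).sum := by
      have h5 : l ^ 2 / 2 * (-C2) ≤
          l ^ 2 / 2 * (((ps n).map (fun p => p * (1 - p))).sum - vN * log n) :=
        mul_le_mul_of_nonneg_left h2 (by positivity)
      have h6 : l ^ 2 / 2 * C2 ≤ 1 * C2 := mul_le_mul_of_nonneg_right (by nlinarith) hC20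
      linarith
    have h5 : l ^ 3 * (ps n).sum ≤ l ^ 3 * (cN * log n) + C1 := by
      have h6 : l ^ 3 * ((ps n).sum - cN * log n) ≤ l ^ 3 * C1 :=
        mul_le_mul_of_nonneg_left h1' (by positivity)
      have h8 : l ^ 3 ≤ 1 := pow_le_one₀ hl0 (by linarith)
      have h7 : l ^ 3 * C1 ≤ 1 * C1 := mul_le_mul_of_nonneg_right h8 hC10
      linarith
    linarith
  · intro p hp
    have h1 := (hps n hn).1 p hp
    exact fac_dn_lo h1.1.le hl0 hl1 h1.2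

end Pool.Agent.U154.NI
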