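import Mathlib

/-!
Convergence of the finite-dimensional distributions to those of Brownian motion, for processes with
asymptotically independent increments.
-/

set_option autoImplicit false

namespace Pool.Agent.U154.NI.Fdd

open MeasureTheory ProbabilityTheory Filter Topology Finset
open scoped NNReal ENNReal

variable {Ω : Type*} [MeasurableSpace Ω] {μ : Measure Ω}

/-- the unitary exponential -/
noncomputable def e (x : ℝ) : ℂ := Complex.exp ((x : ℂ) * Complex.I)

theorem norm_e (x : ℝ) : ‖e x‖ = 1 := Complex.norm_exp_ofReal_mul_I x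

theorem e_add (x y : ℝ) : e (x + y) = e x * e y := by
  unfold e
  rw [← Complex.exp_add]
  push_cast
  ring_nf

theorem e_sub_le (x y : ℝ) : ‖e x - e y‖ ≤ |x - y| := by
  have h : e x - e y = e y * (Complex.exp (Complex.I * ((x - y : ℝ) : ℂ)) - 1) := by
    have : e x = e y * e (x - y) := by
      rw [← e_add]
      congr 1
      ring
    rw [this, mul_sub, mul_one]
    unfold e
    rw [mul_comm (((x - y : ℝ) : ℂ)) Complex.I]
  rw [h, norm_mul, norm_e, one_mul]
  exact Real.norm_exp_I_mul_ofReal_sub_one_le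

theorem e_sub_le_two (x y : ℝ) : ‖e x - e y‖ ≤ 2 := by
  refine (norm_sub_le _ _).trans ?_
  rw [norm_e, norm_e]
  norm_num

theorem continuous_e : Continuous e := by
  unfold e
  fun_prop

theorem meas_e {X : Ω → ℝ} (hX : Measurable X) : Measurable (fun ω => e (X ω)) :=
  continuous_e.measurable.comp hX

theorem int_e [IsProbabilityMeasure μ] {X : Ω → ℝ} (hX : Measurable X) :
    Integrable (fun ω => e (X ω)) μ := by
  refine Integrable.of_bound (meas_e hX).aestronglyMeasurable 1 ?_
  exact Eventually.of_forall fun ω => (norm_e _).le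

/-- convergence to zero in probability -/
def Small (μ : Measure Ω) (R : ℕ → Ω → ℝ) : Prop :=
  ∀ ε : ℝ, 0 < ε → Tendsto (fun n => μ.real {ω | ε ≤ |R n ω|}) atTop (𝓝 0)

theorem int_close [IsProbabilityMeasure μ] {X Y : ℕ → Ω → ℝ} (hX : ∀ n, Measurable (X n))
    (hY : ∀ n, Measurable (Y n)) (h : Small μ (fun n ω => X n ω - Y n ω)) :
    Tendsto (fun n => ∫ ω, e (X n ω) ∂μ - ∫ ω, e (Y n ω) ∂μ) atTop (𝓝 0) := by
  rw [Metric.tendsto_atTop]
  intro ε hε
  have h1 := h (ε / 4) (by positivity)
  rw [Metric.tendsto_atTop] at h1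
  obtain ⟨N, hN⟩ := h1 (ε / 8) (by positivity)
  refine ⟨N, fun n hn => ?_⟩
  have h2 := hN n hn
  rw [Real.dist_eq, sub_zero, abs_of_nonneg measureReal_nonneg] at h2
  rw [dist_zero_right, ← integral_sub (int_e (hX n)) (int_e (hY n))]
  have hms : MeasurableSet {ω | ε / 4 ≤ |X n ω - Y n ω|} :=
    measurableSet_le measurable_const (((hX n).sub (hY n)).abs)
  have h3 : ∀ ω, ‖e (X n ω) - e (Y n ω)‖ ≤ ε / 4 + 2 *
      ({ω | ε / 4 ≤ |X n ω - Y n ω|} : Set Ω).indicator (fun _ => (1:ℝ)) ω := by
    intro ω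
    by_cases hω : ω ∈ ({ω | ε / 4 ≤ |X n ω - Y n ω|} : Set Ω)
    · rw [Set.indicator_of_mem hω]
      have := e_sub_le_two (X n ω) (Y n ω)
      linarith
    · rw [Set.indicator_of_notMem hω]
      have h4 := e_sub_le (X n ω) (Y n ω)
      have h5 : |X n ω - Y n ω| < ε / 4 := not_le.1 hω
      linarith
  have hint : Integrable (fun ω => ε / 4 + 2 *
      ({ω | ε / 4 ≤ |X n ω - Y n ω|} : Set Ω).indicator (fun _ => (1:ℝ)) ω) μ :=
    (integrable_const _).add (((integrable_const _).indicator hms).const_mul _)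
  calc ‖∫ ω, (e (X n ω) - e (Y n ω)) ∂μ‖ ≤ ∫ ω, ‖e (X n ω) - e (Y n ω)‖ ∂μ :=
        norm_integral_le_integral_norm _
    _ ≤ ∫ ω, (ε / 4 + 2 *
          ({ω | ε / 4 ≤ |X n ω - Y n ω|} : Set Ω).indicator (fun _ => (1:ℝ)) ω) ∂μ :=
        integral_mono ((int_e (hX n)).sub (int_e (hY n))).norm hint h3
    _ = ε / 4 + 2 * μ.real {ω | ε / 4 ≤ |X n ω - Y n ω|} := by
        rw [integral_add (integrable_const _) (((integrable_const _).indicator hms).const_mul _),
          integral_const, integral_const_mul, integral_indicator_const _ hms]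
        simp
    _ < ε := by linarith

/-- the covariance form -/
noncomputable def Q (I : Finset ℝ≥0) (a : ℝ≥0 → ℝ) : ℝ :=
  ∑ s ∈ I, ∑ t ∈ I, a s * a t * ((min s t : ℝ≥0) : ℝ)

/-- the exponent of the characteristic function -/
noncomputable def S (I : Finset ℝ≥0) (a : ℝ≥0 → ℝ) (X : ℝ≥0 → Ω → ℝ) (ω : Ω) : ℝ :=
  ∑ s ∈ I, a s * X s ω

theorem Q_insert {I : Finset ℝ≥0} {r s : ℝ≥0} (a : ℝ≥0 → ℝ) (hr : r ∈ I) (hmax : ∀ u ∈ I, u ≤ r)
    (hrs : r < s) : Q (insert s I) a =
      Q I (fun u => a u + if u = r then a s else 0) + a s ^ 2 * (s - r) := by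
  have hs : s ∉ I := fun h => absurd (hmax s h) (not_le.2 hrs)
  unfold Q
  rw [sum_insert hs]
  have h1 : ∀ u ∈ I, ∑ t ∈ insert s I, a u * a t * ((min u t : ℝ≥0) : ℝ) =
      a u * a s * u + ∑ t ∈ I, a u * a t * ((min u t : ℝ≥0) : ℝ) := by
    intro u hu
    rw [sum_insert hs, min_eq_left ((hmax u hu).trans hrs.le)]
  have h2 : ∑ t ∈ insert s I, a s * a t * ((min s t : ℝ≥0) : ℝ) =
      a s * a s * s + ∑ t ∈ I, a s * a t * t := by
    rw [sum_insert hs, min_self]
    congr 1
    refine sum_congr rfl fun t ht => ?_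
    rw [min_eq_right ((hmax t ht).trans hrs.le)]
  rw [h2, sum_congr rfl h1, sum_add_distrib]
  have h3 : ∀ u ∈ I, ∑ t ∈ I, (a u + if u = r then a s else 0) *
      (a t + if t = r then a s else 0) * ((min u t : ℝ≥0) : ℝ) =
      ∑ t ∈ I, a u * a t * ((min u t : ℝ≥0) : ℝ) + a u * a s * u +
        (if u = r then a s * (∑ t ∈ I, a t * t) + a s * a s * r else 0) := by
    intro u hu
    have e1 : ∀ t ∈ I, (a u + if u = r then a s else 0) *
        (a t + if t = r then a s else 0) * ((min u t : ℝ≥0) : ℝ) =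
        a u * a t * ((min u t : ℝ≥0) : ℝ) + (if t = r then a u * a s * u else 0) +
          ((if u = r then a s * (a t * t) else 0) +
            (if t = r then (if u = r then a s * a s * r else 0) else 0)) := by
      intro t ht
      by_cases h1 : u = r
      · by_cases h2 : t = r
        · subst h1 h2
          simp only [if_true, min_self]
          ring
        · subst h1
          simp only [if_true, if_neg h2, add_zero]
          rw [min_eq_right (hmax t ht)]
          ring
      · by_cases h2 : t = r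
        · subst h2
          simp only [if_neg h1, if_true, add_zero]
          rw [min_eq_left (hmax u hu)]
          ring
        · simp only [if_neg h1, if_neg h2, add_zero]
    rw [sum_congr rfl e1, sum_add_distrib, sum_add_distrib, sum_add_distrib]
    rw [sum_ite_eq' I r, if_pos hr, sum_ite_eq' I r, if_pos hr]
    by_cases h1 : u = r
    · simp only [if_pos h1]
      rw [← mul_sum]
    · simp only [if_neg h1, sum_const_zero, add_zero]
  rw [sum_congr rfl h3, sum_add_distrib, sum_add_distrib, sum_ite_eq' I r, if_pos hr]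
  have h4 : ∑ t ∈ I, a s * a t * (t : ℝ) = a s * ∑ t ∈ I, a t * t := by
    rw [mul_sum]
    refine sum_congr rfl fun t _ => ?_
    ring
  have h5 : ∑ u ∈ I, a u * a s * (u : ℝ) = a s * ∑ t ∈ I, a t * t := by
    rw [mul_sum]
    refine sum_congr rfl fun t _ => ?_
    ring
  rw [h4, h5]
  ring

theorem S_insert {I : Finset ℝ≥0} {r s : ℝ≥0} (a : ℝ≥0 → ℝ) (hr : r ∈ I) (hs : s ∉ I)
    (X : ℝ≥0 → Ω → ℝ) (ω : Ω) : S (insert s I) a X ω =
      S I (fun u => a u + if u = r then a s else 0) X ω + a s * (X s ω - X r ω) := by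
  unfold S
  rw [sum_insert hs]
  have : ∑ u ∈ I, (a u + if u = r then a s else 0) * X u ω =
      ∑ u ∈ I, a u * X u ω + a s * X r ω := by
    have e1 : ∀ u ∈ I, (a u + if u = r then a s else 0) * X u ω =
        a u * X u ω + (if u = r then a s * X r ω else 0) := by
      intro u _
      by_cases h : u = r
      · subst h
        simp only [if_true]
        ring
      · simp only [if_neg h]
        ring
    rw [sum_congr rfl e1, sum_add_distrib, sum_ite_eq' I r, if_pos hr]
  rw [this]
  ring

theorem meas_S {I : Finset ℝ≥0} {a : ℝ≥0 → ℝ} {X : ℝ≥0 → Ω → ℝ} (hX : ∀ s, Measurable (X s)) :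
    Measurable (S I a X) := by
  unfold S
  exact Finset.measurable_sum _ fun s _ => (hX s).const_mul _

/-- the characteristic functions converge -/
theorem char_lim [IsProbabilityMeasure μ] {X : ℕ → ℝ≥0 → Ω → ℝ}
    (hX : ∀ n s, Measurable (X n s))
    (h1 : ∀ (s : ℝ≥0) (θ : ℝ), Tendsto (fun n => ∫ ω, e (θ * X n s ω) ∂μ) atTop
      (𝓝 ((Real.exp (-(θ ^ 2 * s) / 2) : ℝ) : ℂ)))
    (h2 : ∀ r s : ℝ≥0, r < s → ∃ Y : ℕ → Ω → ℝ, (∀ n, Measurable (Y n)) ∧
      Small μ (fun n ω => X n s ω - X n r ω - Y n ω) ∧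
      ∀ᶠ n : ℕ in atTop, ∀ (J : Finset ℝ≥0), (∀ u ∈ J, u ≤ r) → ∀ (a : ℝ≥0 → ℝ) (θ : ℝ),
        ∫ ω, e (S J a (X n) ω) * e (θ * Y n ω) ∂μ =
          (∫ ω, e (S J a (X n) ω) ∂μ) * ∫ ω, e (θ * Y n ω) ∂μ)
    (I : Finset ℝ≥0) : ∀ a : ℝ≥0 → ℝ, Tendsto (fun n => ∫ ω, e (S I a (X n) ω) ∂μ) atTop
      (𝓝 ((Real.exp (-(Q I a) / 2) : ℝ) : ℂ)) := by
  induction I using Finset.induction_on_max with
  | empty =>
    intro a
    simp [S, Q, e]
  | insert s I hI ih =>
    intro a
    have hs : s ∉ I := fun h => absurd (hI s h) (lt_irrefl s)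
    rcases I.eq_empty_or_nonempty with hE | hne
    · subst hE
      have h3 := h1 s (a s)
      have e1 : Q (insert s ∅) a = a s ^ 2 * s := by
        unfold Q
        simp [sq]
      rw [e1]
      refine h3.congr fun n => ?_
      refine integral_congr_ae (Eventually.of_forall fun ω => ?_)
      simp [S]
    · obtain ⟨r, hrd⟩ : ∃ r, r = I.max' hne := ⟨_, rfl⟩
      have hr : r ∈ I := by rw [hrd]; exact I.max'_mem hne
      have hmax : ∀ u ∈ I, u ≤ r := fun u hu => by rw [hrd]; exact I.le_max' u hu
      have hrs : r < s := hI r hr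
      obtain ⟨Y, hY, hsm, hfac⟩ := h2 r s hrs
      -- the increment
      have hYlim : ∀ θ : ℝ, Tendsto (fun n => ∫ ω, e (θ * Y n ω) ∂μ) atTop
          (𝓝 ((Real.exp (-(θ ^ 2 * (s - r)) / 2) : ℝ) : ℂ)) := by
        intro θ
        have k1 := h1 s θ
        have k2 := h1 r θ
        have hd : Small μ (fun n ω => θ * X n s ω - (θ * X n r ω + θ * Y n ω)) := by
          intro ε hε
          by_cases hθ : θ = 0
          · have : ∀ n, {ω | ε ≤ |θ * X n s ω - (θ * X n r ω + θ * Y n ω)|} = ∅ := by
              intro n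
              ext ω
              simp only [hθ, Set.mem_ofPred_eq, Set.mem_empty_iff_false, iff_false, not_le]
              simpa using hε
            simp only [this, measureReal_empty]
            exact tendsto_const_nhds
          · refine (hsm (ε / |θ|) (by positivity)).congr fun n => ?_
            congr 1
            ext ω
            simp only [Set.mem_ofPred_eq]
            rw [show θ * X n s ω - (θ * X n r ω + θ * Y n ω) =
              θ * (X n s ω - X n r ω - Y n ω) by ring, abs_mul, div_le_iff₀ (by positivity),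
              mul_comm]
        have k3 := int_close (fun n => (hX n s).const_mul θ)
          (fun n => ((hX n r).const_mul θ).add ((hY n).const_mul θ)) hd
        have k4 : Tendsto (fun n => ∫ ω, e (θ * X n r ω + θ * Y n ω) ∂μ) atTop
            (𝓝 ((Real.exp (-(θ ^ 2 * s) / 2) : ℝ) : ℂ)) := by
          have := k1.sub k3
          rw [sub_zero] at this
          exact this.congr fun n => sub_sub_cancel _ _
        have k5 : ∀ᶠ n : ℕ in atTop, ∫ ω, e (θ * X n r ω + θ * Y n ω) ∂μ =
            (∫ ω, e (θ * X n r ω) ∂μ) * ∫ ω, e (θ * Y n ω) ∂μ := by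
          filter_upwards [hfac] with n hn
          have := hn {r} (by simp) (fun _ => θ) θ
          have e2 : ∀ ω, S {r} (fun _ => θ) (X n) ω = θ * X n r ω := by
            intro ω
            simp [S]
          simp only [e2] at this
          rw [← this]
          refine integral_congr_ae (Eventually.of_forall fun ω => ?_)
          exact e_add _ _
        have hne0 : ((Real.exp (-(θ ^ 2 * r) / 2) : ℝ) : ℂ) ≠ 0 := by
          exact_mod_cast (Real.exp_pos _).ne'
        have k6 := k4.div k2 hne0
        have e3 : ((Real.exp (-(θ ^ 2 * s) / 2) : ℝ) : ℂ) / ((Real.exp (-(θ ^ 2 * r) / 2) : ℝ) : ℂ) =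
            ((Real.exp (-(θ ^ 2 * (s - r)) / 2) : ℝ) : ℂ) := by
          rw [← Complex.ofReal_div, ← Real.exp_sub]
          congr 2
          ring
        rw [e3] at k6
        refine k6.congr' ?_
        filter_upwards [k5, k2.eventually_ne hne0] with n hn hn0
        show (∫ ω, e (θ * X n r ω + θ * Y n ω) ∂μ) / (∫ ω, e (θ * X n r ω) ∂μ) = _
        rw [hn, mul_div_cancel_left₀ _ hn0]
      -- the joint law
      obtain ⟨a', ha'⟩ : ∃ a' : ℝ≥0 → ℝ, a' = fun u => a u + if u = r then a s else 0 := ⟨_, rfl⟩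
      have hd : Small μ (fun n ω => S (insert s I) a (X n) ω -
          (S I a' (X n) ω + a s * Y n ω)) := by
        intro ε hε
        by_cases hθ : a s = 0
        · have : ∀ n, {ω | ε ≤ |S (insert s I) a (X n) ω - (S I a' (X n) ω + a s * Y n ω)|} = ∅ := by
            intro n
            ext ω
            simp only [Set.mem_ofPred_eq, Set.mem_empty_iff_false, iff_false, not_le]
            rw [S_insert a hr hs, ← ha', hθ]
            simpa using hε
          simp only [this, measureReal_empty]
          exact tendsto_const_nhds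
        · refine (hsm (ε / |a s|) (by positivity)).congr fun n => ?_
          congr 1
          ext ω
          simp only [Set.mem_ofPred_eq]
          rw [S_insert a hr hs, ← ha', show S I a' (X n) ω + a s * (X n s ω - X n r ω) -
            (S I a' (X n) ω + a s * Y n ω) = a s * (X n s ω - X n r ω - Y n ω) by ring, abs_mul,
            div_le_iff₀ (by positivity), mul_comm]
      have k3 := int_close (fun n => meas_S (I := insert s I) (a := a) (hX n))
        (fun n => (meas_S (I := I) (a := a') (hX n)).add ((hY n).const_mul (a s))) hd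
      have k4 : Tendsto (fun n => ∫ ω, e (S I a' (X n) ω + a s * Y n ω) ∂μ) atTop
          (𝓝 (((Real.exp (-(Q I a') / 2) : ℝ) : ℂ) *
            ((Real.exp (-(a s ^ 2 * (s - r)) / 2) : ℝ) : ℂ))) := by
        refine ((ih a').mul (hYlim (a s))).congr' ?_
        filter_upwards [hfac] with n hn
        rw [← hn I hmax a' (a s)]
        refine integral_congr_ae (Eventually.of_forall fun ω => ?_)
        exact (e_add _ _).symm
      have e4 : ((Real.exp (-(Q (insert s I) a) / 2) : ℝ) : ℂ) =
          0 + ((Real.exp (-(Q I a') / 2) : ℝ) : ℂ) *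
            ((Real.exp (-(a s ^ 2 * (s - r)) / 2) : ℝ) : ℂ) := by
        rw [zero_add, ← Complex.ofReal_mul, ← Real.exp_add, Q_insert a hr hmax hrs, ← ha']
        congr 2
        ring
      rw [e4]
      exact (k3.add k4).congr fun n => sub_add_cancel _ _

end Pool.Agent.U154.NI.Fdd
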