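import Pool.Agent.U154.NI.Lo

/-!
The law of the iterated logarithm for the number of layers up to the distance `n`.
-/

set_option autoImplicit false

namespace Pool.Agent.U154.NI

open H974 Finset Real Filter Topology MeasureTheory Pool.Agent.W819.EN
  Pool.Agent.H863R2.NL.PowAux Pool.Agent.H450R4.NL
open Pool.Agent.H863R2.NL (cN vN changes changes_FF changes_mono)
open Pool.Agent.N956.PL (crit op op_inter bc1 bc2)

theorem meas_toE : Measurable (fun (ω : sqLattice.edgeSet → Bool) (e : Edg) => ω (toE e)) :=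
  measurable_pi_lambda _ fun e => measurable_pi_apply (toE e)

theorem map_toE : (bondLaw hlf).map
    (fun (ω : sqLattice.edgeSet → Bool) (e : Edg) => ω (toE e)) = crit := by
  classical
  unfold crit
  refine Measure.eq_infinitePi _ fun s t ht => ?_
  rw [Measure.map_apply meas_toE (MeasurableSet.pi s.countable_toSet fun i _ => ht i)]
  obtain ⟨t', ht'⟩ : ∃ t' : sqLattice.edgeSet → Set Bool, ∀ e, t' (toE e) = t e := by
    refine ⟨fun g => if h : ∃ e, toE e = g then t h.choose else Set.univ, fun e => ?_⟩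
    have h : ∃ e', toE e' = toE e := ⟨e, rfl⟩
    show (if h : ∃ e', toE e' = toE e then t h.choose else Set.univ) = t e
    rw [dif_pos h]
    congr 1
    exact toE_inj h.choose_spec
  have e1 : (fun (ω : sqLattice.edgeSet → Bool) (e : Edg) => ω (toE e)) ⁻¹' (Set.pi (↑s) t) =
      Set.pi (↑(s.image toE)) t' := by
    ext ω
    simp only [Set.mem_preimage, Set.mem_pi, Finset.mem_coe, Finset.mem_image,
      forall_exists_index, and_imp, forall_apply_eq_imp_iff₂, ht']
  rw [e1]
  unfold bondLaw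
  rw [Measure.infinitePi_pi _ (fun _ _ => MeasurableSet.of_discrete),
    Finset.prod_image toE_inj.injOn]
  refine Finset.prod_congr rfl fun e _ => ?_
  rw [ht']
  rfl

theorem ae_toE {P : (Edg → Bool) → Prop} (h : ∀ᵐ ω ∂crit, P ω) :
    ∀ᵐ ω ∂(bondLaw hlf), P (fun e => ω (toE e)) := by
  rw [← map_toE] at h
  exact ae_of_ae_map meas_toE.aemeasurable h

theorem Tw_changes (ω : sqLattice.edgeSet → Bool) (k : ℕ) :
    Tw (fun e => ω (toE e)) k = changes (2 ^ k) ω := by
  rw [changes_FF, ← NS_zero, ← NA_eq]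
  rfl

/-- deviations at all distances -/
theorem all_n {ε : ℝ} (h0 : 0 < ε) (h1 : ε ≤ 1) {ω : sqLattice.edgeSet → Bool}
    (h : ∀ᶠ k : ℕ in atTop, (changes (2 ^ k) ω : ℝ) ≤ cN * tK k + (1 + ε) * nrm vN (tK k) ∧
      cN * tK k - (1 + ε) * nrm vN (tK k) ≤ changes (2 ^ k) ω) :
    ∀ᶠ n : ℕ in atTop, (changes n ω : ℝ) - cN * log n ≤ (1 + 16 * ε) * nrm vN (log n) ∧
      -((1 + 16 * ε) * nrm vN (log n)) ≤ (changes n ω : ℝ) - cN * log n := by
  have hcN := cN_pos
  have hvN := vN_pos
  have hlog : Tendsto (fun n : ℕ => log (n : ℝ)) atTop atTop :=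
    tendsto_log_atTop.comp tendsto_natCast_atTop_atTop
  have hk : Tendsto (fun n : ℕ => Nat.log 2 n) atTop atTop :=
    tendsto_atTop_atTop.2 fun b => ⟨2 ^ b, fun a ha => Nat.le_log_of_pow_le (by norm_num) ha⟩
  filter_upwards [hk.eventually h, ((tendsto_add_atTop_nat 1).comp hk).eventually h,
    hlog.eventually (nrm_scale hvN (a := (1 + ε) ^ 2) (by nlinarith) h0),
    hlog.eventually_ge_atTop (1 / ε), eventually_ge_atTop 1,
    ((tendsto_log_atTop.comp tend_tK).comp hk).eventually_gt_atTop 1,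
    (tend_tK.comp hk).eventually_gt_atTop 0,
    hlog.eventually (nrm_ge hvN 0 (cN / ε))] with n k1 k2 k3 k4 k5 k6 k7 k8
  simp only [Function.comp] at k1 k2 k3 k4 k6 k7
  obtain ⟨k, hkd⟩ : ∃ k, k = Nat.log 2 n := ⟨_, rfl⟩
  rw [← hkd] at k1 k2 k6 k7
  have e1 : 2 ^ k ≤ n := by rw [hkd]; exact Nat.pow_log_le_self 2 (by omega)
  have e2 : n ≤ 2 ^ (k + 1) := by rw [hkd]; exact (Nat.lt_pow_succ_log_self (by norm_num) n).le
  have l1 : tK k ≤ log n := by
    rw [← tK_eq]
    apply log_le_log (by positivity)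
    exact_mod_cast e1
  have l2 : tK (k + 1) ≤ log n + log 2 := by
    have : tK (k + 1) = tK k + log 2 := by
      unfold tK
      push_cast
      ring
    linarith
  have l2' : log n ≤ tK (k + 1) := by
    rw [← tK_eq]
    apply log_le_log (by exact_mod_cast k5)
    exact_mod_cast e2
  have hl2 : log 2 ≤ 1 := by
    have := log_le_sub_one_of_pos (show (0:ℝ) < 2 by norm_num)
    linarith
  have hlp := log2_pos
  have m1 : (changes n ω : ℝ) ≤ changes (2 ^ (k + 1)) ω := by exact_mod_cast changes_mono e2 ω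
  have m2 : (changes (2 ^ k) ω : ℝ) ≤ changes n ω := by exact_mod_cast changes_mono e1 ω
  have n1 : nrm vN (tK k) ≤ nrm vN (log n) := nrm_mono hvN.le k6 l1 k7
  have n2 : nrm vN (tK (k + 1)) ≤ (1 + ε) * (1 + ε) * nrm vN (log n) := by
    rw [sqrt_sq (by linarith)] at k3
    refine le_trans ?_ k3
    apply nrm_mono hvN.le
    · exact lt_of_lt_of_le k6 (log_le_log k7 (l1.trans l2'))
    · refine l2.trans ?_
      rw [div_le_iff₀ h0] at k4
      have : 0 ≤ log (n:ℝ) := by linarith
      nlinarith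
    · linarith
  have N0 := nrm_nonneg vN (log (n:ℝ))
  have c1 : cN ≤ ε * nrm vN (log n) := by
    have := mul_le_mul_of_nonneg_left k8 h0.le
    have e : ε * (0 * log (log (log (n:ℝ))) + cN / ε) = cN := by
      rw [zero_mul, zero_add]
      field_simp
    rw [e] at this
    exact this
  constructor
  · have a1 := mul_le_mul_of_nonneg_left n2 (show 0 ≤ 1 + ε by linarith)
    have a2 : cN * tK (k + 1) ≤ cN * log n + cN := by
      have := mul_le_mul_of_nonneg_left l2 hcN.le
      nlinarith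
    have a3 : (1 + ε) * ((1 + ε) * (1 + ε)) + ε ≤ 1 + 16 * ε := by
      nlinarith [mul_pos h0 h0, mul_nonneg h0.le (show 0 ≤ 1 - ε by linarith),
        mul_nonneg (mul_pos h0 h0).le (show 0 ≤ 1 - ε by linarith)]
    have a4 := mul_le_mul_of_nonneg_right a3 N0
    linarith [k2.1]
  · have a1 := mul_le_mul_of_nonneg_left n1 (show 0 ≤ 1 + ε by linarith)
    have a2 : cN * log n - cN ≤ cN * tK k := by
      have l3 : log n - log 2 ≤ tK k := by
        have : tK (k + 1) = tK k + log 2 := by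
          unfold tK
          push_cast
          ring
        linarith
      have := mul_le_mul_of_nonneg_left l3 hcN.le
      nlinarith
    have a4 : (1 + ε + ε) * nrm vN (log n) ≤ (1 + 16 * ε) * nrm vN (log n) :=
      mul_le_mul_of_nonneg_right (by linarith) N0
    linarith [k1.2]

/-- upper and lower limits from bounds up to `ε` -/
theorem lims {f : ℕ → ℝ} (h1 : ∀ m : ℕ, ∀ᶠ n in atTop, f n ≤ 1 + 1 / (m + 1) ∧
      -(1 + 1 / (m + 1)) ≤ f n)
    (h2 : ∀ m : ℕ, (∃ᶠ n in atTop, 1 - 1 / (m + 1) ≤ f n) ∧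
      (∃ᶠ n in atTop, f n ≤ -(1 - 1 / (m + 1)))) :
    limsup f atTop = 1 ∧ liminf f atTop = -1 := by
  have hex : ∀ x : ℝ, 0 < x → ∃ m : ℕ, 1 / ((m:ℝ) + 1) < x := fun x hx => exists_nat_one_div_lt hx
  have hb1 : IsBoundedUnder (· ≤ ·) atTop f := ⟨2, by
    rw [eventually_map]
    filter_upwards [h1 0] with n hn
    have := hn.1
    norm_num at this
    exact this⟩
  have hb2 : IsBoundedUnder (· ≥ ·) atTop f := ⟨-2, by
    rw [eventually_map]
    filter_upwards [h1 0] with n hn
    have := hn.2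
    norm_num at this
    exact this⟩
  constructor
  · apply le_antisymm
    · refine le_of_forall_pos_le_add fun x hx => ?_
      obtain ⟨m, hm⟩ := hex x hx
      refine limsup_le_of_le hb2.isCoboundedUnder_le ?_
      filter_upwards [h1 m] with n hn
      linarith [hn.1]
    · refine le_of_forall_pos_le_add fun x hx => ?_
      obtain ⟨m, hm⟩ := hex x hx
      have := le_limsup_of_frequently_le (h2 m).1 hb1
      linarith
  · apply le_antisymm
    · refine le_of_forall_pos_le_add fun x hx => ?_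
      obtain ⟨m, hm⟩ := hex x hx
      have := liminf_le_of_frequently_le (h2 m).2 hb2
      linarith
    · refine le_of_forall_pos_le_add fun x hx => ?_
      obtain ⟨m, hm⟩ := hex x hx
      have : -(1 + x) ≤ liminf f atTop := by
        refine le_liminf_of_le hb1.isCoboundedUnder_ge ?_
        filter_upwards [h1 m] with n hn
        linarith [hn.2]
      linarith

/-- The law of the iterated logarithm for the number of layers. -/
theorem lil : ∀ᵐ ω ∂(bondLaw hlf),
    limsup (fun n : ℕ => ((changes n ω : ℝ) - cN * log n) / nrm vN (log n)) atTop = 1 ∧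
    liminf (fun n : ℕ => ((changes n ω : ℝ) - cN * log n) / nrm vN (log n)) atTop = -1 := by
  have hvN := vN_pos
  have A1 : ∀ᵐ ω ∂(bondLaw hlf), ∀ m : ℕ, ∀ᶠ k : ℕ in atTop,
      (Tw (fun e => ω (toE e)) k : ℝ) ≤ cN * tK k + (1 + 1 / (16 * ((m:ℝ) + 1))) * nrm vN (tK k) ∧
      cN * tK k - (1 + 1 / (16 * ((m:ℝ) + 1))) * nrm vN (tK k) ≤ Tw (fun e => ω (toE e)) k := by
    rw [ae_all_iff]
    intro m
    refine ae_toE (lil_le (by positivity) ?_)
    rw [div_le_one (by positivity)]
    have : (0:ℝ) ≤ m := Nat.cast_nonneg m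
    linarith
  have A2 : ∀ᵐ ω ∂(bondLaw hlf), ∀ m : ℕ,
      (∃ᶠ k : ℕ in atTop, cN * tK k + (1 - 2 * (1 / (2 * ((m:ℝ) + 1)))) * nrm vN (tK k) ≤
        Tw (fun e => ω (toE e)) k) ∧
      (∃ᶠ k : ℕ in atTop, (Tw (fun e => ω (toE e)) k : ℝ) ≤
        cN * tK k - (1 - 2 * (1 / (2 * ((m:ℝ) + 1)))) * nrm vN (tK k)) := by
    rw [ae_all_iff]
    intro m
    refine ae_toE (lil_sep (by positivity) ?_)
    rw [div_le_one (by positivity)]
    have : (0:ℝ) ≤ m := Nat.cast_nonneg m
    linarith
  filter_upwards [A1, A2] with ω h1 h2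
  simp only [Tw_changes] at h1 h2
  have hlog : Tendsto (fun n : ℕ => log (n : ℝ)) atTop atTop :=
    tendsto_log_atTop.comp tendsto_natCast_atTop_atTop
  have hpos : ∀ᶠ n : ℕ in atTop, 0 < nrm vN (log n) := by
    filter_upwards [hlog.eventually (nrm_ge hvN 0 1)] with n hn
    linarith
  have hpow : Tendsto (fun k : ℕ => 2 ^ k) atTop (atTop : Filter ℕ) :=
    tendsto_pow_atTop_atTop_of_one_lt (by norm_num)
  refine lims (fun m => ?_) (fun m => ?_)
  · have hm : (0:ℝ) < (m:ℝ) + 1 := by positivity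
    have h3 := all_n (ε := 1 / (16 * ((m:ℝ) + 1))) (by positivity) (by
      rw [div_le_one (by positivity)]
      have : (0:ℝ) ≤ m := Nat.cast_nonneg m
      linarith) (h1 m)
    have e : 16 * (1 / (16 * ((m:ℝ) + 1))) = 1 / ((m:ℝ) + 1) := by field_simp
    rw [e] at h3
    filter_upwards [h3, hpos] with n k1 k2
    rw [div_le_iff₀ k2, le_div_iff₀ k2]
    exact ⟨k1.1, by linarith [k1.2]⟩
  · have e : 2 * (1 / (2 * ((m:ℝ) + 1))) = 1 / ((m:ℝ) + 1) := by field_simp
    obtain ⟨h3, h4⟩ := h2 m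
    rw [e] at h3 h4
    have hp2 := hpow.eventually hpos
    constructor
    · refine hpow.frequently ((h3.and_eventually hp2).mono ?_)
      rintro k ⟨k1, k2⟩
      rw [tK_eq] at k2
      rw [tK_eq, le_div_iff₀ k2]
      linarith
    · refine hpow.frequently ((h4.and_eventually hp2).mono ?_)
      rintro k ⟨k1, k2⟩
      rw [tK_eq] at k2
      rw [tK_eq, div_le_iff₀ k2]
      linarith

end Pool.Agent.U154.NI
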