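import Pool.Agent.U154.NI.One

/-!
The increments of the number of layers between the distances `n ^ r` and `n ^ s`; convergence of the
finite-dimensional distributions.
-/

set_option autoImplicit false

namespace Pool.Agent.U154.NI

open H974 Finset Real Filter Topology MeasureTheory ProbabilityTheory Pool.Agent.W819.EN
  Pool.Agent.H863R2.NL.PowAux Pool.Agent.H450R4.NL
open Pool.Agent.H863R2.NL (cN vN ET)
open Pool.Agent.N956.PL (crit op op_inter bc1 bc2 crit_op meas_op)
open scoped NNReal ENNReal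

/-- the distance `n ^ s` -/
noncomputable def ms (n : ℕ) (s : ℝ≥0) : ℕ := ⌊(n : ℝ) ^ (s : ℝ)⌋₊

/-- the rescaled process -/
noncomputable def Xn (n : ℕ) (s : ℝ≥0) (ω : Edg → Bool) : ℝ :=
  ((Lw ω (ms n s) : ℝ) - s * (cN * log n)) / √(vN * log n)

theorem meas_Xn (n : ℕ) (s : ℝ≥0) : Measurable (Xn n s) :=
  ((meas_Lw' _).sub_const _).div_const _

theorem ms_one {n : ℕ} (hn : 1 ≤ n) (s : ℝ≥0) : 1 ≤ ms n s := by
  unfold ms
  rw [Nat.one_le_floor_iff]
  exact one_le_rpow (by exact_mod_cast hn) s.2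

theorem ms_le {n : ℕ} (s : ℝ≥0) : (ms n s : ℝ) ≤ (n : ℝ) ^ (s : ℝ) :=
  Nat.floor_le (by positivity)

theorem ms_ge {n : ℕ} (hn : 1 ≤ n) (s : ℝ≥0) : (n : ℝ) ^ (s : ℝ) ≤ 2 * ms n s := by
  have h1 := (Nat.lt_floor_add_one ((n : ℝ) ^ (s : ℝ))).le
  have h2 : (1:ℝ) ≤ ms n s := by exact_mod_cast ms_one hn s
  unfold ms at *
  linarith

theorem log_ms {n : ℕ} (hn : 1 ≤ n) (s : ℝ≥0) :
    log (ms n s) ≤ s * log n ∧ s * log n ≤ log (ms n s) + log 2 := by
  have hn' : (0:ℝ) < n := by exact_mod_cast hn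
  have hm : (0:ℝ) < ms n s := by exact_mod_cast ms_one hn s
  rw [← log_rpow hn']
  constructor
  · exact log_le_log hm (ms_le s)
  · rw [← log_mul hm.ne' (by norm_num), mul_comm]
    exact log_le_log (rpow_pos_of_pos hn' _) (ms_ge hn s)

theorem ms_mono {n : ℕ} (hn : 1 ≤ n) {r s : ℝ≥0} (h : r ≤ s) : ms n r ≤ ms n s := by
  unfold ms
  apply Nat.floor_le_floor
  exact rpow_le_rpow_of_exponent_le (by exact_mod_cast hn) h

theorem tend_log : Tendsto (fun n : ℕ => log (n : ℝ)) atTop atTop :=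
  tendsto_log_atTop.comp tendsto_natCast_atTop_atTop

theorem ms_tend {s : ℝ≥0} (hs : 0 < s) : Tendsto (fun n => ms n s) atTop atTop :=
  tendsto_nat_floor_atTop.comp ((tendsto_rpow_atTop (by exact_mod_cast hs)).comp
    tendsto_natCast_atTop_atTop)

theorem log_ratio (s : ℝ≥0) :
    Tendsto (fun n : ℕ => log (ms n s) / log n) atTop (𝓝 s) := by
  have h1 : Tendsto (fun n : ℕ => (s : ℝ) - log 2 / log n) atTop (𝓝 (s - 0)) :=
    tendsto_const_nhds.sub (tendsto_const_nhds.div_atTop tend_log)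
  rw [sub_zero] at h1
  refine tendsto_of_tendsto_of_tendsto_of_le_of_le' h1 tendsto_const_nhds ?_ ?_
  · filter_upwards [eventually_ge_atTop 1, tend_log.eventually_gt_atTop 0] with n hn h0
    rw [le_div_iff₀ h0, sub_mul, div_mul_cancel₀ _ h0.ne']
    linarith [(log_ms hn s).2]
  · filter_upwards [eventually_ge_atTop 1, tend_log.eventually_gt_atTop 0] with n hn h0
    rw [div_le_iff₀ h0]
    exact (log_ms hn s).1

/-- the one-dimensional limits, positive times -/
theorem one_pos' {s : ℝ≥0} (hs : 0 < s) (θ : ℝ) :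
    Tendsto (fun n => ∫ ω, Fdd.e (θ * Xn n s ω) ∂crit) atTop
      (𝓝 ((exp (-(θ ^ 2 * s) / 2) : ℝ) : ℂ)) := by
  have hvN := vN_pos
  have hcN := cN_pos
  obtain ⟨α, hα⟩ : ∃ α : ℕ → ℝ, α = fun n => √(log (ms n s)) / √(vN * log n) := ⟨_, rfl⟩
  obtain ⟨β, hβ⟩ : ∃ β : ℕ → ℝ,
    β = fun n => cN * (log (ms n s) - s * log n) / √(vN * log n) := ⟨_, rfl⟩
  have hαl : Tendsto α atTop (𝓝 √(s / vN)) := by
    have h1 : Tendsto (fun n : ℕ => √(log (ms n s) / log n / vN)) atTop (𝓝 √(s / vN)) :=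
      ((log_ratio s).div_const vN).sqrt
    refine h1.congr' ?_
    filter_upwards [tend_log.eventually_gt_atTop 0] with n hn
    rw [hα]
    show √(log (ms n s) / log n / vN) = √(log (ms n s)) / √(vN * log n)
    rw [div_div, mul_comm (log (n:ℝ)) vN, sqrt_div' _ (by positivity)]
  have hβl : Tendsto β atTop (𝓝 0) := by
    have hs2 : Tendsto (fun n : ℕ => √(vN * log n)) atTop atTop :=
      tendsto_sqrt_atTop.comp (tend_log.const_mul_atTop hvN)
    have h1 : Tendsto (fun n : ℕ => cN * log 2 / √(vN * log n)) atTop (𝓝 0) :=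
      tendsto_const_nhds.div_atTop hs2
    rw [tendsto_zero_iff_abs_tendsto_zero]
    refine squeeze_zero' (Eventually.of_forall fun n => abs_nonneg _) ?_ h1
    filter_upwards [eventually_ge_atTop 1, hs2.eventually_gt_atTop 0] with n hn h0
    show |β n| ≤ _
    rw [hβ]
    simp only
    rw [abs_div, abs_of_pos h0, abs_mul, abs_of_pos hcN]
    apply div_le_div_of_nonneg_right _ h0.le
    apply mul_le_mul_of_nonneg_left _ hcN.le
    rw [abs_le]
    have := log_ms hn s
    constructor <;> linarith [log2_pos]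
  have hZ : TendstoInDistribution (fun n => Zm (ms n s)) atTop (fun x : ℝ => x)
      (fun _ => crit) gv :=
    ⟨fun n => (meas_Zm _).aemeasurable, aemeasurable_id, clt_Zm.tendsto.comp (ms_tend hs)⟩
  have hY : TendstoInMeasure crit (fun n (_ : Edg → Bool) => (α n, β n)) atTop
      (fun _ => (√(s / vN), (0:ℝ))) := by
    refine tendstoInMeasure_of_tendsto_ae (fun n => aestronglyMeasurable_const) ?_
    exact Eventually.of_forall fun ω => hαl.prodMk_nhds hβl
  have hX := hZ.continuous_comp_prodMk_of_tendstoInMeasure_const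
    (g := fun p : ℝ × ℝ × ℝ => p.2.1 * p.1 + p.2.2) (by fun_prop) hY
    (fun n => aemeasurable_const)
  have hc := ProbabilityMeasure.tendsto_iff_tendsto_charFun.1 hX.tendsto θ
  have e1 : charFun (gv.map (fun x : ℝ => √(s / vN) * x + 0)) θ =
      ((exp (-(θ ^ 2 * s) / 2) : ℝ) : ℂ) := by
    have e2 : (fun x : ℝ => √(s / vN) * x + 0) = fun x => √(s / vN) * x := by
      funext x
      ring
    rw [e2]
    unfold gv
    rw [gaussianReal_map_const_mul, charFun_gaussianReal]
    have e3 : ((√(s / vN)) ^ 2 : ℝ) * vN = s := by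
      rw [sq_sqrt (by positivity)]
      field_simp
    rw [Complex.ofReal_exp]
    congr 1
    push_cast
    rw [Real.coe_toNNReal _ hvN.le]
    have e4 : ((√(s / vN) : ℝ) : ℂ) ^ 2 * (vN : ℂ) = ((s : ℝ) : ℂ) := by exact_mod_cast e3
    rw [e4]
    simp
    ring
  have hc' : Tendsto (fun n => charFun (crit.map (fun ω => α n * Zm (ms n s) ω + β n)) θ) atTop
      (𝓝 ((exp (-(θ ^ 2 * s) / 2) : ℝ) : ℂ)) := by
    rw [← e1]
    exact hc
  refine hc'.congr' ?_
  filter_upwards [(ms_tend hs).eventually_ge_atTop 2] with n hn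
  have hm : Measurable (fun ω => α n * Zm (ms n s) ω + β n) :=
    ((meas_Zm _).const_mul _).add_const _
  rw [charFun_apply_real, integral_map hm.aemeasurable (by fun_prop)]
  refine integral_congr_ae (Eventually.of_forall fun ω => ?_)
  show _ = Fdd.e (θ * Xn n s ω)
  unfold Fdd.e
  congr 2
  have hl : 0 < log (ms n s : ℝ) := log_pos (by exact_mod_cast hn)
  have hsl := sqrt_pos.2 hl
  have e5 : Xn n s ω = α n * Zm (ms n s) ω + β n := by
    rw [hα, hβ]
    unfold Xn Zm
    simp only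
    rw [div_mul_div_comm, mul_comm √(log (ms n s : ℝ)) _, mul_div_mul_right _ _ hsl.ne',
      ← add_div]
    congr 1
    ring
  rw [e5]
  push_cast
  ring

/-- the one-dimensional limits -/
theorem one_pt (s : ℝ≥0) (θ : ℝ) : Tendsto (fun n => ∫ ω, Fdd.e (θ * Xn n s ω) ∂crit) atTop
      (𝓝 ((exp (-(θ ^ 2 * s) / 2) : ℝ) : ℂ)) := by
  rcases eq_or_lt_of_le (zero_le (a := s)) with h | h
  · subst h
    have hvN := vN_pos
    have hs2 : Tendsto (fun n : ℕ => √(vN * log n)) atTop atTop :=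
      tendsto_sqrt_atTop.comp (tend_log.const_mul_atTop hvN)
    have h1 : Fdd.Small crit (fun n ω => θ * Xn n 0 ω - 0) := by
      intro ε hε
      have h2 : ∀ᶠ n : ℕ in atTop, crit.real {ω | ε ≤ |θ * Xn n 0 ω - 0|} = 0 := by
        filter_upwards [hs2.eventually_gt_atTop (|θ| * 2 / ε), hs2.eventually_gt_atTop 0]
          with n hn h0
        have : {ω | ε ≤ |θ * Xn n 0 ω - 0|} = ∅ := by
          ext ω
          simp only [Set.mem_ofPred_eq, Set.mem_empty_iff_false, iff_false, not_le, sub_zero]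
          unfold Xn
          have e1 : ms n 0 = 1 := by
            unfold ms
            simp
          rw [e1]
          have e2 : (Lw ω 1 : ℝ) ≤ 2 := by exact_mod_cast Lw_le ω 1
          have e3 : (0:ℝ) ≤ Lw ω 1 := Nat.cast_nonneg _
          rw [NNReal.coe_zero, zero_mul, sub_zero, abs_mul, abs_div, abs_of_pos h0,
            abs_of_nonneg e3]
          rw [div_lt_iff₀ hε] at hn
          rw [← mul_div_assoc, div_lt_iff₀ h0]
          have := mul_le_mul_of_nonneg_left e2 (abs_nonneg θ)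
          linarith
        rw [this, measureReal_empty]
      exact tendsto_const_nhds.congr' (h2.mono fun n hn => hn.symm)
    have h3 := Fdd.int_close (μ := crit) (X := fun n ω => θ * Xn n 0 ω) (Y := fun _ _ => 0)
      (fun n => (meas_Xn n 0).const_mul θ) (fun n => measurable_const) h1
    have h4 : ∫ _ω : Edg → Bool, Fdd.e 0 ∂crit = 1 := by
      simp [Fdd.e]
    simp only [h4] at h3
    have h5 := h3.add_const 1
    rw [zero_add] at h5
    have e1 : ((exp (-(θ ^ 2 * ((0:ℝ≥0):ℝ)) / 2) : ℝ) : ℂ) = 1 := by simp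
    rw [e1]
    exact h5.congr fun n => sub_add_cancel _ _
  · exact one_pos' h θ

end Pool.Agent.U154.NI
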