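import Pool.Agent.U154.NI.Inc

/-!
The increments of the number of layers are asymptotically independent.
-/

set_option autoImplicit false

namespace Pool.Agent.U154.NI

open H974 Finset Real Filter Topology MeasureTheory ProbabilityTheory Pool.Agent.W819.EN
  Pool.Agent.H863R2.NL.PowAux Pool.Agent.H450R4.NL
open Pool.Agent.H863R2.NL (cN vN ET ET_mean)
open Pool.Agent.N956.PL (crit op op_inter bc1 bc2 crit_op meas_op)
open scoped NNReal ENNReal

/-- the configurations in disjoint finite sets are independent -/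
theorem indep_op {S T : Finset Edg} (h : Disjoint S T) (f g : Finset Edg → ℂ) :
    ∫ ω, f (op S ω) * g (op T ω) ∂crit =
      (∫ ω, f (op S ω) ∂crit) * ∫ ω, g (op T ω) ∂crit := by
  letI : MeasurableSpace (Finset Edg) := ⊤
  have hm : ∀ R : Finset Edg, Measurable (op R) := fun R A _ => meas_op R (fun F => F ∈ A)
  have hi : IndepFun (op S) (op T) crit := by
    rw [indepFun_iff_measure_inter_preimage_eq_mul]
    intro A B _ _
    have e1 : op S ⁻¹' A ∩ op T ⁻¹' B =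
        {ω | (fun F => (F ∩ S ∈ A) ∧ (F ∩ T ∈ B)) (op (S ∪ T) ω)} := by
      ext ω
      simp only [Set.mem_inter_iff, Set.mem_preimage, Set.mem_ofPred_eq]
      rw [op_inter subset_union_left, op_inter subset_union_right]
    have e2 : op S ⁻¹' A = {ω | (fun F => F ∩ S ∈ A) (op (S ∪ T) ω)} := by
      ext ω
      simp only [Set.mem_preimage, Set.mem_ofPred_eq]
      rw [op_inter subset_union_left]
    have e3 : op T ⁻¹' B = {ω | (fun F => F ∩ T ∈ B) (op (S ∪ T) ω)} := by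
      ext ω
      simp only [Set.mem_preimage, Set.mem_ofPred_eq]
      rw [op_inter subset_union_right]
    rw [e1, e2, e3, crit_op (S ∪ T) (fun F => (F ∩ S ∈ A) ∧ (F ∩ T ∈ B)),
      crit_op (S ∪ T) (fun F => F ∩ S ∈ A), crit_op (S ∪ T) (fun F => F ∩ T ∈ B),
      ← ENNReal.ofReal_mul (Pr_nonneg hok _ _)]
    congr 1
    exact Pr_indep subset_union_left subset_union_right h
      (A := fun F => F ∩ S ∈ A) (B := fun F => F ∩ T ∈ B)
      (fun F _ => by simp only [inter_assoc, inter_self])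
      (fun F _ => by simp only [inter_assoc, inter_self])
  exact hi.integral_fun_comp_mul_comp (hm S).aemeasurable (hm T).aemeasurable
    (measurable_from_top.aestronglyMeasurable) (measurable_from_top.aestronglyMeasurable)

/-- few layers between comparable distances -/
theorem gap_markov : ∃ D : ℝ, 0 < D ∧ ∀ (m M U : ℕ), 1 ≤ m → m ≤ M → M ≤ U → M ≤ 2 * m →
    ∀ x : ℝ, 0 < x → Pr P2 (boxE U) (fun F => x ≤ (NA F (0, 0) 0 M : ℝ) - NA F (0, 0) 0 m) ≤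
      D / x := by
  obtain ⟨C, hC⟩ := ET_mean
  have hcN := cN_pos
  have hC0 : 0 ≤ C := (abs_nonneg _).trans (hC 1 le_rfl)
  refine ⟨cN * log 2 + 2 * C, by have := log2_pos; positivity, ?_⟩
  intro m M U hm hmM hMU hM2 x hx
  have h1 : x * Pr P2 (boxE U) (fun F => x ≤ (NA F (0, 0) 0 M : ℝ) - NA F (0, 0) 0 m) ≤
      Ex P2 (boxE U) (fun F => (NA F (0, 0) 0 M : ℝ) - NA F (0, 0) 0 m) := by
    unfold Pr
    rw [← Ex_mul_left]
    refine Ex_mono hok fun F _ => ?_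
    by_cases h : x ≤ (NA F (0, 0) 0 M : ℝ) - NA F (0, 0) 0 m
    · rw [ind_of h, mul_one]
      exact h
    · rw [ind_not_of h, mul_zero, sub_nonneg]
      exact_mod_cast geo.mono F (0, 0) 0 0 m M le_rfl hmM
  rw [Ex_sub, Ex_NA hMU (fun j => (j:ℝ)), Ex_NA (hmM.trans hMU) (fun j => (j:ℝ))] at h1
  have h2 := (abs_le.1 (hC M (hm.trans hmM))).2
  have h3 := (abs_le.1 (hC m hm)).1
  have h4 : log (M:ℝ) ≤ log m + log 2 := by
    have hm' : (0:ℝ) < m := by exact_mod_cast hm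
    have hM' : (0:ℝ) < M := by exact_mod_cast (hm.trans hmM)
    rw [← log_mul hm'.ne' (by norm_num)]
    apply log_le_log hM'
    have : (M:ℝ) ≤ 2 * m := by exact_mod_cast hM2
    linarith
  have h5 := mul_le_mul_of_nonneg_left h4 hcN.le
  rw [le_div_iff₀ hx]
  linarith

theorem Pr_Lnk' : ∃ C : ℝ, 0 < C ∧ ∀ (k : ℕ) (U : Finset Edg), 1 ≤ k → Bk (k + 2) ⊆ U → ∀ κ : ℕ,
    Pr P2 U (fun F => ¬ Lnk (0, 0) (2 ^ (k - 1)) κ F) ≤ C * (1 / 2) ^ κ := by
  obtain ⟨C, hC, h⟩ := ltl (1 / 2) (by norm_num)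
  refine ⟨C, hC, fun k U hk hK κ => h (2 ^ (k - 1)) (0, 0) U Nat.one_le_two_pow ?_ κ⟩
  have e3 : (8 * (2 ^ (k - 1) : ℕ) : ℤ) = ((2 ^ (k + 2) : ℕ) : ℤ) := by
    have : 8 * 2 ^ (k - 1) = 2 ^ (k + 2) := by
      have : 2 ^ 3 * 2 ^ (k - 1) = 2 ^ (k + 2) := by
        rw [← pow_add]
        congr 1
        omega
      exact this
    exact_mod_cast this
  rw [e3, bx_Bk]
  exact hK

/-- the number of layers between `m` and `M` is close to the number of layers of an annulus -/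
theorem gap_close : ∃ D C : ℝ, 0 < D ∧ 0 < C ∧ ∀ (m M k K κ : ℕ), 1 ≤ m → 1 ≤ k → k + 2 ≤ K →
    m ≤ 2 ^ k → 2 ^ k ≤ 2 * m → 2 ^ K ≤ M → M ≤ 2 * 2 ^ K → ∀ x : ℝ, 3 * (4 + 18 * (κ : ℝ)) < x →
    Pr P2 (boxE M) (fun F => x ≤ (NA F (0, 0) 0 M : ℝ) - NA F (0, 0) 0 m - Am F k K) ≤
      D / x + C * (1 / 2) ^ κ := by
  obtain ⟨D, hD, hg⟩ := gap_markov
  obtain ⟨C, hC, hL⟩ := Pr_Lnk'
  refine ⟨6 * D, C, by positivity, hC, ?_⟩
  intro m M k K κ hm hk hK h1 h2 h3 h4 x hx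
  have hκ0 : (0:ℝ) ≤ κ := Nat.cast_nonneg _
  have hx0 : 0 < x := by linarith
  have hkK : 2 ^ k ≤ 2 ^ K := Nat.pow_le_pow_right (by norm_num) (by omega)
  have g1 := hg (2 ^ K) M M Nat.one_le_two_pow h3 le_rfl h4 (x / 3) (by positivity)
  have g2 := hg m (2 ^ k) M hm h1 (hkK.trans h3) h2 (x / 3) (by positivity)
  have hBM : Bk (k + 2) ⊆ boxE M :=
    (Bk_mono hK).trans (boxE_mono h3)
  have g3 := hL k (boxE M) hk hBM κ
  have g4 : Pr P2 (boxE M) (fun F => x ≤ (NA F (0, 0) 0 M : ℝ) - NA F (0, 0) 0 m - Am F k K) ≤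
      Pr P2 (boxE M) (fun F => (x / 3 ≤ (NA F (0, 0) 0 M : ℝ) - NA F (0, 0) 0 (2 ^ K) ∨
        x / 3 ≤ (NA F (0, 0) 0 (2 ^ k) : ℝ) - NA F (0, 0) 0 m) ∨
          ¬ Lnk (0, 0) (2 ^ (k - 1)) κ F) := by
    refine Pr_mono hok fun F _ h => ?_
    by_contra hcon
    push Not at hcon
    obtain ⟨⟨a1, a2⟩, a3⟩ := hcon
    have a4 := Tn_link hk hK a3
    have a5 : (NA F (0, 0) 0 (2 ^ K) : ℝ) ≤ NA F (0, 0) 0 (2 ^ k) + Am F k K + (4 + 18 * κ) := by
      exact_mod_cast a4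
    linarith
  have g5 := Pr_or_le hok (boxE M)
    (fun F => x / 3 ≤ (NA F (0, 0) 0 M : ℝ) - NA F (0, 0) 0 (2 ^ K) ∨
        x / 3 ≤ (NA F (0, 0) 0 (2 ^ k) : ℝ) - NA F (0, 0) 0 m)
    (fun F => ¬ Lnk (0, 0) (2 ^ (k - 1)) κ F)
  have g6 := Pr_or_le hok (boxE M)
    (fun F => x / 3 ≤ (NA F (0, 0) 0 M : ℝ) - NA F (0, 0) 0 (2 ^ K))
    (fun F => x / 3 ≤ (NA F (0, 0) 0 (2 ^ k) : ℝ) - NA F (0, 0) 0 m)
  have e1 : D / (x / 3) + D / (x / 3) = 6 * D / x := by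
    field_simp
    ring
  linarith

/-- the inner scale -/
noncomputable def kk (n : ℕ) (r : ℝ≥0) : ℕ := Nat.log 2 (ms n r) + 1

/-- the outer scale -/
noncomputable def KK (n : ℕ) (s : ℝ≥0) : ℕ := Nat.log 2 (ms n s)

theorem kk_spec {n : ℕ} (hn : 1 ≤ n) (r : ℝ≥0) :
    1 ≤ kk n r ∧ ms n r ≤ 2 ^ kk n r ∧ 2 ^ kk n r ≤ 2 * ms n r := by
  refine ⟨Nat.succ_le_succ (Nat.zero_le _), (Nat.lt_pow_succ_log_self (by norm_num) _).le, ?_⟩
  unfold kk
  rw [pow_succ']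
  exact Nat.mul_le_mul_left 2 (Nat.pow_log_le_self 2 (by have := ms_one hn r; omega))

theorem KK_spec {n : ℕ} (hn : 1 ≤ n) (s : ℝ≥0) :
    2 ^ KK n s ≤ ms n s ∧ ms n s ≤ 2 * 2 ^ KK n s := by
  refine ⟨Nat.pow_log_le_self 2 (by have := ms_one hn s; omega), ?_⟩
  unfold KK
  rw [← pow_succ']
  exact (Nat.lt_pow_succ_log_self (by norm_num) _).le

theorem kk_KK {r s : ℝ≥0} (h : r < s) : ∀ᶠ n : ℕ in atTop, kk n r + 2 ≤ KK n s := by
  have h1 : Tendsto (fun n : ℕ => (n : ℝ) ^ ((s:ℝ) - r)) atTop atTop :=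
    (tendsto_rpow_atTop (by
      have : (r:ℝ) < s := by exact_mod_cast h
      linarith)).comp tendsto_natCast_atTop_atTop
  filter_upwards [h1.eventually_ge_atTop 32, eventually_ge_atTop 1] with n hn hn1
  have hn' : (0:ℝ) < n := by exact_mod_cast hn1
  have h2 : 2 ^ (kk n r + 2) ≤ 2 ^ KK n s := by
    have a1 := (kk_spec hn1 r).2.2
    have a2 := (KK_spec hn1 s).2
    have a3 := ms_le (n := n) r
    have a4 := ms_ge hn1 s
    have a5 : (n : ℝ) ^ (s : ℝ) = (n : ℝ) ^ ((s:ℝ) - r) * (n : ℝ) ^ (r : ℝ) := by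
      rw [← rpow_add hn']
      congr 1
      ring
    have a6 : (0:ℝ) < (n : ℝ) ^ (r : ℝ) := rpow_pos_of_pos hn' _
    have a7 : 32 * (n : ℝ) ^ (r : ℝ) ≤ (n : ℝ) ^ (s : ℝ) := by
      rw [a5]
      exact mul_le_mul_of_nonneg_right hn a6.le
    have b1 : ((2 ^ kk n r : ℕ) : ℝ) ≤ 2 * ms n r := by exact_mod_cast a1
    have b2 : (ms n s : ℝ) ≤ 2 * ((2 ^ KK n s : ℕ) : ℝ) := by exact_mod_cast a2
    have b3 : ((2 ^ (kk n r + 2) : ℕ) : ℝ) ≤ ((2 ^ KK n s : ℕ) : ℝ) := by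
      have : ((2 ^ (kk n r + 2) : ℕ) : ℝ) = 4 * ((2 ^ kk n r : ℕ) : ℝ) := by
        rw [pow_add]
        push_cast
        ring
      rw [this]
      linarith
    exact_mod_cast b3
  exact (Nat.pow_le_pow_iff_right (by norm_num)).1 h2

/-- the annulus variable -/
noncomputable def Yn (r s : ℝ≥0) (n : ℕ) (ω : Edg → Bool) : ℝ :=
  ((Am (op (Ak (kk n r) (KK n s)) ω) (kk n r) (KK n s) : ℝ) - ((s:ℝ) - r) * (cN * log n)) /
    √(vN * log n)

theorem meas_Yn (r s : ℝ≥0) (n : ℕ) : Measurable (Yn r s n) := by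
  have h : Measurable (fun ω => Am (op (Ak (kk n r) (KK n s)) ω) (kk n r) (KK n s)) := by
    apply measurable_to_countable'
    intro j
    exact meas_op _ (fun F => Am F (kk n r) (KK n s) = j)
  exact ((measurable_from_nat.comp h).sub_const _).div_const _

theorem small_Yn {r s : ℝ≥0} (h : r < s) :
    Fdd.Small crit (fun n ω => Xn n s ω - Xn n r ω - Yn r s n ω) := by
  obtain ⟨D, C, hD, hC, hg⟩ := gap_close
  have hvN := vN_pos
  intro ε hε
  have hs2 : Tendsto (fun n : ℕ => √(vN * log n)) atTop atTop :=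
    tendsto_sqrt_atTop.comp (tend_log.const_mul_atTop hvN)
  have hM : Tendsto (fun n : ℕ => ε * √(vN * log n)) atTop atTop := hs2.const_mul_atTop hε
  have hκ : Tendsto (fun n : ℕ => ⌊ε * √(vN * log n) / 54 - 1⌋₊) atTop atTop :=
    tendsto_nat_floor_atTop.comp (tendsto_atTop_add_const_right _ _
      (hM.atTop_div_const (by norm_num)))
  have hlim : Tendsto (fun n : ℕ => D / (ε * √(vN * log n)) +
      C * (1 / 2 : ℝ) ^ ⌊ε * √(vN * log n) / 54 - 1⌋₊) atTop (𝓝 (0 + C * 0)) :=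
    (tendsto_const_nhds.div_atTop hM).add
      (((tendsto_pow_atTop_nhds_zero_of_lt_one (by norm_num) (by norm_num)).comp hκ).const_mul C)
  rw [mul_zero, add_zero] at hlim
  refine squeeze_zero' (Eventually.of_forall fun n => measureReal_nonneg) ?_ hlim
  filter_upwards [kk_KK h, eventually_ge_atTop 1, hs2.eventually_gt_atTop 0,
    hM.eventually_ge_atTop 54] with n hkK hn h0 h54
  obtain ⟨m, hmd⟩ : ∃ m, m = ms n r := ⟨_, rfl⟩
  obtain ⟨M, hMd⟩ : ∃ M, M = ms n s := ⟨_, rfl⟩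
  obtain ⟨k, hkd⟩ : ∃ k, k = kk n r := ⟨_, rfl⟩
  obtain ⟨K, hKd⟩ : ∃ K, K = KK n s := ⟨_, rfl⟩
  obtain ⟨κ, hκd⟩ : ∃ κ, κ = ⌊ε * √(vN * log n) / 54 - 1⌋₊ := ⟨_, rfl⟩
  obtain ⟨a1, a2, a3⟩ := kk_spec hn r
  obtain ⟨a4, a5⟩ := KK_spec hn s
  have a6 := ms_one hn r
  have hκ1 : 3 * (4 + 18 * (κ : ℝ)) < ε * √(vN * log n) := by
    have := Nat.floor_le (show 0 ≤ ε * √(vN * log n) / 54 - 1 by linarith)
    rw [← hκd] at this
    linarith
  rw [← hκd]
  rw [← hkd, ← hKd] at hkK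
  rw [← hmd, ← hkd] at a2 a3
  rw [← hkd] at a1
  rw [← hMd, ← hKd] at a4 a5
  rw [← hmd] at a6
  have key := hg m M k K κ a6 a1 hkK a2 a3 a4 a5 _ hκ1
  refine le_trans (le_of_eq ?_) key
  rw [← crit_real (boxE M) (fun F => ε * √(vN * log n) ≤
    (NA F (0, 0) 0 M : ℝ) - NA F (0, 0) 0 m - Am F k K)]
  congr 1
  ext ω
  have hmM : m ≤ M := by
    rw [hmd, hMd]
    exact ms_mono hn h.le
  have hAkM : Ak k K ⊆ boxE M := (Ak_sub k K).trans (boxE_mono a4)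
  have e1 : Xn n s ω - Xn n r ω - Yn r s n ω =
      ((Lw ω M : ℝ) - Lw ω m - Am (op (Ak k K) ω) k K) / √(vN * log n) := by
    unfold Xn Yn
    rw [← hMd, ← hmd, ← hkd, ← hKd, ← sub_div, ← sub_div]
    congr 1
    ring
  have e2 : Am (op (Ak k K) ω) k K = Am (op (boxE M) ω) k K := by
    rw [← op_inter hAkM ω, Am_loc (by omega) (subset_refl _)]
  have e3 : (Lw ω m : ℝ) + Am (op (boxE M) ω) k K ≤ Lw ω M := by
    have b1 : Tn (op (boxE M) ω) k + Am (op (boxE M) ω) k K ≤ Tn (op (boxE M) ω) K :=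
      Tn_super (by omega) _
    have b2 : Tn (op (boxE M) ω) K ≤ Lw ω M := by
      unfold Tn
      rw [Lw_op a4]
      exact Lw_mono a4 ω
    have b3 : Lw ω m ≤ Tn (op (boxE M) ω) k := by
      unfold Tn
      rw [Lw_op ((Nat.pow_le_pow_right (by norm_num) (by omega)).trans a4)]
      exact Lw_mono a2 ω
    have b4 : Lw ω m + Am (op (boxE M) ω) k K ≤ Lw ω M := by omega
    exact_mod_cast b4
  show ε ≤ |Xn n s ω - Xn n r ω - Yn r s n ω| ↔ ε * √(vN * log n) ≤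
    (NA (op (boxE M) ω) (0, 0) 0 M : ℝ) - NA (op (boxE M) ω) (0, 0) 0 m -
      Am (op (boxE M) ω) k K
  rw [e1, e2, Lw_op le_rfl, Lw_op hmM, abs_of_nonneg (div_nonneg (by linarith) h0.le),
    le_div_iff₀ h0]

theorem fac_Yn {r s : ℝ≥0} (h : r < s) : ∀ᶠ n : ℕ in atTop, ∀ (J : Finset ℝ≥0),
    (∀ u ∈ J, u ≤ r) → ∀ (a : ℝ≥0 → ℝ) (θ : ℝ),
      ∫ ω, Fdd.e (Fdd.S J a (Xn n) ω) * Fdd.e (θ * Yn r s n ω) ∂crit =
        (∫ ω, Fdd.e (Fdd.S J a (Xn n) ω) ∂crit) * ∫ ω, Fdd.e (θ * Yn r s n ω) ∂crit := by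
  filter_upwards [kk_KK h, eventually_ge_atTop 1] with n hkK hn J hJ a θ
  have h1 : ∀ ω, Fdd.S J a (Xn n) ω = ∑ u ∈ J, a u *
      (((NA (op (Bk (kk n r)) ω) (0, 0) 0 (ms n u) : ℝ) - u * (cN * log n)) /
        √(vN * log n)) := by
    intro ω
    unfold Fdd.S
    refine Finset.sum_congr rfl fun u hu => ?_
    unfold Xn Bk
    rw [Lw_op]
    exact (ms_mono hn (hJ u hu)).trans (kk_spec hn r).2.1
  simp only [h1]
  have hh := indep_op (disj_Ak (kk n r) (KK n s)) (fun F => Fdd.e (∑ u ∈ J, a u *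
      (((NA F (0, 0) 0 (ms n u) : ℝ) - u * (cN * log n)) / √(vN * log n))))
    (fun F => Fdd.e (θ * (((Am F (kk n r) (KK n s) : ℝ) - ((s:ℝ) - r) * (cN * log n)) /
      √(vN * log n))))
  exact hh

/-- Convergence of the finite-dimensional distributions. -/
theorem fdd_crit {Ω' : Type*} [MeasurableSpace Ω'] {P : Measure Ω'} [IsProbabilityMeasure P]
    {B : ℝ≥0 → Ω' → ℝ} (hB : IsPreBrownianReal B P) (I : Finset ℝ≥0) :
    TendstoInDistribution (fun n ω (s : I) => Xn n s ω) atTop (fun ω (s : I) => B s ω)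
      (fun _ => crit) P :=
  Fdd.fdd_lim hB (fun n s => meas_Xn n s) I (Fdd.char_lim (fun n s => meas_Xn n s) one_pt
    (fun r s h => ⟨Yn r s, meas_Yn r s, small_Yn h, fac_Yn h⟩) I)

/-- The same for the configurations on the edge set of the lattice. -/
theorem fdd_bond {Ω' : Type*} [MeasurableSpace Ω'] {P : Measure Ω'} [IsProbabilityMeasure P]
    {B : ℝ≥0 → Ω' → ℝ} (hB : IsPreBrownianReal B P) (I : Finset ℝ≥0) :
    TendstoInDistribution (fun (n : ℕ) (ω : sqLattice.edgeSet → Bool) (s : I) =>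
      ((Pool.Agent.H863R2.NL.changes ⌊(n : ℝ) ^ ((s : ℝ≥0) : ℝ)⌋₊ ω : ℝ) -
        (s : ℝ≥0) * (cN * log n)) / √(vN * log n)) atTop (fun ω (s : I) => B s ω)
      (fun _ => bondLaw hlf) P := by
  have h := fdd_crit hB I
  have hm : ∀ n : ℕ, Measurable (fun (ω : Edg → Bool) (s : I) => Xn n s ω) := fun n =>
    measurable_pi_lambda _ fun s => meas_Xn n s
  have e1 : ∀ n : ℕ, (fun (ω : sqLattice.edgeSet → Bool) (s : I) =>
      ((Pool.Agent.H863R2.NL.changes ⌊(n : ℝ) ^ ((s : ℝ≥0) : ℝ)⌋₊ ω : ℝ) -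
        (s : ℝ≥0) * (cN * log n)) / √(vN * log n)) =
      (fun (ω : Edg → Bool) (s : I) => Xn n s ω) ∘
        (fun (ω : sqLattice.edgeSet → Bool) (e : Edg) => ω (toE e)) := by
    intro n
    funext ω s
    show _ = Xn n s (fun e => ω (toE e))
    unfold Xn
    rw [Lw_changes]
    rfl
  refine ⟨fun n => ?_, h.aemeasurable_limit, ?_⟩
  · rw [e1 n]
    exact ((hm n).comp meas_toE).aemeasurable
  · have e2 : ∀ n : ℕ, (bondLaw hlf).map (fun (ω : sqLattice.edgeSet → Bool) (s : I) =>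
        ((Pool.Agent.H863R2.NL.changes ⌊(n : ℝ) ^ ((s : ℝ≥0) : ℝ)⌋₊ ω : ℝ) -
          (s : ℝ≥0) * (cN * log n)) / √(vN * log n)) =
        crit.map (fun (ω : Edg → Bool) (s : I) => Xn n s ω) := by
      intro n
      rw [e1 n, ← Measure.map_map (hm n) meas_toE, map_toE]
    refine h.tendsto.congr fun n => ?_
    exact Subtype.ext (e2 n).symm

end Pool.Agent.U154.NI
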