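import Pool.Agent.U154.NI.As

/-!
Almost sure lower bounds for the fluctuations of the number of layers.
-/

set_option autoImplicit false

namespace Pool.Agent.U154.NI

open H974 Finset Real Filter Topology MeasureTheory Pool.Agent.W819.EN
  Pool.Agent.H863R2.NL.PowAux Pool.Agent.H450R4.NL
open Pool.Agent.H863R2.NL (cN vN ET)
open Pool.Agent.N956.PL (crit op op_inter bc1 bc2)

/-- widely separated scales -/
def Kw (M j : ℕ) : ℕ := M ^ (j + 1)

theorem Kw_succ (M j : ℕ) : Kw M (j + 1) = M * Kw M j := by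
  unfold Kw
  rw [pow_succ']

theorem Kw_tend {M : ℕ} (hM : 4 ≤ M) : Tendsto (Kw M) atTop atTop :=
  (tendsto_pow_atTop_atTop_of_one_lt (by omega)).comp (tendsto_add_atTop_nat 1)

theorem Kw_pos {M : ℕ} (hM : 4 ≤ M) (j : ℕ) : 1 ≤ Kw M j := Nat.one_le_pow _ _ (by omega)

theorem Kw_gap {M : ℕ} (hM : 4 ≤ M) (j : ℕ) : Kw M j + 2 ≤ Kw M (j + 1) := by
  rw [Kw_succ]
  have := Kw_pos hM j
  nlinarith

theorem Kw_mono {M : ℕ} (hM : 4 ≤ M) : Monotone (Kw M) :=
  monotone_nat_of_le_succ fun j => by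
    have := Kw_gap hM j
    omega

theorem tK_Kw (M j : ℕ) : tK (Kw M (j + 1)) = M * tK (Kw M j) := by
  unfold tK
  rw [Kw_succ]
  push_cast
  ring

theorem log_Kw {M : ℕ} (hM : 4 ≤ M) (j : ℕ) :
    log (tK (Kw M j)) = (j + 1) * log M + log (log 2) := by
  unfold tK Kw
  have hM' : (0:ℝ) < M := by
    have : 0 < M := by omega
    exact_mod_cast this
  push_cast
  rw [log_mul (pow_pos hM' _).ne' log2_pos.ne', log_pow]
  push_cast
  ring

theorem logM_pos {M : ℕ} (hM : 4 ≤ M) : 0 < log (M : ℝ) :=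
  log_pos (by
    have : 1 < M := by omega
    exact_mod_cast this)

theorem log_Kw_ge {M : ℕ} (hM : 4 ≤ M) : ∀ᶠ j : ℕ in atTop,
    log M / 2 * j ≤ log (tK (Kw M j)) := by
  have hl := logM_pos hM
  have h1 : Tendsto (fun j : ℕ => log (M:ℝ) / 2 * (j : ℝ)) atTop atTop :=
    tendsto_natCast_atTop_atTop.const_mul_atTop (by positivity)
  filter_upwards [h1.eventually_ge_atTop (-log (log 2))] with j hj
  rw [log_Kw hM]
  linarith

/-- the norming function at separated times -/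
theorem nrm_ratio {v t : ℝ} {M : ℕ} (hM : 1 ≤ M) (hv : 0 ≤ v) (ht : 0 < t) (h1 : 1 ≤ log t) :
    √M * nrm v t ≤ nrm v (M * t) := by
  unfold nrm
  have hM' : (1:ℝ) ≤ M := by exact_mod_cast hM
  rw [← sqrt_mul (by linarith)]
  apply sqrt_le_sqrt
  have h2 : log t ≤ log (M * t) := log_le_log ht (by nlinarith)
  have h3 : log (log t) ≤ log (log (M * t)) := log_le_log (by linarith) h2
  have h4 := mul_le_mul_of_nonneg_left h3 (show 0 ≤ 2 * v * (M * t) by positivity)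
  calc (M:ℝ) * (2 * v * t * log (log t)) = 2 * v * (M * t) * log (log t) := by ring
    _ ≤ _ := h4

/-- a divergent series -/
theorem not_summ {M : ℕ} (hM : 4 ≤ M) {δ : ℝ} (h0 : 0 ≤ δ) (h1 : δ ≤ 1) :
    ¬ Summable (fun j => exp (-((1 - δ) * log (log (tK (Kw M (j + 1))))))) := by
  intro hs
  have hl := logM_pos hM
  have h2 : Summable (fun j : ℕ => 1 / log (M:ℝ) * (1 / ((j + 2 : ℕ) : ℝ))) := by
    refine Summable.of_norm_bounded_eventually_nat hs ?_
    have h3 := (tend_ll.comp tend_tK).comp ((Kw_tend hM).comp (tendsto_add_atTop_nat 1))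
    have h4 := (tendsto_log_atTop.comp tend_tK).comp ((Kw_tend hM).comp (tendsto_add_atTop_nat 1))
    filter_upwards [h3.eventually_ge_atTop 0, h4.eventually_gt_atTop 0] with j k1 k2
    have k1' : 0 ≤ log (log (tK (Kw M (j + 1)))) := k1
    have k2' : 0 < log (tK (Kw M (j + 1))) := k2
    have hj : (0:ℝ) < ((j + 2 : ℕ) : ℝ) := by positivity
    rw [norm_eq_abs, abs_of_nonneg (by positivity)]
    have h5 : log (tK (Kw M (j + 1))) ≤ ((j + 2 : ℕ) : ℝ) * log M := by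
      rw [log_Kw hM]
      have : log (log 2) ≤ 0 := by
        apply log_nonpos log2_pos.le
        have := log_le_sub_one_of_pos (show (0:ℝ) < 2 by norm_num)
        linarith
      push_cast
      linarith
    have h6 := log_le_log k2' h5
    have h7 : 1 / log (M:ℝ) * (1 / ((j + 2 : ℕ) : ℝ)) = exp (-log (((j + 2 : ℕ) : ℝ) * log M)) := by
      rw [exp_neg, exp_log (by positivity)]
      field_simp
    rw [h7]
    apply exp_le_exp.2
    nlinarith
  have h8 : Summable (fun j : ℕ => 1 / ((j + 2 : ℕ) : ℝ)) := by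
    have := h2.mul_left (log (M:ℝ))
    refine this.congr fun j => ?_
    field_simp
  exact Real.not_summable_one_div_natCast ((summable_nat_add_iff 2).1 h8)

/-- the lower bounds for the annuli -/
theorem pr_lo {ε : ℝ} (h0 : 0 < ε) (h1 : ε ≤ 1) {M : ℕ} (hM : 4 ≤ M) (hMε : 8 / ε ≤ √M) :
    ∃ C : ℝ, 0 < C ∧ ∀ᶠ j : ℕ in atTop,
      exp (-((1 - ε / 16) * log (log (tK (Kw M (j + 1)))))) ≤
        Pr P2 (Ak (Kw M j) (Kw M (j + 1))) (fun F =>
          cN * (tK (Kw M (j + 1)) - tK (Kw M j)) + (1 - ε) * nrm vN (tK (Kw M (j + 1))) ≤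
            Am F (Kw M j) (Kw M (j + 1))) +
        C * (exp (-(4 * log (log (tK (Kw M j))))) + (1 / 2) ^ j) ∧
      exp (-((1 - ε / 16) * log (log (tK (Kw M (j + 1)))))) ≤
        Pr P2 (Ak (Kw M j) (Kw M (j + 1))) (fun F => (Am F (Kw M j) (Kw M (j + 1)) : ℝ) ≤
          cN * (tK (Kw M (j + 1)) - tK (Kw M j)) - (1 - ε) * nrm vN (tK (Kw M (j + 1)))) +
        C * (exp (-(4 * log (log (tK (Kw M j))))) + (1 / 2) ^ j) := by
  obtain ⟨C1, hC1, hT⟩ := tail_nrm 2 (by norm_num)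
  obtain ⟨C2, hC2, hL⟩ := Pr_Lnk (ρ := 1 / 2) (by norm_num)
  have hvN := vN_pos
  have hlM := logM_pos hM
  have hK1 := (Kw_tend hM).comp (tendsto_add_atTop_nat 1)
  refine ⟨C1 + C2, by positivity, ?_⟩
  filter_upwards [hK1.eventually (low_dev (half_pos h0) (by linarith)), (Kw_tend hM).eventually hT,
    hK1.eventually (kap_small (r := 1 / log M) (by positivity) (show 0 < ε / 4 by positivity)),
    ((tendsto_log_atTop.comp tend_tK).comp (Kw_tend hM)).eventually_ge_atTop 1]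
    with j k1 k2 k3 k4
  obtain ⟨k5, k6⟩ := k1
  obtain ⟨k7, k8⟩ := k2 2 (by norm_num) le_rfl
  have hgap := Kw_gap hM j
  have hpos := Kw_pos hM j
  simp only [Function.comp] at k3 k4 k5 k6
  have hN : √M * nrm vN (tK (Kw M j)) ≤ nrm vN (tK (Kw M (j + 1))) := by
    rw [tK_Kw]
    refine nrm_ratio (by omega) hvN.le ?_ k4
    have : (0:ℝ) < Kw M j := by exact_mod_cast hpos
    exact mul_pos this log2_pos
  have hN0 := nrm_nonneg vN (tK (Kw M j))
  have hN2 : 2 * nrm vN (tK (Kw M j)) ≤ ε / 4 * nrm vN (tK (Kw M (j + 1))) := by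
    have i1 := mul_le_mul_of_nonneg_right hMε hN0
    have i2 := mul_le_mul_of_nonneg_left (i1.trans hN) (show 0 ≤ ε / 4 by positivity)
    have e : ε / 4 * (8 / ε * nrm vN (tK (Kw M j))) = 2 * nrm vN (tK (Kw M j)) := by
      field_simp
      ring
    rw [e] at i2
    exact i2
  have hκ : 4 + 18 * (j:ℝ) ≤ ε / 4 * nrm vN (tK (Kw M (j + 1))) := by
    refine le_trans ?_ k3
    have : (j:ℝ) ≤ 1 / log M * log (Kw M (j + 1)) := by
      unfold Kw
      push_cast
      rw [log_pow]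
      push_cast
      have e : 1 / log (M:ℝ) * ((j + 1 + 1) * log M) = j + 2 := by
        field_simp
        ring
      rw [e]
      linarith
    linarith
  obtain ⟨K, hK⟩ : ∃ K, K = Kw M j := ⟨_, rfl⟩
  obtain ⟨K', hK'⟩ : ∃ K', K' = Kw M (j + 1) := ⟨_, rfl⟩
  rw [← hK] at k7 k8 hgap hpos hN2 ⊢
  rw [← hK'] at k5 k6 hgap hN2 hκ ⊢
  rw [← Pr_Am (by omega : K + 1 ≤ K')
    (fun m => cN * (tK K' - tK K) + (1 - ε) * nrm vN (tK K') ≤ m),
    ← Pr_Am (by omega : K + 1 ≤ K')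
    (fun m => (m:ℝ) ≤ cN * (tK K' - tK K) - (1 - ε) * nrm vN (tK K'))]
  rw [← Pr_Tn (K := K') le_rfl (fun m => cN * tK K' + (1 - ε / 2) * nrm vN (tK K') ≤ m)] at k5
  rw [← Pr_Tn (K := K') le_rfl (fun m => (m:ℝ) ≤ cN * tK K' - (1 - ε / 2) * nrm vN (tK K'))] at k6
  rw [← Pr_Tn (K := K') (by omega : K ≤ K') (fun m => cN * tK K + 2 * nrm vN (tK K) ≤ m)] at k7
  rw [← Pr_Tn (K := K') (by omega : K ≤ K') (fun m => (m:ℝ) ≤ cN * tK K - 2 * nrm vN (tK K))] at k8
  have k9 := hL K K' hpos hgap j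
  have he1 : 0 ≤ exp (-(4 * log (log (tK K)))) := (exp_pos _).le
  have he2 : (0:ℝ) ≤ (1 / 2) ^ j := by positivity
  have e16 : ε / 2 / 8 = ε / 16 := by ring
  have e4 : (2:ℝ) ^ 2 = 4 := by norm_num
  rw [e16] at k5 k6
  rw [e4] at k7 k8
  have hsum : C1 * exp (-(4 * log (log (tK K)))) + C2 * (1 / 2) ^ j ≤
      (C1 + C2) * (exp (-(4 * log (log (tK K)))) + (1 / 2) ^ j) := by
    have : 0 ≤ C2 * exp (-(4 * log (log (tK K)))) + C1 * (1 / 2) ^ j := by positivity
    linarith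
  constructor
  · have i1 : Pr P2 (Bk K') (fun F => cN * tK K' + (1 - ε / 2) * nrm vN (tK K') ≤ Tn F K') ≤
        Pr P2 (Bk K') (fun F => (cN * (tK K' - tK K) + (1 - ε) * nrm vN (tK K') ≤ Am F K K' ∨
          cN * tK K + 2 * nrm vN (tK K) ≤ Tn F K) ∨ ¬ Lnk (0, 0) (2 ^ (K - 1)) j F) := by
      refine Pr_mono hok fun F _ hF => ?_
      by_contra hcon
      push Not at hcon
      obtain ⟨⟨h3, h4⟩, h5⟩ := hcon
      have h6 : (Tn F K' : ℝ) ≤ Tn F K + Am F K K' + (4 + 18 * j) := by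
        exact_mod_cast Tn_link hpos hgap h5
      linarith
    have i2 := Pr_or_le hok (Bk K') (fun F => cN * (tK K' - tK K) + (1 - ε) * nrm vN (tK K') ≤
      Am F K K' ∨ cN * tK K + 2 * nrm vN (tK K) ≤ Tn F K)
      (fun F => ¬ Lnk (0, 0) (2 ^ (K - 1)) j F)
    have i3 := Pr_or_le hok (Bk K') (fun F => cN * (tK K' - tK K) + (1 - ε) * nrm vN (tK K') ≤
      Am F K K') (fun F => cN * tK K + 2 * nrm vN (tK K) ≤ Tn F K)
    linarith
  · have i1 : Pr P2 (Bk K') (fun F => (Tn F K' : ℝ) ≤ cN * tK K' - (1 - ε / 2) * nrm vN (tK K')) ≤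
        Pr P2 (Bk K') (fun F => (Am F K K' : ℝ) ≤
          cN * (tK K' - tK K) - (1 - ε) * nrm vN (tK K') ∨
          (Tn F K : ℝ) ≤ cN * tK K - 2 * nrm vN (tK K)) := by
      refine Pr_mono hok fun F _ hF => ?_
      by_contra hcon
      push Not at hcon
      obtain ⟨h3, h4⟩ := hcon
      have h6 : (Tn F K : ℝ) + Am F K K' ≤ Tn F K' := by
        exact_mod_cast Tn_super (by omega) F
      have h7 : 0 ≤ ε / 4 * nrm vN (tK K') := mul_nonneg (by positivity) (nrm_nonneg _ _)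
      linarith
    have i3 := Pr_or_le hok (Bk K') (fun F => (Am F K K' : ℝ) ≤
      cN * (tK K' - tK K) - (1 - ε) * nrm vN (tK K'))
      (fun F => (Tn F K : ℝ) ≤ cN * tK K - 2 * nrm vN (tK K))
    have h8 : 0 ≤ C2 * (1 / 2 : ℝ) ^ j := by positivity
    linarith

theorem summ_err {M : ℕ} (hM : 4 ≤ M) (C : ℝ) :
    Summable (fun j => C * (exp (-(4 * log (log (tK (Kw M j))))) + (1 / 2 : ℝ) ^ j)) :=
  ((summ (by norm_num) (half_pos (logM_pos hM)) (Kw M) (log_Kw_ge hM)).add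
    (summable_geometric_of_lt_one (by norm_num) (by norm_num))).mul_left C

/-- the lower half at the separated scales -/
theorem lil_sep {ε : ℝ} (h0 : 0 < ε) (h1 : ε ≤ 1) : ∀ᵐ ω ∂crit,
    (∃ᶠ k : ℕ in atTop, cN * tK k + (1 - 2 * ε) * nrm vN (tK k) ≤ Tw ω k) ∧
    (∃ᶠ k : ℕ in atTop, (Tw ω k : ℝ) ≤ cN * tK k - (1 - 2 * ε) * nrm vN (tK k)) := by
  obtain ⟨M, hM⟩ := exists_nat_ge (max 4 ((8 / ε) ^ 2))
  have hM4 : 4 ≤ M := by exact_mod_cast (le_max_left _ _).trans hM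
  have hMε : 8 / ε ≤ √M := le_sqrt_of_sq_le ((le_max_right _ _).trans hM)
  have hvN := vN_pos
  have hlM := logM_pos hM4
  obtain ⟨C, hC, h⟩ := pr_lo h0 h1 hM4 hMε
  obtain ⟨C2, hC2, hL⟩ := Pr_Lnk (ρ := 1 / 2) (by norm_num)
  have hδ0 : 0 ≤ ε / 16 := by positivity
  have hδ1 : ε / 16 ≤ 1 := by linarith
  have hd : ∀ i j : ℕ, i ≠ j → Disjoint (Ak (Kw M i) (Kw M (i + 1)))
      (Ak (Kw M j) (Kw M (j + 1))) := by
    intro i j hij
    rcases lt_or_gt_of_ne hij with h3 | h3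
    · exact Ak_disj (Kw M) (Kw_mono hM4) h3
    · exact (Ak_disj (Kw M) (Kw_mono hM4) h3).symm
  have n1 : ¬ Summable (fun j => Pr (fun _ => (1/2:ℝ)) (Ak (Kw M j) (Kw M (j + 1))) (fun F =>
      cN * (tK (Kw M (j + 1)) - tK (Kw M j)) + (1 - ε) * nrm vN (tK (Kw M (j + 1))) ≤
        Am F (Kw M j) (Kw M (j + 1)))) := by
    intro hs
    refine not_summ hM4 hδ0 hδ1 (Summable.of_norm_bounded_eventually_nat
      (hs.add (summ_err hM4 C)) ?_)
    filter_upwards [h] with j hj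
    rw [norm_eq_abs, abs_of_nonneg (exp_pos _).le]
    exact hj.1
  have n2 : ¬ Summable (fun j => Pr (fun _ => (1/2:ℝ)) (Ak (Kw M j) (Kw M (j + 1))) (fun F =>
      (Am F (Kw M j) (Kw M (j + 1)) : ℝ) ≤
        cN * (tK (Kw M (j + 1)) - tK (Kw M j)) - (1 - ε) * nrm vN (tK (Kw M (j + 1))))) := by
    intro hs
    refine not_summ hM4 hδ0 hδ1 (Summable.of_norm_bounded_eventually_nat
      (hs.add (summ_err hM4 C)) ?_)
    filter_upwards [h] with j hj
    rw [norm_eq_abs, abs_of_nonneg (exp_pos _).le]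
    exact hj.2
  have n3 : Summable (fun j => Pr (fun _ => (1/2:ℝ)) (Bk (Kw M (j + 1)))
      (fun F => ¬ Lnk (0, 0) (2 ^ (Kw M j - 1)) j F)) := by
    refine Summable.of_nonneg_of_le (fun j => Pr_nonneg hok _ _)
      (fun j => hL (Kw M j) (Kw M (j + 1)) (Kw_pos hM4 j) (Kw_gap hM4 j) j)
      ((summable_geometric_of_lt_one (by norm_num) (by norm_num)).mul_left C2)
  have hK1 := (Kw_tend hM4).comp (tendsto_add_atTop_nat 1)
  filter_upwards [bc2 _ hd _ n1, bc2 _ hd _ n2, bc1 _ _ n3,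
    lil_le (ε := 1) one_pos le_rfl] with ω w1 w2 w3 w4
  have w5 := (Kw_tend hM4).eventually w4
  have w6 := hK1.eventually (kap_small (r := 1 / log M) (by positivity)
    (show 0 < ε / 4 by positivity))
  have w7 := ((tendsto_log_atTop.comp tend_tK).comp (Kw_tend hM4)).eventually_ge_atTop 1
  have hN2 : ∀ᶠ j : ℕ in atTop,
      2 * nrm vN (tK (Kw M j)) ≤ ε / 4 * nrm vN (tK (Kw M (j + 1))) := by
    filter_upwards [w7] with j k4
    have hN : √M * nrm vN (tK (Kw M j)) ≤ nrm vN (tK (Kw M (j + 1))) := by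
      rw [tK_Kw]
      refine nrm_ratio (by omega) hvN.le ?_ k4
      have : (0:ℝ) < Kw M j := by exact_mod_cast Kw_pos hM4 j
      exact mul_pos this log2_pos
    have hN0 := nrm_nonneg vN (tK (Kw M j))
    have i1 := mul_le_mul_of_nonneg_right hMε hN0
    have i2 := mul_le_mul_of_nonneg_left (i1.trans hN) (show 0 ≤ ε / 4 by positivity)
    have e : ε / 4 * (8 / ε * nrm vN (tK (Kw M j))) = 2 * nrm vN (tK (Kw M j)) := by
      field_simp
      ring
    rw [e] at i2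
    exact i2
  constructor
  · have hf := w1.and_eventually (w5.and hN2)
    refine hK1.frequently (hf.mono ?_)
    rintro j ⟨h3, ⟨-, h4⟩, h5⟩
    rw [Am_op (by have := Kw_gap hM4 j; omega)] at h3
    have h6 := Tn_super (by have := Kw_gap hM4 j; omega : Kw M j + 1 ≤ Kw M (j + 1))
      (op (Bk (Kw M (j + 1))) ω)
    rw [Tw_op (by have := Kw_gap hM4 j; omega), Tw_op le_rfl] at h6
    have h7 : (Tw ω (Kw M j) : ℝ) + Am (op (Bk (Kw M (j + 1))) ω) (Kw M j) (Kw M (j + 1)) ≤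
        Tw ω (Kw M (j + 1)) := by exact_mod_cast h6
    have h8 := nrm_nonneg vN (tK (Kw M (j + 1)))
    show cN * tK (Kw M (j + 1)) + (1 - 2 * ε) * nrm vN (tK (Kw M (j + 1))) ≤
      Tw ω (Kw M (j + 1))
    nlinarith [mul_nonneg h0.le h8]
  · have hf := w2.and_eventually ((w5.and hN2).and (w3.and w6))
    refine hK1.frequently (hf.mono ?_)
    rintro j ⟨h3, ⟨⟨h4, -⟩, h5⟩, h9, h10⟩
    rw [Am_op (by have := Kw_gap hM4 j; omega)] at h3
    have h6 := Tn_link (Kw_pos hM4 j) (Kw_gap hM4 j) (not_not.1 h9)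
    rw [Tw_op le_rfl, Tw_op (by have := Kw_gap hM4 j; omega)] at h6
    have h7 : (Tw ω (Kw M (j + 1)) : ℝ) ≤ Tw ω (Kw M j) +
        Am (op (Bk (Kw M (j + 1))) ω) (Kw M j) (Kw M (j + 1)) + (4 + 18 * j) := by
      exact_mod_cast h6
    have hκ : 4 + 18 * (j:ℝ) ≤ ε / 4 * nrm vN (tK (Kw M (j + 1))) := by
      refine le_trans ?_ h10
      have : (j:ℝ) ≤ 1 / log M * log (Kw M (j + 1)) := by
        unfold Kw
        push_cast
        rw [log_pow]
        push_cast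
        have e : 1 / log (M:ℝ) * ((j + 1 + 1) * log M) = j + 2 := by
          field_simp
          ring
        rw [e]
        linarith
      simp only [Function.comp]
      linarith
    have h8 := nrm_nonneg vN (tK (Kw M (j + 1)))
    show (Tw ω (Kw M (j + 1)) : ℝ) ≤
      cN * tK (Kw M (j + 1)) - (1 - 2 * ε) * nrm vN (tK (Kw M (j + 1)))
    nlinarith [mul_nonneg h0.le h8]

end Pool.Agent.U154.NI
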