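import Pool.Agent.U154.NI.Fac

/-!
Lower bounds for moderate deviations on the cylinder.
-/

set_option autoImplicit false

namespace Pool.Agent.U154.NI

open H974 Finset Real Pool.Agent.H863R2.NL Pool.Agent.H863R2.NL.PowAux Pool.Agent.H450R4.NL

/-- the exponential change of measure, pointwise -/
theorem md_point (s h c0 d0 X : ℝ) (hh : 0 ≤ h) :
    exp (s * X) - exp (-(h * (c0 + d0))) * exp ((s + h) * X) -
      exp (h * (c0 - d0)) * exp ((s - h) * X) ≤
      exp (s * c0 + |s| * d0) * ind (|X - c0| ≤ d0) := by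
  rw [← exp_add, ← exp_add]
  by_cases hX : |X - c0| ≤ d0
  · rw [ind_of hX, mul_one]
    have h1 : exp (s * X) ≤ exp (s * c0 + |s| * d0) := by
      apply exp_le_exp.2
      have h2 : s * (X - c0) ≤ |s| * d0 := by
        calc s * (X - c0) ≤ |s * (X - c0)| := le_abs_self _
          _ = |s| * |X - c0| := abs_mul _ _
          _ ≤ |s| * d0 := mul_le_mul_of_nonneg_left hX (abs_nonneg s)
      linarith
    have h2 := exp_pos (-(h * (c0 + d0)) + (s + h) * X)
    have h3 := exp_pos (h * (c0 - d0) + (s - h) * X)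
    linarith
  · rw [ind_not_of hX, mul_zero]
    rw [not_le, lt_abs] at hX
    have h2 := exp_pos (-(h * (c0 + d0)) + (s + h) * X)
    have h3 := exp_pos (h * (c0 - d0) + (s - h) * X)
    rcases hX with hX | hX
    · have h4 : exp (s * X) ≤ exp (-(h * (c0 + d0)) + (s + h) * X) := by
        apply exp_le_exp.2
        have := mul_nonneg hh (show 0 ≤ X - c0 - d0 by linarith)
        nlinarith
      linarith
    · have h4 : exp (s * X) ≤ exp (h * (c0 - d0) + (s - h) * X) := by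
        apply exp_le_exp.2
        have := mul_nonneg hh (show 0 ≤ c0 - d0 - X by linarith)
        nlinarith
      linarith

theorem EN_mono' {n : ℕ} {g g' : ℕ → ℝ} (h : ∀ m, g m ≤ g' m) : EN n g ≤ EN n g' := by
  unfold EN
  refine Finset.sum_le_sum fun σ _ => Finset.sum_le_sum fun τ _ => ?_
  exact mul_le_mul_of_nonneg_left (h _) (mul_nonneg (mu_nonneg n σ) (mu_nonneg n τ))

theorem EN_sub' (n : ℕ) (g g' : ℕ → ℝ) : EN n (fun m => g m - g' m) = EN n g - EN n g' := by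
  unfold EN
  rw [← Finset.sum_sub_distrib]
  refine Finset.sum_congr rfl fun σ _ => ?_
  rw [← Finset.sum_sub_distrib]
  refine Finset.sum_congr rfl fun τ _ => ?_
  ring

/-- the exponential change of measure on the cylinder -/
theorem EN_tilt (n : ℕ) (s h c0 d0 : ℝ) (hh : 0 ≤ h) :
    EN n (fun m => exp s ^ m) - exp (-(h * (c0 + d0))) * EN n (fun m => exp (s + h) ^ m) -
      exp (h * (c0 - d0)) * EN n (fun m => exp (s - h) ^ m) ≤
      exp (s * c0 + |s| * d0) * EN n (fun m => ind (|(m : ℝ) - c0| ≤ d0)) := by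
  rw [← EN_mul, ← EN_mul, ← EN_mul, ← EN_sub', ← EN_sub']
  refine EN_mono' fun m => ?_
  have h1 := md_point s h c0 d0 m hh
  rw [← exp_nat_mul, ← exp_nat_mul, ← exp_nat_mul, mul_comm (m : ℝ) s, mul_comm (m : ℝ) (s + h),
    mul_comm (m : ℝ) (s - h)]
  exact h1

/-- the final step of the lower bound -/
theorem md_fin {E1 E2 E3 Q c C L h c0 d0 a b : ℝ}
    (h1 : c * exp a ≤ E1) (h2 : exp (-(h * (c0 + d0))) * E2 ≤ C * exp (a - b))
    (h3 : exp (h * (c0 - d0)) * E3 ≤ C * exp (a - b))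
    (h4 : E1 - exp (-(h * (c0 + d0))) * E2 - exp (h * (c0 - d0)) * E3 ≤ exp L * Q)
    (hb : 4 * C * exp (-b) ≤ c) : c / 2 * exp (a - L) ≤ Q := by
  have e1 : C * exp (a - b) = C * exp (-b) * exp a := by
    rw [mul_assoc, ← exp_add]
    congr 2
    ring
  have h5 : C * exp (-b) * exp a ≤ c / 4 * exp a :=
    mul_le_mul_of_nonneg_right (by linarith) (exp_pos a).le
  have h6 : c / 2 * exp a ≤ exp L * Q := by linarith
  have h7 : exp (a - L) * exp L = exp a := by rw [← exp_add]; congr 1; ring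
  have h8 : exp L * (c / 2 * exp (a - L)) ≤ exp L * Q := by
    calc exp L * (c / 2 * exp (a - L)) = c / 2 * (exp (a - L) * exp L) := by ring
      _ = c / 2 * exp a := by rw [h7]
      _ ≤ _ := h6
  exact le_of_mul_le_mul_left h8 (exp_pos L)

/-- Lower bounds for moderate deviations on the cylinder. -/
theorem EN_md {θ : ℝ} (hθ : 0 < θ) (hθ1 : θ ≤ 1) : ∃ c x0 : ℝ, 0 < c ∧ 0 < x0 ∧
    ∀ (n : ℕ) (x : ℝ), 1 ≤ n → x0 ≤ x → 6 * x ≤ √(vN * log n) →
      54 * cN * x ^ 3 * log n ≤ √(vN * log n) ^ 3 →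
      c * exp (-((1 + θ) * (1 + 3 * θ) / 2 * x ^ 2)) ≤
        EN n (fun m => ind (cN * log n + x * √(vN * log n) ≤ m)) ∧
      c * exp (-((1 + θ) * (1 + 3 * θ) / 2 * x ^ 2)) ≤
        EN n (fun m => ind ((m : ℝ) ≤ cN * log n - x * √(vN * log n))) := by
  obtain ⟨C1, hC1, hU1⟩ := EN_up
  obtain ⟨C2, hC2, hU2⟩ := EN_dn
  obtain ⟨c1, hc1, hL1⟩ := EN_up_lo
  obtain ⟨c2, hc2, hL2⟩ := EN_dn_lo
  obtain ⟨C, hC⟩ : ∃ C : ℝ, C = max C1 C2 * exp 1 := ⟨_, rfl⟩
  obtain ⟨c, hc⟩ : ∃ c : ℝ, c = min c1 c2 * exp (-1) := ⟨_, rfl⟩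
  have hC0 : 0 < C := by rw [hC]; exact mul_pos (lt_max_of_lt_left hC1) (exp_pos _)
  have hc0 : 0 < c := by rw [hc]; exact mul_pos (lt_min hc1 hc2) (exp_pos _)
  have hcN := cN_pos
  have hvN := vN_pos
  -- the threshold
  obtain ⟨x0, hx00, hx0⟩ : ∃ x0 : ℝ, 0 < x0 ∧ ∀ x, x0 ≤ x →
      4 * C * exp (-(θ ^ 2 * x ^ 2 / 2)) ≤ c := by
    refine ⟨max 1 (8 * C / (c * θ ^ 2)), lt_max_of_lt_left one_pos, fun x hx => ?_⟩
    have h1 : 1 ≤ x := (le_max_left _ _).trans hx
    have h2 : 8 * C / (c * θ ^ 2) ≤ x := (le_max_right _ _).trans hx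
    rw [div_le_iff₀ (by positivity)] at h2
    have h3 : 0 < θ ^ 2 * x ^ 2 / 2 := by positivity
    have h4 : exp (-(θ ^ 2 * x ^ 2 / 2)) ≤ 1 / (θ ^ 2 * x ^ 2 / 2) := by
      rw [exp_neg, ← one_div]
      refine one_div_le_one_div_of_le h3 ?_
      have := add_one_le_exp (θ ^ 2 * x ^ 2 / 2)
      linarith
    refine (mul_le_mul_of_nonneg_left h4 (by positivity)).trans ?_
    rw [mul_one_div, div_le_iff₀ h3]
    have h5 : x * (c * θ ^ 2) ≤ x ^ 2 * (c * θ ^ 2) := by
      apply mul_le_mul_of_nonneg_right _ (by positivity)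
      nlinarith
    nlinarith
  refine ⟨c / 2, x0, by positivity, hx00, fun n x hn hx hx1 hx2 => ?_⟩
  have hx0' : 0 < x := hx00.trans_le hx
  obtain ⟨r, hr⟩ : ∃ r : ℝ, r = √(vN * log n) := ⟨_, rfl⟩
  rw [← hr] at hx1 hx2 ⊢
  have hr0 : 0 < r := by linarith
  have ht0 : 0 ≤ log n := log_nonneg (by exact_mod_cast hn)
  have hr2 : r ^ 2 = vN * log n := by rw [hr]; exact sq_sqrt (by positivity)
  obtain ⟨t, ht⟩ : ∃ t : ℝ, t = log n := ⟨_, rfl⟩
  have hU1' := fun l h0 h1 => hU1 l h0 h1 n hn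
  have hU2' := fun l h0 h1 => hU2 l h0 h1 n hn
  have hL1' := fun l h0 h1 => hL1 l h0 h1 n hn
  have hL2' := fun l h0 h1 => hL2 l h0 h1 n hn
  rw [← ht] at hx2 ht0 hr2 hU1' hU2' hL1' hL2' ⊢
  -- moments at `y x / r`
  have quad : ∀ y : ℝ, vN * (y * x / r) ^ 2 / 2 * t = y ^ 2 * x ^ 2 / 2 := by
    intro y
    have : vN * t / r ^ 2 = 1 := by rw [← hr2]; exact div_self (by positivity)
    calc vN * (y * x / r) ^ 2 / 2 * t = (vN * t / r ^ 2) * (y ^ 2 * x ^ 2 / 2) := by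
          field_simp
      _ = _ := by rw [this, one_mul]
  have small : ∀ y : ℝ, 0 ≤ y → y ≤ 3 → 0 ≤ y * x / r ∧ y * x / r ≤ 1 / 2 := by
    intro y h0 h1
    refine ⟨by positivity, ?_⟩
    rw [div_le_iff₀ hr0]
    nlinarith
  have cub : ∀ y : ℝ, 0 ≤ y → y ≤ 3 → cN * (y * x / r) ^ 3 * t ≤ 1 / 2 := by
    intro y h0 h1
    have h3 : y ^ 3 ≤ 3 ^ 3 := pow_le_pow_left₀ h0 h1 3
    have e : cN * (y * x / r) ^ 3 * t = cN * y ^ 3 * x ^ 3 * t / r ^ 3 := by
      field_simp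
    rw [e, div_le_iff₀ (by positivity)]
    have h4 : cN * y ^ 3 * x ^ 3 * t ≤ cN * 3 ^ 3 * x ^ 3 * t := by
      apply mul_le_mul_of_nonneg_right _ ht0
      apply mul_le_mul_of_nonneg_right _ (by positivity)
      exact mul_le_mul_of_nonneg_left h3 hcN.le
    nlinarith
  have up1 : ∀ y : ℝ, 0 ≤ y → y ≤ 3 → EN n (fun m => exp (y * x / r) ^ m) ≤
      C * exp (cN * (y * x / r) * t + y ^ 2 * x ^ 2 / 2) := by
    intro y h0 h1
    refine (hU1' _ (small y h0 h1).1 (small y h0 h1).2).trans ?_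
    rw [hC, mul_assoc, ← exp_add]
    refine mul_le_mul (le_max_left _ _) (exp_le_exp.2 ?_) (exp_pos _).le
      (hC1.le.trans (le_max_left _ _))
    have := cub y h0 h1
    have := quad y
    linarith
  have up2 : ∀ y : ℝ, 0 ≤ y → y ≤ 3 → EN n (fun m => exp (-(y * x / r)) ^ m) ≤
      C * exp (-(cN * (y * x / r) * t) + y ^ 2 * x ^ 2 / 2) := by
    intro y h0 h1
    refine (hU2' _ (small y h0 h1).1 (small y h0 h1).2).trans ?_
    rw [hC, mul_assoc, ← exp_add]
    refine mul_le_mul (le_max_right _ _) (exp_le_exp.2 ?_) (exp_pos _).le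
      (hC1.le.trans (le_max_left _ _))
    have := cub y h0 h1
    have := quad y
    linarith
  have lo1 : ∀ y : ℝ, 0 ≤ y → y ≤ 3 → c * exp (cN * (y * x / r) * t + y ^ 2 * x ^ 2 / 2) ≤
      EN n (fun m => exp (y * x / r) ^ m) := by
    intro y h0 h1
    refine le_trans ?_ (hL1' _ (small y h0 h1).1 (small y h0 h1).2)
    rw [hc, mul_assoc, ← exp_add]
    refine mul_le_mul (min_le_left _ _) (exp_le_exp.2 ?_) (exp_pos _).le hc1.le
    have := cub y h0 h1
    have := quad y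
    linarith
  have lo2 : ∀ y : ℝ, 0 ≤ y → y ≤ 3 → c * exp (-(cN * (y * x / r) * t) + y ^ 2 * x ^ 2 / 2) ≤
      EN n (fun m => exp (-(y * x / r)) ^ m) := by
    intro y h0 h1
    refine le_trans ?_ (hL2' _ (small y h0 h1).1 (small y h0 h1).2)
    rw [hc, mul_assoc, ← exp_add]
    refine mul_le_mul (min_le_right _ _) (exp_le_exp.2 ?_) (exp_pos _).le hc2.le
    have := cub y h0 h1
    have := quad y
    linarith
  obtain ⟨s, hs⟩ : ∃ s : ℝ, s = (1 + θ) * x / r := ⟨_, rfl⟩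
  obtain ⟨h, hh⟩ : ∃ h : ℝ, h = θ * x / r := ⟨_, rfl⟩
  have hs0 : 0 ≤ s := by rw [hs]; positivity
  have hh0 : 0 ≤ h := by rw [hh]; positivity
  have e1 : s + h = (1 + 2 * θ) * x / r := by rw [hs, hh]; ring
  have e2 : s - h = 1 * x / r := by rw [hs, hh]; ring
  have er : ∀ y z : ℝ, y * x / r * (z * x * r) = y * z * x ^ 2 := by
    intro y z
    field_simp
  have hb := hx0 x hx
  constructor
  · -- upper deviations
    have k1 := lo1 (1 + θ) (by linarith) (by linarith)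
    have k2 := up1 (1 + 2 * θ) (by linarith) (by linarith)
    have k3 := up1 1 (by norm_num) (by norm_num)
    rw [← hs] at k1
    rw [← e1] at k2
    rw [← e2] at k3
    obtain ⟨c0, hc0'⟩ : ∃ c0 : ℝ, c0 = cN * t + (1 + θ) * x * r := ⟨_, rfl⟩
    obtain ⟨d0, hd0⟩ : ∃ d0 : ℝ, d0 = θ * x * r := ⟨_, rfl⟩
    have k4 := EN_tilt n s h c0 d0 hh0
    have f1 : h * (c0 + d0) = h * (cN * t) + θ * (1 + 2 * θ) * x ^ 2 := by
      have := er θ (1 + 2 * θ)
      rw [← hh] at this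
      rw [← this, hc0', hd0]
      ring
    have f2 : h * (c0 - d0) = h * (cN * t) + θ * 1 * x ^ 2 := by
      have := er θ 1
      rw [← hh] at this
      rw [← this, hc0', hd0]
      ring
    have f3 : s * c0 + |s| * d0 = s * (cN * t) + (1 + θ) * (1 + 2 * θ) * x ^ 2 := by
      have := er (1 + θ) (1 + 2 * θ)
      rw [← hs] at this
      rw [← this, abs_of_nonneg hs0, hc0', hd0]
      ring
    have k5 := md_fin (a := cN * s * t + (1 + θ) ^ 2 * x ^ 2 / 2) (b := θ ^ 2 * x ^ 2 / 2)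
      k1 (C := C) ?_ ?_ k4 hb
    · have f4 : cN * s * t + (1 + θ) ^ 2 * x ^ 2 / 2 - (s * c0 + |s| * d0) =
          -((1 + θ) * (1 + 3 * θ) / 2 * x ^ 2) := by
        rw [f3]
        ring
      rw [f4] at k5
      refine k5.trans (EN_mono' fun m => ?_)
      refine ind_mono fun hm => ?_
      have := (abs_le.1 hm).1
      rw [hc0', hd0] at this
      linarith
    · refine (mul_le_mul_of_nonneg_left k2 (exp_pos _).le).trans (le_of_eq ?_)
      rw [mul_left_comm, ← exp_add, f1]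
      congr 2
      ring
    · refine (mul_le_mul_of_nonneg_left k3 (exp_pos _).le).trans (le_of_eq ?_)
      rw [mul_left_comm, ← exp_add, f2]
      congr 2
      ring
  · -- lower deviations
    have k1 := lo2 (1 + θ) (by linarith) (by linarith)
    have k2 := up2 (1 + 2 * θ) (by linarith) (by linarith)
    have k3 := up2 1 (by norm_num) (by norm_num)
    rw [← hs] at k1
    rw [← e1] at k2
    rw [← e2] at k3
    obtain ⟨c0, hc0'⟩ : ∃ c0 : ℝ, c0 = cN * t - (1 + θ) * x * r := ⟨_, rfl⟩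
    obtain ⟨d0, hd0⟩ : ∃ d0 : ℝ, d0 = θ * x * r := ⟨_, rfl⟩
    have k4 := EN_tilt n (-s) h c0 d0 hh0
    rw [show -s + h = -(s - h) by ring, show -s - h = -(s + h) by ring] at k4
    have f1 : h * (c0 + d0) = h * (cN * t) - θ * 1 * x ^ 2 := by
      have := er θ 1
      rw [← hh] at this
      rw [← this, hc0', hd0]
      ring
    have f2 : h * (c0 - d0) = h * (cN * t) - θ * (1 + 2 * θ) * x ^ 2 := by
      have := er θ (1 + 2 * θ)
      rw [← hh] at this
      rw [← this, hc0', hd0]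
      ring
    have f3 : -s * c0 + |-s| * d0 = -(s * (cN * t)) + (1 + θ) * (1 + 2 * θ) * x ^ 2 := by
      have := er (1 + θ) (1 + 2 * θ)
      rw [← hs] at this
      rw [← this, abs_neg, abs_of_nonneg hs0, hc0', hd0]
      ring
    have k5 := md_fin (a := -(cN * s * t) + (1 + θ) ^ 2 * x ^ 2 / 2) (b := θ ^ 2 * x ^ 2 / 2)
      k1 (C := C) ?_ ?_ k4 hb
    · have f4 : -(cN * s * t) + (1 + θ) ^ 2 * x ^ 2 / 2 - (-s * c0 + |-s| * d0) =
          -((1 + θ) * (1 + 3 * θ) / 2 * x ^ 2) := by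
        rw [f3]
        ring
      rw [f4] at k5
      refine k5.trans (EN_mono' fun m => ?_)
      refine ind_mono fun hm => ?_
      have := (abs_le.1 hm).2
      rw [hc0', hd0] at this
      linarith
    · refine (mul_le_mul_of_nonneg_left k3 (exp_pos _).le).trans (le_of_eq ?_)
      rw [mul_left_comm, ← exp_add, f1]
      congr 2
      ring
    · refine (mul_le_mul_of_nonneg_left k2 (exp_pos _).le).trans (le_of_eq ?_)
      rw [mul_left_comm, ← exp_add, f2]
      congr 2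
      ring

end Pool.Agent.U154.NI
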