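import Pool.Agent.W819.EN.Geom
import Pool.Agent.H974R2.Split
import Pool.Agent.H974R2.Glue

/-!
A maximal inequality for events of nested finite sets of edges (decomposition at the first
passage).
-/

set_option autoImplicit false

namespace Pool.Agent.U154.NI

open H974 Finset Pool.Agent.W819.EN

/-- the first passage -/
theorem first_pass {a b : ℕ} {A : ℕ → Prop} (h : ∃ k ∈ Icc a b, A k) :
    ∃ k ∈ Icc a b, A k ∧ ∀ j ∈ Icc a b, j < k → ¬ A j := by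
  classical
  have h' : ∃ k, k ∈ Icc a b ∧ A k := by
    obtain ⟨k, h1, h2⟩ := h
    exact ⟨k, h1, h2⟩
  obtain ⟨h1, h2⟩ := Nat.find_spec h'
  refine ⟨Nat.find h', h1, h2, fun j hj hjk hA => ?_⟩
  exact Nat.find_min h' hjk ⟨hj, hA⟩

/-- at most one of the indices is the first passage -/
theorem sum_first {a b : ℕ} (A : ℕ → Prop) (C : Prop) :
    ∑ k ∈ Icc a b, ind ((A k ∧ ∀ j ∈ Icc a b, j < k → ¬ A j) ∧ C) ≤ ind C := by
  by_cases h : ∃ k ∈ Icc a b, A k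
  · obtain ⟨k, hk, hA, hmin⟩ := first_pass h
    rw [Finset.sum_eq_single_of_mem k hk]
    · exact ind_mono fun h => h.2
    · intro j hj hjk
      apply ind_not_of
      rintro ⟨⟨h1, h2⟩, -⟩
      rcases lt_or_gt_of_ne hjk with h3 | h3
      · exact hmin j hj h3 h1
      · exact h2 k hk h3 hA
  · rw [Finset.sum_eq_zero]
    · exact ind_nonneg _
    · intro k hk
      apply ind_not_of
      rintro ⟨⟨h1, -⟩, -⟩
      exact h ⟨k, hk, h1⟩

/-- The maximal inequality. -/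
theorem maxi {U : Finset Edg} {a b : ℕ} (S T : ℕ → Finset Edg)
    (A B G : ℕ → Finset Edg → Prop) (C : Finset Edg → Prop)
    (hS : ∀ k ∈ Icc a b, S k ⊆ U) (hT : ∀ k ∈ Icc a b, T k ⊆ U)
    (hd : ∀ k ∈ Icc a b, Disjoint (S k) (T k))
    (hSm : ∀ j ∈ Icc a b, ∀ k ∈ Icc a b, j ≤ k → S j ⊆ S k)
    (hA : ∀ k ∈ Icc a b, ∀ F, A k F ↔ A k (F ∩ S k))
    (hB : ∀ k ∈ Icc a b, ∀ F, B k F ↔ B k (F ∩ T k))
    (hh : ∀ k ∈ Icc a b, 1 / 2 ≤ Pr P2 U (B k))
    (hC : ∀ k ∈ Icc a b, ∀ F, F ⊆ U → A k F → B k F → C F ∨ G k F) :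
    Pr P2 U (fun F => ∃ k ∈ Icc a b, A k F) ≤
      2 * (Pr P2 U C + ∑ k ∈ Icc a b, Pr P2 U (G k)) := by
  have hok : Ok P2 := okhalf
  obtain ⟨D, hD⟩ : ∃ D : ℕ → Finset Edg → Prop,
      D = fun k F => A k F ∧ ∀ j ∈ Icc a b, j < k → ¬ A j F := ⟨_, rfl⟩
  have hDl : ∀ k ∈ Icc a b, ∀ F, D k F ↔ D k (F ∩ S k) := by
    intro k hk F
    rw [hD]
    refine and_congr (hA k hk F) (forall_congr' fun j => forall_congr' fun hj =>
      forall_congr' fun hjk => not_congr ?_)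
    rw [hA j hj F, hA j hj (F ∩ S k), inter_assoc, inter_eq_right.2 (hSm j hj k hk hjk.le)]
  have h1 : Pr P2 U (fun F => ∃ k ∈ Icc a b, A k F) ≤ ∑ k ∈ Icc a b, Pr P2 U (D k) := by
    refine le_trans (Pr_mono hok fun F _ h => ?_) (Pr_exists_le hok U (Icc a b) D)
    obtain ⟨k, hk, h1, h2⟩ := first_pass h
    exact ⟨k, hk, by rw [hD]; exact ⟨h1, h2⟩⟩
  have h2 : ∀ k ∈ Icc a b, Pr P2 U (D k) ≤
      2 * (Pr P2 U (fun F => D k F ∧ C F) + Pr P2 U (G k)) := by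
    intro k hk
    have e := Pr_indep (p := P2) (hS k hk) (hT k hk) (hd k hk) (A := D k) (B := B k)
      (fun F _ => hDl k hk F) (fun F _ => hB k hk F)
    have e1 : Pr P2 U (fun F => D k F ∧ B k F) ≤
        Pr P2 U (fun F => D k F ∧ C F) + Pr P2 U (G k) := by
      refine le_trans (Pr_mono hok fun F hF h => ?_) (Pr_or_le hok U _ _)
      obtain ⟨h3, h4⟩ := h
      have h5 := h3
      rw [hD] at h5
      rcases hC k hk F hF h5.1 h4 with h6 | h6
      · exact Or.inl ⟨h3, h6⟩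
      · exact Or.inr h6
    have e2 := mul_le_mul_of_nonneg_left (hh k hk) (Pr_nonneg hok U (D k))
    rw [e] at e1
    linarith
  have h3 : ∑ k ∈ Icc a b, Pr P2 U (fun F => D k F ∧ C F) ≤ Pr P2 U C := by
    unfold Pr
    rw [← Ex_sum]
    refine Ex_mono hok fun F _ => ?_
    rw [hD]
    exact sum_first (fun k => A k F) (C F)
  calc Pr P2 U (fun F => ∃ k ∈ Icc a b, A k F) ≤ ∑ k ∈ Icc a b, Pr P2 U (D k) := h1
    _ ≤ ∑ k ∈ Icc a b, 2 * (Pr P2 U (fun F => D k F ∧ C F) + Pr P2 U (G k)) :=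
        Finset.sum_le_sum h2
    _ = 2 * (∑ k ∈ Icc a b, Pr P2 U (fun F => D k F ∧ C F) +
          ∑ k ∈ Icc a b, Pr P2 U (G k)) := by
        rw [← Finset.mul_sum, Finset.sum_add_distrib]
    _ ≤ _ := by linarith

end Pool.Agent.U154.NI
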