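import Pool.Agent.U154.NI.Tr

/-!
Upper and lower bounds of the deviations of the number of layers up to the distance `2 ^ K`.
-/

set_option autoImplicit false

namespace Pool.Agent.U154.NI

open H974 Finset Real Filter Topology Pool.Agent.H863R2.NL Pool.Agent.H863R2.NL.PowAux Pool.Agent.H450R4.NL

/-- Chernoff bounds -/
theorem tail_fin : ∃ C : ℝ, 0 < C ∧ ∀ (n : ℕ) (y : ℝ), 1 ≤ n → 0 < √(vN * log n) → 0 ≤ y →
    2 * y ≤ √(vN * log n) → cN * y ^ 3 * log n ≤ √(vN * log n) ^ 3 →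
    ET n (fun m => ind (cN * log n + y * √(vN * log n) ≤ m)) ≤ C * exp (-(y ^ 2 / 2)) ∧
    ET n (fun m => ind ((m : ℝ) ≤ cN * log n - y * √(vN * log n))) ≤
      C * exp (-(y ^ 2 / 2)) := by
  obtain ⟨C1, hC1, h1⟩ := mom_up
  obtain ⟨C2, hC2, h2⟩ := mom_dn
  have hcN := cN_pos
  have hvN := vN_pos
  refine ⟨max C1 C2 * exp 1, mul_pos (lt_max_of_lt_left hC1) (exp_pos _), ?_⟩
  intro n y hn hr0 hy hy1 hy2
  have ht0 : 0 ≤ log (n : ℝ) := log_nonneg (by exact_mod_cast hn)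
  obtain ⟨r, hr⟩ : ∃ r : ℝ, r = √(vN * log n) := ⟨_, rfl⟩
  have hr2 : r ^ 2 = vN * log n := by rw [hr]; exact sq_sqrt (by positivity)
  rw [← hr] at hr0 hy1 hy2 ⊢
  obtain ⟨t, ht⟩ : ∃ t : ℝ, t = log n := ⟨_, rfl⟩
  obtain ⟨l, hl⟩ : ∃ l : ℝ, l = y / r := ⟨_, rfl⟩
  have hl0 : 0 ≤ l := by rw [hl]; positivity
  have hl1 : l ≤ 1 / 2 := by rw [hl, div_le_iff₀ hr0]; linarith
  have k1 := h1 l hl0 hl1 n hn
  have k2 := h2 l hl0 hl1 n hn
  rw [← ht] at hy2 ht0 hr2 k1 k2 ⊢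
  have hlr : l * r = y := by rw [hl]; field_simp
  have q1 : vN * l ^ 2 / 2 * t = y ^ 2 / 2 := by
    rw [← hlr, mul_pow, hr2]; ring
  have q2 : cN * l ^ 3 * t ≤ 1 := by
    have e : cN * l ^ 3 * t = cN * y ^ 3 * t / r ^ 3 := by
      rw [hl]; field_simp
    rw [e, div_le_one (by positivity)]
    exact hy2
  constructor
  · have h3 : ET n (fun m => ind (cN * t + y * r ≤ m)) ≤
        ET n (fun m => exp (-(l * (cN * t + y * r))) * exp l ^ m) := by
      refine ET_le_ET fun m => ?_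
      rw [← exp_nat_mul, ← exp_add]
      by_cases h : cN * t + y * r ≤ m
      · rw [ind_of h]
        apply one_le_exp
        have := mul_le_mul_of_nonneg_left h hl0
        linarith
      · rw [ind_not_of h]
        exact (exp_pos _).le
    rw [ET_mul] at h3
    refine h3.trans ((mul_le_mul_of_nonneg_left k1 (exp_pos _).le).trans ?_)
    rw [mul_left_comm, ← exp_add, mul_assoc, ← exp_add]
    refine mul_le_mul (le_max_left _ _) (exp_le_exp.2 ?_) (exp_pos _).le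
      (hC1.le.trans (le_max_left _ _))
    have e2 : l * (cN * t + y * r) = cN * l * t + y ^ 2 := by
      rw [← hlr]; ring
    rw [e2]
    linarith
  · have h3 : ET n (fun m => ind ((m : ℝ) ≤ cN * t - y * r)) ≤
        ET n (fun m => exp (l * (cN * t - y * r)) * exp (-l) ^ m) := by
      refine ET_le_ET fun m => ?_
      rw [← exp_nat_mul, ← exp_add]
      by_cases h : (m : ℝ) ≤ cN * t - y * r
      · rw [ind_of h]
        apply one_le_exp
        have := mul_le_mul_of_nonneg_left h hl0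
        linarith
      · rw [ind_not_of h]
        exact (exp_pos _).le
    rw [ET_mul] at h3
    refine h3.trans ((mul_le_mul_of_nonneg_left k2 (exp_pos _).le).trans ?_)
    rw [mul_left_comm, ← exp_add, mul_assoc, ← exp_add]
    refine mul_le_mul (le_max_right _ _) (exp_le_exp.2 ?_) (exp_pos _).le
      (hC1.le.trans (le_max_left _ _))
    have e2 : l * (cN * t - y * r) = cN * l * t - y ^ 2 := by
      rw [← hlr]; ring
    rw [e2]
    linarith

/-- upper bounds for the moderate deviations -/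
theorem tail_K (D : ℝ) (hD : 0 ≤ D) : ∃ C : ℝ, 0 < C ∧ ∀ᶠ K : ℕ in atTop, ∀ y : ℝ, 0 ≤ y →
    y ^ 2 ≤ D * log (log (tK K)) →
    ET (2 ^ K) (fun m => ind (cN * tK K + y * √(vN * tK K) ≤ m)) ≤ C * exp (-(y ^ 2 / 2)) ∧
    ET (2 ^ K) (fun m => ind ((m : ℝ) ≤ cN * tK K - y * √(vN * tK K))) ≤
      C * exp (-(y ^ 2 / 2)) := by
  obtain ⟨C, hC, h⟩ := tail_fin
  have hcN := cN_pos
  have hvN := vN_pos
  refine ⟨C, hC, ?_⟩
  filter_upwards [tend_tK.eventually (ll_lin (4 * D / vN) (by positivity)),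
    tend_tK.eventually (ll_cube (cN ^ 2 * D ^ 3 / vN ^ 3)),
    tend_tK.eventually_gt_atTop 0, tend_tK.eventually (tend_ll.eventually_ge_atTop 0)]
    with K k1 k2 k3 k4 y hy0 hy
  obtain ⟨t, ht⟩ : ∃ t : ℝ, t = tK K := ⟨_, rfl⟩
  have e : log ((2 ^ K : ℕ) : ℝ) = t := by rw [tK_eq, ht]
  have hr0 : 0 < √(vN * t) := sqrt_pos.2 (mul_pos hvN (by rw [ht]; exact k3))
  have h' := h (2 ^ K) y Nat.one_le_two_pow
  rw [e] at h'
  rw [← ht] at k1 k2 k3 k4 hy ⊢
  obtain ⟨u, hu⟩ : ∃ u : ℝ, u = log (log t) := ⟨_, rfl⟩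
  rw [← hu] at k1 k2 k4 hy
  refine h' hr0 hy0 ?_ ?_
  · apply le_sqrt_of_sq_le
    rw [mul_pow]
    have e1 : 4 * D / vN * u * vN = 4 * (D * u) := by field_simp
    have e2 : 4 * D / vN * u * vN ≤ t * vN := mul_le_mul_of_nonneg_right k1 hvN.le
    rw [e1] at e2
    linarith
  · have hs2 : √(vN * t) ^ 2 = vN * t := sq_sqrt (by positivity)
    have e1 : cN * y ^ 3 ≤ vN * √(vN * t) := by
      apply le_of_sq_le_sq _ (by positivity)
      rw [mul_pow vN, hs2, mul_pow, ← pow_mul, show 3 * 2 = 2 * 3 by norm_num, pow_mul]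
      have e2 : (y ^ 2) ^ 3 ≤ (D * u) ^ 3 := pow_le_pow_left₀ (by positivity) hy 3
      have e3 : cN ^ 2 * (y ^ 2) ^ 3 ≤ cN ^ 2 * (D * u) ^ 3 :=
        mul_le_mul_of_nonneg_left e2 (by positivity)
      have e4 : cN ^ 2 * D ^ 3 / vN ^ 3 * u ^ 3 * vN ^ 3 ≤ t * vN ^ 3 :=
        mul_le_mul_of_nonneg_right k2 (by positivity)
      have e5 : cN ^ 2 * D ^ 3 / vN ^ 3 * u ^ 3 * vN ^ 3 = cN ^ 2 * (D * u) ^ 3 := by
        field_simp
      rw [e5] at e4
      calc cN ^ 2 * (y ^ 2) ^ 3 ≤ cN ^ 2 * (D * u) ^ 3 := e3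
        _ ≤ t * vN ^ 3 := e4
        _ = _ := by ring
    calc cN * y ^ 3 * t ≤ vN * √(vN * t) * t := mul_le_mul_of_nonneg_right e1 k3.le
      _ = √(vN * t) ^ 2 * √(vN * t) := by rw [hs2]; ring
      _ = _ := by ring

/-- upper bounds with the norming function -/
theorem tail_nrm (D : ℝ) (hD : 0 ≤ D) : ∃ C : ℝ, 0 < C ∧ ∀ᶠ K : ℕ in atTop, ∀ z : ℝ, 0 ≤ z →
    z ≤ D →
    ET (2 ^ K) (fun m => ind (cN * tK K + z * nrm vN (tK K) ≤ m)) ≤
      C * exp (-(z ^ 2 * log (log (tK K)))) ∧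
    ET (2 ^ K) (fun m => ind ((m : ℝ) ≤ cN * tK K - z * nrm vN (tK K))) ≤
      C * exp (-(z ^ 2 * log (log (tK K)))) := by
  obtain ⟨C, hC, h⟩ := tail_K (D ^ 2 * 2) (by positivity)
  have hvN := vN_pos
  refine ⟨C, hC, ?_⟩
  filter_upwards [h, tend_tK.eventually_gt_atTop 0,
    tend_tK.eventually (tend_ll.eventually_ge_atTop 0)] with K k1 k3 k4 z hz0 hz
  have h2 : 0 ≤ 2 * log (log (tK K)) := by linarith
  have k5 := k1 (z * √(2 * log (log (tK K)))) (by positivity) (by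
    rw [mul_pow, sq_sqrt h2]
    have : z ^ 2 ≤ D ^ 2 := pow_le_pow_left₀ hz0 hz 2
    nlinarith)
  rw [mul_pow, sq_sqrt h2, mul_assoc, ← nrm_eq hvN.le k3.le] at k5
  rw [show z ^ 2 * (2 * log (log (tK K))) / 2 = z ^ 2 * log (log (tK K)) by ring] at k5
  exact k5

/-- lower bounds for the moderate deviations -/
theorem low_dev {ε : ℝ} (h0 : 0 < ε) (h1 : ε ≤ 1) : ∀ᶠ K : ℕ in atTop,
    exp (-((1 - ε / 8) * log (log (tK K)))) ≤
      ET (2 ^ K) (fun m => ind (cN * tK K + (1 - ε) * nrm vN (tK K) ≤ m)) ∧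
    exp (-((1 - ε / 8) * log (log (tK K)))) ≤
      ET (2 ^ K) (fun m => ind ((m : ℝ) ≤ cN * tK K - (1 - ε) * nrm vN (tK K))) := by
  obtain ⟨c, hc, h⟩ := low_common h0 h1
  have hcN := cN_pos
  have hvN := vN_pos
  have hlog3 : 0 ≤ log 3 := log_nonneg (by norm_num)
  obtain ⟨ρ, hρ⟩ : ∃ ρ : ℝ, ρ = 1 - (1/2 : ℝ) ^ 47 := ⟨_, rfl⟩
  have hρ0 : 0 < ρ := by rw [hρ]; norm_num
  have hρ1 : ρ < 1 := by rw [hρ]; norm_num
  have hlρ : 0 < -log ρ := by
    have := log_neg hρ0 hρ1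
    linarith
  have hlim : Tendsto (fun K : ℕ => log (log (tK K))) atTop atTop := tend_ll.comp tend_tK
  have hexp : ∀ b x : ℝ, 0 < b → 0 < x → ∀ᶠ K : ℕ in atTop, exp (-(b * log (log (tK K)))) ≤ x := by
    intro b x hb hx
    have : Tendsto (fun K : ℕ => exp (-(b * log (log (tK K))))) atTop (𝓝 0) :=
      tendsto_exp_neg_atTop_nhds_zero.comp (hlim.const_mul_atTop hb)
    exact this.eventually_le_const hx
  filter_upwards [tend_tK.eventually h, eventually_ge_atTop 2,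
    tend_tK.eventually (nrm_ge hvN (10 * (2 / (-log ρ)) * (2 / ε)) (11 * (2 / ε))),
    tend_tK.eventually (nrm_ge hvN 0 (cN * log 3 * (2 / ε))),
    hexp 1 (c / 12) one_pos (by positivity), hexp (3 * ε / 16) (c / 2) (by positivity) (by positivity),
    hlim.eventually_ge_atTop 0, tend_tK.eventually_gt_atTop 0] with K k1 k2 k3 k4 k5 k6 k7 k8
  obtain ⟨t, ht⟩ : ∃ t : ℝ, t = tK K := ⟨_, rfl⟩
  have e0 : log ((2 ^ K : ℕ) : ℝ) = t := by rw [tK_eq, ht]
  rw [← ht] at k1 k3 k4 k5 k6 k7 k8 ⊢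
  obtain ⟨u, hu⟩ : ∃ u : ℝ, u = log (log t) := ⟨_, rfl⟩
  have enrm : nrm vN t = √(2 * u) * √(vN * t) := by rw [hu]; exact nrm_eq hvN.le k8.le
  rw [← hu] at k1 k3 k4 k5 k6 k7 ⊢
  have hN0 := nrm_nonneg vN t
  obtain ⟨N, hN⟩ : ∃ N : ℝ, N = nrm vN t := ⟨_, rfl⟩
  rw [← hN] at k3 k4 enrm hN0 ⊢
  -- the exponents
  have x1 : exp (-((1 - ε / 8) * u)) ≤ c / 2 * exp (-((1 - 5 * ε / 16) * u)) := by
    have e : exp (-((1 - ε / 8) * u)) = exp (-(3 * ε / 16 * u)) * exp (-((1 - 5 * ε / 16) * u)) := by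
      rw [← exp_add]
      congr 1
      ring
    rw [e]
    exact mul_le_mul_of_nonneg_right k6 (exp_pos _).le
  have x2 : exp (-(1 * u)) ≤ exp (-((1 - 5 * ε / 16) * u)) := by
    apply exp_le_exp.2
    nlinarith
  have hx5 : 0 < exp (-((1 - 5 * ε / 16) * u)) := exp_pos _
  constructor
  · obtain ⟨κ, hκ⟩ : ∃ κ : ℕ, κ = ⌈2 * u / (-log ρ)⌉₊ := ⟨_, rfl⟩
    have hκ1 : 2 * u / (-log ρ) ≤ κ := by rw [hκ]; exact Nat.le_ceil _
    have hκ2 : (κ : ℝ) ≤ 2 / (-log ρ) * u + 1 := by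
      have := Nat.ceil_lt_add_one (show 0 ≤ 2 * u / (-log ρ) by positivity)
      rw [← hκ] at this
      have e : 2 * u / (-log ρ) = 2 / (-log ρ) * u := by ring
      linarith
    obtain ⟨a, ha⟩ : ∃ a : ℕ, a = 2 ^ (K - 2) := ⟨_, rfl⟩
    have ha0 : 0 < a := by rw [ha]; positivity
    have ha4 : 4 * a = 2 ^ K := by
      rw [ha]
      have : K = 2 + (K - 2) := by omega
      conv_rhs => rw [this]
      rw [pow_add]
      norm_num
    have hlog : t ≤ log ((10 * a : ℕ) : ℝ) := by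
      rw [← e0]
      apply log_le_log (by positivity)
      rw [← ha4]
      push_cast
      have : (0:ℝ) < a := by exact_mod_cast ha0
      linarith
    have j1 := (k1 (10 * a) (by omega) hlog).1
    have j2 := tr_up κ ha0 (cN * log ((10 * a : ℕ) : ℝ) +
      (1 - ε / 2) * √(2 * u) * √(vN * log ((10 * a : ℕ) : ℝ)))
    rw [ha4, ← hρ] at j2
    have j3 : 6 * ρ ^ (κ + 1) ≤ c / 2 * exp (-((1 - 5 * ε / 16) * u)) := by
      have i1 : ρ ^ (κ + 1) ≤ exp (-(2 * u)) := by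
        rw [← exp_log (pow_pos hρ0 (κ + 1)), log_pow]
        apply exp_le_exp.2
        push_cast
        rw [div_le_iff₀ hlρ] at hκ1
        nlinarith
      have i2 : exp (-(2 * u)) = exp (-(1 * u)) * exp (-(1 * u)) := by
        rw [← exp_add]
        congr 1
        ring
      have i3 : exp (-(1 * u)) * exp (-(1 * u)) ≤ c / 12 * exp (-((1 - 5 * ε / 16) * u)) :=
        mul_le_mul k5 x2 (exp_pos _).le (by positivity)
      rw [← i2] at i3
      linarith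
    have j4 : ET (2 ^ K) (fun m => ind (cN * log ((10 * a : ℕ) : ℝ) +
        (1 - ε / 2) * √(2 * u) * √(vN * log ((10 * a : ℕ) : ℝ)) ≤
          ((m + 1 + 10 * κ : ℕ) : ℝ))) ≤
        ET (2 ^ K) (fun m => ind (cN * t + (1 - ε) * N ≤ m)) := by
      refine ET_le_ET fun m => ind_mono fun hm => ?_
      have i1 : cN * t ≤ cN * log ((10 * a : ℕ) : ℝ) := mul_le_mul_of_nonneg_left hlog hcN.le
      have i2 : √(vN * t) ≤ √(vN * log ((10 * a : ℕ) : ℝ)) :=
        sqrt_le_sqrt (mul_le_mul_of_nonneg_left hlog hvN.le)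
      have i3 : (1 - ε / 2) * √(2 * u) * √(vN * t) ≤
          (1 - ε / 2) * √(2 * u) * √(vN * log ((10 * a : ℕ) : ℝ)) :=
        mul_le_mul_of_nonneg_left i2 (mul_nonneg (by linarith) (sqrt_nonneg _))
      have i4 : (1 - ε / 2) * √(2 * u) * √(vN * t) = (1 - ε / 2) * N := by
        rw [enrm]; ring
      push_cast at hm
      have i5 : 10 * (2 / (-log ρ) * u) + 11 ≤ ε / 2 * N := by
        have := mul_le_mul_of_nonneg_left k3 (show 0 ≤ ε / 2 by positivity)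
        have e6 : ε / 2 * (10 * (2 / (-log ρ)) * (2 / ε) * u + 11 * (2 / ε)) =
            10 * (2 / (-log ρ) * u) + 11 := by
          have : -log ρ ≠ 0 := hlρ.ne'
          field_simp
        rw [e6] at this
        exact this
      push_cast at i1 i3
      linarith
    calc exp (-((1 - ε / 8) * u)) ≤ c / 2 * exp (-((1 - 5 * ε / 16) * u)) := x1
      _ ≤ c * exp (-((1 - 5 * ε / 16) * u)) - 6 * ρ ^ (κ + 1) := by linarith
      _ ≤ _ := by linarith
  · have hn3 : 2 * 2 ^ K < 2 * 2 ^ K + 1 := Nat.lt_succ_self _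
    have hlog : t ≤ log ((2 * 2 ^ K + 1 : ℕ) : ℝ) := by
      rw [← e0]
      apply log_le_log (by positivity)
      exact_mod_cast (by omega : 2 ^ K ≤ 2 * 2 ^ K + 1)
    have hlog3' : log ((2 * 2 ^ K + 1 : ℕ) : ℝ) ≤ t + log 3 := by
      rw [← e0, ← log_mul (by positivity) (by norm_num)]
      apply log_le_log (by positivity)
      have : (1:ℝ) ≤ 2 ^ K := one_le_pow₀ (by norm_num)
      push_cast
      linarith
    have j1 := (k1 (2 * 2 ^ K + 1) (by omega) hlog).2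
    have j2 := tr_dn hn3 (cN * log ((2 * 2 ^ K + 1 : ℕ) : ℝ) -
      (1 - ε / 2) * √(2 * u) * √(vN * log ((2 * 2 ^ K + 1 : ℕ) : ℝ)))
    have j4 : ET (2 ^ K) (fun m => ind ((m : ℝ) ≤ cN * log ((2 * 2 ^ K + 1 : ℕ) : ℝ) -
        (1 - ε / 2) * √(2 * u) * √(vN * log ((2 * 2 ^ K + 1 : ℕ) : ℝ)))) ≤
        ET (2 ^ K) (fun m => ind ((m : ℝ) ≤ cN * t - (1 - ε) * N)) := by
      refine ET_le_ET fun m => ind_mono fun hm => ?_
      have i1 : cN * log ((2 * 2 ^ K + 1 : ℕ) : ℝ) ≤ cN * (t + log 3) :=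
        mul_le_mul_of_nonneg_left hlog3' hcN.le
      have i2 : √(vN * t) ≤ √(vN * log ((2 * 2 ^ K + 1 : ℕ) : ℝ)) :=
        sqrt_le_sqrt (mul_le_mul_of_nonneg_left hlog hvN.le)
      have i3 : (1 - ε / 2) * √(2 * u) * √(vN * t) ≤
          (1 - ε / 2) * √(2 * u) * √(vN * log ((2 * 2 ^ K + 1 : ℕ) : ℝ)) :=
        mul_le_mul_of_nonneg_left i2 (mul_nonneg (by linarith) (sqrt_nonneg _))
      have i4 : (1 - ε / 2) * √(2 * u) * √(vN * t) = (1 - ε / 2) * N := by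
        rw [enrm]; ring
      have i5 : cN * log 3 ≤ ε / 2 * N := by
        have := mul_le_mul_of_nonneg_left k4 (show 0 ≤ ε / 2 by positivity)
        have e6 : ε / 2 * (0 * u + cN * log 3 * (2 / ε)) = cN * log 3 := by
          field_simp
          ring
        rw [e6] at this
        exact this
      linarith
    calc exp (-((1 - ε / 8) * u)) ≤ c / 2 * exp (-((1 - 5 * ε / 16) * u)) := x1
      _ ≤ c * exp (-((1 - 5 * ε / 16) * u)) := by nlinarith
      _ ≤ _ := j1.trans (j2.trans j4)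

end Pool.Agent.U154.NI
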