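import Pool.Agent.W819.EN.Bridge
import Pool.Agent.W918.EN.Loc
import Pool.Agent.W21.EN.Tr
import Pool.Agent.W38.EN.Cir
import Pool.Agent.W108.EN.LTail
import Pool.Agent.W320.EN.Tail
import Pool.Agent.W320.EN.Slab
import Pool.Agent.W554.EN2.Sum
import Pool.Agent.H863R2.NL.CutBK
import Pool.Agent.U154.NI.Mx
import Pool.Agent.U154.NI.Tl

/-!
The numbers of layers at the dyadic scales: localization, almost additivity, maximal inequalities.
-/

set_option autoImplicit false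

namespace Pool.Agent.U154.NI

open H974 Finset Real Filter Topology Pool.Agent.W819.EN Pool.Agent.H863R2.NL.PowAux
  Pool.Agent.H450R4.NL
open Pool.Agent.H863R2.NL (cN vN ET)

theorem geo : Geo NA :=
  geo_of Pool.Agent.W918.EN.t_LOC Pool.Agent.W21.EN.t_TR Pool.Agent.W21.EN.t_MONO
    Pool.Agent.W21.EN.t_SUPER Pool.Agent.W38.EN.t_CIR0 Pool.Agent.W38.EN.t_RAD

theorem ltl : LTail := Pool.Agent.W108.EN.t_LTAIL (Pool.Agent.W320.EN.t_TAIL
  (Pool.Agent.W320.EN.t_SLAB (fun k a b c d => Pool.Agent.H863R2.NL.opn_LRc k a b c d)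
    Pool.Agent.W554.EN2.t_SUM))

/-- the edges of the box of radius `2 ^ k` -/
noncomputable def Bk (k : ℕ) : Finset Edg := boxE (2 ^ k)

/-- the edges of the annulus between `2 ^ (k + 1)` and `2 ^ K` -/
noncomputable def Ak (k K : ℕ) : Finset Edg := an (0, 0) (2 ^ (k + 1)) (2 ^ K)

/-- the number of layers up to the distance `2 ^ k` -/
noncomputable def Tn (F : Finset Edg) (k : ℕ) : ℕ := NA F (0, 0) 0 (2 ^ k)

/-- the number of layers between the distances `2 ^ (k + 1)` and `2 ^ K` -/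
noncomputable def Am (F : Finset Edg) (k K : ℕ) : ℕ := NA F (0, 0) (2 ^ (k + 1)) (2 ^ K)

theorem bx_eq (n : ℕ) : bx (0, 0) (n : ℤ) = boxE n := bx_zero n

theorem bx_Bk (k : ℕ) : bx (0, 0) ((2 ^ k : ℕ) : ℤ) = Bk k := bx_zero _

theorem Bk_mono {j k : ℕ} (h : j ≤ k) : Bk j ⊆ Bk k :=
  boxE_mono (Nat.pow_le_pow_right (by norm_num) h)

theorem Ak_sub (k K : ℕ) : Ak k K ⊆ Bk K := by
  unfold Ak an
  rw [bx_Bk]
  exact sdiff_subset

theorem disj_Ak (k K : ℕ) : Disjoint (Bk k) (Ak k K) := by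
  unfold Ak an
  refine disjoint_sdiff.mono_left ?_
  have e : ((2 ^ (k + 1) : ℕ) : ℤ) - 1 = ((2 ^ (k + 1) - 1 : ℕ) : ℤ) := by
    have : 1 ≤ 2 ^ (k + 1) := Nat.one_le_two_pow
    push_cast [this]
    rfl
  rw [e, bx_eq]
  apply boxE_mono
  have : 1 ≤ 2 ^ k := Nat.one_le_two_pow
  rw [pow_succ]
  omega

theorem Ak_disj {i j : ℕ} (k : ℕ → ℕ) (hk : Monotone k) (hij : i < j) :
    Disjoint (Ak (k i) (k (i + 1))) (Ak (k j) (k (j + 1))) :=
  (disj_Ak (k j) (k (j + 1))).mono_left ((Ak_sub _ _).trans (Bk_mono (hk hij)))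

theorem Tn_loc {k : ℕ} {S : Finset Edg} (h : Bk k ⊆ S) (F : Finset Edg) :
    Tn (F ∩ S) k = Tn F k := by
  unfold Tn
  rw [geo.loc F (0, 0) 0 (2 ^ k) (Nat.zero_le _), geo.loc (F ∩ S) (0, 0) 0 (2 ^ k) (Nat.zero_le _),
    inter_assoc]
  congr 2
  apply inter_eq_right.2
  refine subset_trans ?_ h
  unfold an
  rw [bx_Bk]
  exact sdiff_subset

theorem Am_loc {k K : ℕ} (hk : k + 1 ≤ K) {S : Finset Edg} (h : Ak k K ⊆ S) (F : Finset Edg) :
    Am (F ∩ S) k K = Am F k K := by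
  have h2 : 2 ^ (k + 1) ≤ 2 ^ K := Nat.pow_le_pow_right (by norm_num) hk
  unfold Am
  rw [geo.loc F (0, 0) _ _ h2, geo.loc (F ∩ S) (0, 0) _ _ h2, inter_assoc]
  congr 2
  exact inter_eq_right.2 h

theorem Tn_super {k K : ℕ} (hk : k + 1 ≤ K) (F : Finset Edg) : Tn F k + Am F k K ≤ Tn F K :=
  geo.super F (0, 0) 0 (2 ^ k) (2 ^ (k + 1)) (2 ^ K) (Nat.zero_le _)
    (Nat.pow_lt_pow_right (by norm_num) (Nat.lt_succ_self _))
    (Nat.pow_le_pow_right (by norm_num) hk)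

theorem Tn_mono {k K : ℕ} (hk : k ≤ K) (F : Finset Edg) : Tn F k ≤ Tn F K :=
  geo.mono F (0, 0) 0 0 (2 ^ k) (2 ^ K) le_rfl (Nat.pow_le_pow_right (by norm_num) hk)

theorem Tn_link {k K : ℕ} (hk : 1 ≤ k) (hK : k + 2 ≤ K) {κ : ℕ} {F : Finset Edg}
    (h : Lnk (0, 0) (2 ^ (k - 1)) κ F) : Tn F K ≤ Tn F k + Am F k K + (4 + 18 * κ) := by
  have e1 : 2 * 2 ^ (k - 1) = 2 ^ k := by
    rw [← pow_succ']
    congr 1
    omega
  have e2 : 4 * 2 ^ (k - 1) = 2 ^ (k + 1) := by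
    rw [pow_succ' 2 k, ← e1]
    ring
  have e3 : 8 * 2 ^ (k - 1) = 2 ^ (k + 2) := by
    rw [pow_add 2 k 2, ← e1]
    ring
  have h1 := geo.link F (0, 0) (2 ^ (k - 1)) κ 0 (2 ^ K) Nat.one_le_two_pow (Nat.zero_le _)
    (by rw [e3]; exact Nat.pow_le_pow_right (by norm_num) hK) h
  rw [e1, e2] at h1
  exact h1

theorem hok : Ok P2 := okhalf

/-- the law of the number of layers -/
theorem Pr_Tn {k K : ℕ} (hk : k ≤ K) (Q : ℕ → Prop) :
    Pr P2 (Bk K) (fun F => Q (Tn F k)) = ET (2 ^ k) (fun m => ind (Q m)) := by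
  rw [ET_eq]
  have h : Pr P2 (Bk K) (fun F => Q (Tn F k)) = Pr P2 (Bk k) (fun F => Q (Tn F k)) := by
    apply Pr_local (Bk_mono hk)
    intro F _
    rw [Tn_loc (subset_refl _)]
  rw [h, bx_Bk]
  rfl

theorem Pr_Am {k K : ℕ} (hk : k + 1 ≤ K) (Q : ℕ → Prop) :
    Pr P2 (Bk K) (fun F => Q (Am F k K)) = Pr P2 (Ak k K) (fun F => Q (Am F k K)) := by
  apply Pr_local (Ak_sub k K)
  intro F _
  rw [Am_loc hk (subset_refl _)]

theorem Pr_Lnk {ρ : ℝ} (hρ : 0 < ρ) : ∃ C : ℝ, 0 < C ∧ ∀ k K : ℕ, 1 ≤ k → k + 2 ≤ K → ∀ κ : ℕ,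
    Pr P2 (Bk K) (fun F => ¬ Lnk (0, 0) (2 ^ (k - 1)) κ F) ≤ C * ρ ^ κ := by
  obtain ⟨C, hC, h⟩ := ltl ρ hρ
  refine ⟨C, hC, fun k K hk hK κ => h (2 ^ (k - 1)) (0, 0) (Bk K) Nat.one_le_two_pow ?_ κ⟩
  have e3 : (8 * (2 ^ (k - 1) : ℕ) : ℤ) = ((2 ^ (k + 2) : ℕ) : ℤ) := by
    have : 8 * 2 ^ (k - 1) = 2 ^ (k + 2) := by
      have : 2 ^ 3 * 2 ^ (k - 1) = 2 ^ (k + 2) := by
        rw [← pow_add]
        congr 1
        omega
      exact this
    exact_mod_cast this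
  rw [e3, bx_Bk]
  exact Bk_mono hK

/-- concentration -/
theorem conc : ∃ c1 : ℝ, 0 < c1 ∧ ∀ k K : ℕ, 1 ≤ K → k ≤ K →
    ET (2 ^ k) (fun m => ind (cN * tK k + c1 * √K ≤ m)) ≤ 1 / 16 ∧
    ET (2 ^ k) (fun m => ind ((m : ℝ) ≤ cN * tK k - c1 * √K)) ≤ 1 / 16 := by
  obtain ⟨C1, hC1, h1⟩ := mom_up
  obtain ⟨C2, hC2, h2⟩ := mom_dn
  have hcN := cN_pos
  have hvN := vN_pos
  obtain ⟨C, hC⟩ : ∃ C : ℝ, C = max C1 C2 * exp (vN + cN) := ⟨_, rfl⟩
  have hC0 : 0 < C := by rw [hC]; exact mul_pos (lt_max_of_lt_left hC1) (exp_pos _)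
  refine ⟨2 * log (16 * C + 16), mul_pos two_pos (log_pos (by linarith)), ?_⟩
  intro k K hK hkK
  obtain ⟨c, hc⟩ : ∃ c : ℝ, c = log (16 * C + 16) := ⟨_, rfl⟩
  have hec : C * exp (-c) ≤ 1 / 16 := by
    rw [hc, exp_neg, exp_log (by positivity), ← div_eq_mul_inv, div_le_iff₀ (by positivity)]
    linarith
  rw [← hc]
  have hK1 : (1:ℝ) ≤ K := by exact_mod_cast hK
  have hs1 : 1 ≤ √(K:ℝ) := one_le_sqrt.2 hK1
  have hs0 : 0 < √(K:ℝ) := by linarith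
  have hs2 : √(K:ℝ) ^ 2 = K := sq_sqrt (by linarith)
  obtain ⟨l, hl⟩ : ∃ l : ℝ, l = 1 / (2 * √(K:ℝ)) := ⟨_, rfl⟩
  have hl0 : 0 ≤ l := by rw [hl]; positivity
  have hl1 : l ≤ 1 / 2 := by
    rw [hl]
    apply one_div_le_one_div_of_le (by norm_num)
    linarith
  have hlK : l * √(K:ℝ) = 1 / 2 := by rw [hl]; field_simp
  have ht0 : 0 ≤ tK k := mul_nonneg (Nat.cast_nonneg _) log2_pos.le
  have htK : tK k ≤ K := by
    unfold tK
    have h3 : (k:ℝ) ≤ K := by exact_mod_cast hkK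
    have h4 : log 2 ≤ 1 := by
      have := log_le_sub_one_of_pos (show (0:ℝ) < 2 by norm_num)
      linarith
    calc (k:ℝ) * log 2 ≤ K * 1 := mul_le_mul h3 h4 log2_pos.le (by linarith)
      _ = K := mul_one _
  have hl2 : l ^ 2 * tK k ≤ 1 / 4 := by
    have h3 : l ^ 2 * K = 1 / 4 := by
      rw [← hs2, ← mul_pow, hlK]
      norm_num
    rw [← h3]
    exact mul_le_mul_of_nonneg_left htK (by positivity)
  have hl3 : l ^ 3 * tK k ≤ 1 / 4 := by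
    have h3 : l ^ 3 * tK k = l * (l ^ 2 * tK k) := by ring
    rw [h3]
    calc l * (l ^ 2 * tK k) ≤ 1 * (1 / 4) :=
          mul_le_mul (by linarith) hl2 (by positivity) (by norm_num)
      _ = 1 / 4 := one_mul _
  have k1 := h1 l hl0 hl1 (2 ^ k) Nat.one_le_two_pow
  have k2 := h2 l hl0 hl1 (2 ^ k) Nat.one_le_two_pow
  rw [tK_eq] at k1 k2
  have e3 : l * (2 * c * √(K:ℝ)) = c := by
    calc l * (2 * c * √(K:ℝ)) = 2 * c * (l * √(K:ℝ)) := by ring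
      _ = c := by rw [hlK]; ring
  have q1 : vN * l ^ 2 / 2 * tK k ≤ vN := by
    calc vN * l ^ 2 / 2 * tK k = vN * (l ^ 2 * tK k / 2) := by ring
      _ ≤ vN * 1 := mul_le_mul_of_nonneg_left (by linarith) hvN.le
      _ = vN := mul_one _
  have q2 : cN * l ^ 3 * tK k ≤ cN := by
    calc cN * l ^ 3 * tK k = cN * (l ^ 3 * tK k) := by ring
      _ ≤ cN * 1 := mul_le_mul_of_nonneg_left (by linarith) hcN.le
      _ = cN := mul_one _
  constructor
  · have h3 : ET (2 ^ k) (fun m => ind (cN * tK k + 2 * c * √K ≤ m)) ≤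
        ET (2 ^ k) (fun m => exp (-(l * (cN * tK k + 2 * c * √K))) * exp l ^ m) := by
      refine Pool.Agent.H863R2.NL.ET_le_ET fun m => ?_
      rw [← exp_nat_mul, ← exp_add]
      by_cases h : cN * tK k + 2 * c * √K ≤ m
      · rw [ind_of h]
        apply one_le_exp
        have := mul_le_mul_of_nonneg_left h hl0
        linarith
      · rw [ind_not_of h]
        exact (exp_pos _).le
    rw [Pool.Agent.H863R2.NL.ET_mul] at h3
    refine h3.trans ((mul_le_mul_of_nonneg_left k1 (exp_pos _).le).trans (le_trans ?_ hec))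
    rw [mul_left_comm, ← exp_add, hC, mul_assoc (max C1 C2), ← exp_add]
    refine mul_le_mul (le_max_left _ _) (exp_le_exp.2 ?_) (exp_pos _).le
      (hC1.le.trans (le_max_left _ _))
    rw [mul_add, e3]
    linarith
  · have h3 : ET (2 ^ k) (fun m => ind ((m : ℝ) ≤ cN * tK k - 2 * c * √K)) ≤
        ET (2 ^ k) (fun m => exp (l * (cN * tK k - 2 * c * √K)) * exp (-l) ^ m) := by
      refine Pool.Agent.H863R2.NL.ET_le_ET fun m => ?_
      rw [← exp_nat_mul, ← exp_add]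
      by_cases h : (m : ℝ) ≤ cN * tK k - 2 * c * √K
      · rw [ind_of h]
        apply one_le_exp
        have := mul_le_mul_of_nonneg_left h hl0
        linarith
      · rw [ind_not_of h]
        exact (exp_pos _).le
    rw [Pool.Agent.H863R2.NL.ET_mul] at h3
    refine h3.trans ((mul_le_mul_of_nonneg_left k2 (exp_pos _).le).trans (le_trans ?_ hec))
    rw [mul_left_comm, ← exp_add, hC, mul_assoc (max C1 C2), ← exp_add]
    refine mul_le_mul (le_max_right _ _) (exp_le_exp.2 ?_) (exp_pos _).le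
      (hC1.le.trans (le_max_left _ _))
    rw [mul_sub, e3]
    linarith

/-- the layers of an annulus are concentrated -/
theorem Am_conc : ∃ c2 : ℝ, 0 < c2 ∧ ∀ k K : ℕ, 1 ≤ k → k + 2 ≤ K →
    1 / 2 ≤ Pr P2 (Bk K) (fun F => cN * (tK K - tK k) - c2 * √K ≤ Am F k K) ∧
    1 / 2 ≤ Pr P2 (Bk K) (fun F => (Am F k K : ℝ) ≤ cN * (tK K - tK k) + c2 * √K) := by
  obtain ⟨c1, hc1, h⟩ := conc
  obtain ⟨C, hC, hL⟩ := Pr_Lnk (ρ := 1 / 2) (by norm_num)
  obtain ⟨κ, hκ⟩ : ∃ κ : ℕ, C * (1 / 2) ^ κ ≤ 1 / 8 := by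
    have ht : Tendsto (fun κ : ℕ => C * (1 / 2 : ℝ) ^ κ) atTop (𝓝 (C * 0)) :=
      (tendsto_pow_atTop_nhds_zero_of_lt_one (by norm_num) (by norm_num)).const_mul C
    rw [mul_zero] at ht
    exact (ht.eventually_le_const (show (0:ℝ) < 1 / 8 by norm_num)).exists
  refine ⟨2 * c1 + (4 + 18 * κ), by positivity, fun k K hk hK => ?_⟩
  have hK1 : (1:ℝ) ≤ K := by exact_mod_cast (by omega : 1 ≤ K)
  have hs1 : 1 ≤ √(K:ℝ) := one_le_sqrt.2 hK1
  obtain ⟨u1, u2⟩ := h k K (by omega) (by omega)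
  obtain ⟨u3, u4⟩ := h K K (by omega) le_rfl
  rw [← Pr_Tn (K := K) (by omega : k ≤ K) (fun m => cN * tK k + c1 * √K ≤ m)] at u1
  rw [← Pr_Tn (K := K) (by omega : k ≤ K) (fun m => (m:ℝ) ≤ cN * tK k - c1 * √K)] at u2
  rw [← Pr_Tn (K := K) le_rfl (fun m => cN * tK K + c1 * √K ≤ m)] at u3
  rw [← Pr_Tn (K := K) le_rfl (fun m => (m:ℝ) ≤ cN * tK K - c1 * √K)] at u4
  have u5 := (hL k K hk hK κ).trans hκ
  constructor
  · rw [Pr_not_eq]
    have h1 : Pr P2 (Bk K) (fun F => ¬ (cN * (tK K - tK k) - (2 * c1 + (4 + 18 * κ)) * √K ≤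
        Am F k K)) ≤ Pr P2 (Bk K) (fun F => (cN * tK k + c1 * √K ≤ (Tn F k : ℝ) ∨
          (Tn F K : ℝ) ≤ cN * tK K - c1 * √K) ∨ ¬ Lnk (0, 0) (2 ^ (k - 1)) κ F) := by
      refine Pr_mono hok fun F _ h1 => ?_
      by_contra h2
      push Not at h2
      obtain ⟨⟨h3, h4⟩, h5⟩ := h2
      apply h1
      have h6 : (Tn F K : ℝ) ≤ Tn F k + Am F k K + (4 + 18 * κ) := by
        exact_mod_cast Tn_link hk hK h5
      have h7 : (4 + 18 * (κ:ℝ)) * 1 ≤ (4 + 18 * κ) * √K :=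
        mul_le_mul_of_nonneg_left hs1 (by positivity)
      linarith
    have h2 := Pr_or_le hok (Bk K) (fun F => cN * tK k + c1 * √K ≤ (Tn F k : ℝ) ∨
          (Tn F K : ℝ) ≤ cN * tK K - c1 * √K) (fun F => ¬ Lnk (0, 0) (2 ^ (k - 1)) κ F)
    have h3 := Pr_or_le hok (Bk K) (fun F => cN * tK k + c1 * √K ≤ (Tn F k : ℝ))
          (fun F => (Tn F K : ℝ) ≤ cN * tK K - c1 * √K)
    linarith
  · rw [Pr_not_eq]
    have h1 : Pr P2 (Bk K) (fun F => ¬ ((Am F k K : ℝ) ≤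
        cN * (tK K - tK k) + (2 * c1 + (4 + 18 * κ)) * √K)) ≤
        Pr P2 (Bk K) (fun F => (Tn F k : ℝ) ≤ cN * tK k - c1 * √K ∨
          cN * tK K + c1 * √K ≤ (Tn F K : ℝ)) := by
      refine Pr_mono hok fun F _ h1 => ?_
      by_contra h2
      push Not at h2
      obtain ⟨h3, h4⟩ := h2
      apply h1
      have h6 : (Tn F k : ℝ) + Am F k K ≤ Tn F K := by
        exact_mod_cast Tn_super (by omega) F
      have h7 : 0 ≤ (4 + 18 * (κ:ℝ)) * √K := by positivity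
      linarith
    have h3 := Pr_or_le hok (Bk K) (fun F => (Tn F k : ℝ) ≤ cN * tK k - c1 * √K)
          (fun F => cN * tK K + c1 * √K ≤ (Tn F K : ℝ))
    linarith

/-- maximal inequality, upper deviations -/
theorem max_up : ∃ c2 : ℝ, 0 < c2 ∧ ∀ (K : ℕ) (a : ℝ),
    Pr P2 (Bk K) (fun F => ∃ k ∈ Icc 1 (K - 2), cN * tK k + a ≤ Tn F k) ≤
      2 * ET (2 ^ K) (fun m => ind (cN * tK K + (a - c2 * √K) ≤ m)) := by
  obtain ⟨c2, hc2, h⟩ := Am_conc
  refine ⟨c2, hc2, fun K a => ?_⟩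
  have h1 := maxi (U := Bk K) (a := 1) (b := K - 2) Bk (fun k => Ak k K)
    (fun k F => cN * tK k + a ≤ Tn F k) (fun k F => cN * (tK K - tK k) - c2 * √K ≤ Am F k K)
    (fun _ _ => False) (fun F => cN * tK K + (a - c2 * √K) ≤ Tn F K)
    (fun k hk => Bk_mono (by rw [mem_Icc] at hk; omega)) (fun k _ => Ak_sub k K)
    (fun k _ => disj_Ak k K) (fun j _ k _ hjk => Bk_mono hjk)
    (fun k _ F => by rw [Tn_loc (subset_refl _)])
    (fun k hk F => by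
      rw [mem_Icc] at hk
      rw [Am_loc (by omega) (subset_refl _)])
    (fun k hk => by
      rw [mem_Icc] at hk
      exact (h k K hk.1 (by omega)).1)
    (fun k hk F _ h2 h3 => Or.inl (by
      rw [mem_Icc] at hk
      have h6 : (Tn F k : ℝ) + Am F k K ≤ Tn F K := by
        exact_mod_cast Tn_super (by omega) F
      linarith))
  have h2 : ∑ k ∈ Icc 1 (K - 2), Pr P2 (Bk K) (fun _ => False) = 0 := by
    apply Finset.sum_eq_zero
    intro k _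
    unfold Pr
    rw [Ex_congr (g := fun _ => 0) (fun F _ => ind_not_of (by simp)), Ex_const]
  rw [h2, add_zero, Pr_Tn le_rfl (fun m => cN * tK K + (a - c2 * √K) ≤ m)] at h1
  exact h1

/-- maximal inequality, lower deviations -/
theorem max_dn {ρ : ℝ} (hρ : 0 < ρ) : ∃ c2 C : ℝ, 0 < c2 ∧ 0 < C ∧ ∀ (K κ : ℕ) (a : ℝ),
    Pr P2 (Bk K) (fun F => ∃ k ∈ Icc 1 (K - 2), (Tn F k : ℝ) ≤ cN * tK k - a) ≤
      2 * (ET (2 ^ K) (fun m => ind ((m : ℝ) ≤
        cN * tK K - (a - c2 * √K - (4 + 18 * κ)))) + K * (C * ρ ^ κ)) := by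
  obtain ⟨c2, hc2, h⟩ := Am_conc
  obtain ⟨C, hC, hL⟩ := Pr_Lnk hρ
  refine ⟨c2, C, hc2, hC, fun K κ a => ?_⟩
  have h1 := maxi (U := Bk K) (a := 1) (b := K - 2) Bk (fun k => Ak k K)
    (fun k F => (Tn F k : ℝ) ≤ cN * tK k - a)
    (fun k F => (Am F k K : ℝ) ≤ cN * (tK K - tK k) + c2 * √K)
    (fun k F => ¬ Lnk (0, 0) (2 ^ (k - 1)) κ F)
    (fun F => (Tn F K : ℝ) ≤ cN * tK K - (a - c2 * √K - (4 + 18 * κ)))
    (fun k hk => Bk_mono (by rw [mem_Icc] at hk; omega)) (fun k _ => Ak_sub k K)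
    (fun k _ => disj_Ak k K) (fun j _ k _ hjk => Bk_mono hjk)
    (fun k _ F => by rw [Tn_loc (subset_refl _)])
    (fun k hk F => by
      rw [mem_Icc] at hk
      rw [Am_loc (by omega) (subset_refl _)])
    (fun k hk => by
      rw [mem_Icc] at hk
      exact (h k K hk.1 (by omega)).2)
    (fun k hk F _ h2 h3 => by
      rw [mem_Icc] at hk
      by_cases hl : Lnk (0, 0) (2 ^ (k - 1)) κ F
      · left
        have h6 : (Tn F K : ℝ) ≤ Tn F k + Am F k K + (4 + 18 * κ) := by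
          exact_mod_cast Tn_link hk.1 (by omega) hl
        linarith
      · exact Or.inr hl)
  have h2 : ∑ k ∈ Icc 1 (K - 2), Pr P2 (Bk K) (fun F => ¬ Lnk (0, 0) (2 ^ (k - 1)) κ F) ≤
      K * (C * ρ ^ κ) := by
    calc ∑ k ∈ Icc 1 (K - 2), Pr P2 (Bk K) (fun F => ¬ Lnk (0, 0) (2 ^ (k - 1)) κ F) ≤
          ∑ _k ∈ Icc 1 (K - 2), C * ρ ^ κ := by
          apply Finset.sum_le_sum
          intro k hk
          rw [mem_Icc] at hk
          exact hL k K hk.1 (by omega) κ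
      _ = ((K - 2 : ℕ) : ℝ) * (C * ρ ^ κ) := by
          rw [Finset.sum_const, Nat.card_Icc, nsmul_eq_mul]
          congr 2
      _ ≤ K * (C * ρ ^ κ) := by
          apply mul_le_mul_of_nonneg_right _ (by positivity)
          exact_mod_cast Nat.sub_le K 2
  rw [Pr_Tn le_rfl (fun m => (m : ℝ) ≤ cN * tK K - (a - c2 * √K - (4 + 18 * κ)))] at h1
  linarith

end Pool.Agent.U154.NI
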