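import Pool.Agent.U154.NI.Md
import Pool.Agent.U154.NI.Asy

/-!
Moderate deviations of the number of layers up to the distance `2 ^ K`.
-/

set_option autoImplicit false

namespace Pool.Agent.U154.NI

open H974 Finset Real Filter Topology Pool.Agent.H863R2.NL Pool.Agent.H863R2.NL.PowAux Pool.Agent.H450R4.NL

theorem ind_neg (Q : Prop) : ind (¬ Q) = 1 - ind Q := by
  by_cases h : Q
  · rw [ind_of h, ind_not_of (not_not.2 h)]
    ring
  · rw [ind_of h, ind_not_of h]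
    ring

theorem EN_ind_not (n : ℕ) (Q : ℕ → Prop) :
    EN n (fun m => ind (¬ Q m)) = 1 - EN n (fun m => ind (Q m)) := by
  have h : (fun m => ind (¬ Q m)) = fun m => (fun _ => (1:ℝ)) m - (fun m => ind (Q m)) m := by
    funext m
    exact ind_neg _
  rw [h, EN_sub', EN_const]

theorem ET_ind_not (k : ℕ) (Q : ℕ → Prop) :
    ET k (fun m => ind (¬ Q m)) = 1 - ET k (fun m => ind (Q m)) := by
  have h : (fun m => ind (¬ Q m)) = fun m => 1 + (-1) * ind (Q m) := by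
    funext m
    rw [ind_neg]
    ring
  rw [h, ET_add, ET_const, ET_mul]
  ring

theorem ET_ind_le_one (k : ℕ) (Q : ℕ → Prop) : ET k (fun m => ind (Q m)) ≤ 1 := by
  rw [← ET_const k 1]
  exact ET_le_ET fun m => ind_le_one _

/-- from the cylinder to the plane, upper deviations -/
theorem tr_up {a : ℕ} (κ : ℕ) (ha : 0 < a) (M : ℝ) :
    EN (10 * a) (fun m => ind (M ≤ (m : ℝ))) ≤
      ET (4 * a) (fun m => ind (M ≤ ((m + 1 + 10 * κ : ℕ) : ℝ))) +
        6 * (1 - (1/2 : ℝ) ^ 47) ^ (κ + 1) := by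
  have h := EN_ge (a := a) κ ha (g := fun m => ind (¬ (M ≤ (m : ℝ))))
    (fun m m' hm => ind_mono fun h1 h2 => h1 (h2.trans (by exact_mod_cast hm)))
    (fun m => ind_nonneg _)
  have h0 : (0:ℝ) ≤ 1 - (1/2 : ℝ) ^ 47 := by norm_num
  have h1 : 6 * (1 - (1/2 : ℝ) ^ 47) ^ (κ + 1) *
      ET (2 * a - 1) (fun m => ind (¬ (M ≤ ((m + 1 + 10 * κ : ℕ) : ℝ)))) ≤
      6 * (1 - (1/2 : ℝ) ^ 47) ^ (κ + 1) * 1 :=
    mul_le_mul_of_nonneg_left (ET_ind_le_one _ _) (by positivity)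
  have e1 := ET_ind_not (4 * a) (fun m => M ≤ ((m + 1 + 10 * κ : ℕ) : ℝ))
  have e2 := EN_ind_not (10 * a) (fun m => M ≤ (m : ℝ))
  linarith

/-- from the cylinder to the plane, lower deviations -/
theorem tr_dn {n k : ℕ} (h : 2 * k < n) (M : ℝ) :
    EN n (fun m => ind ((m : ℝ) ≤ M)) ≤ ET k (fun m => ind ((m : ℝ) ≤ M)) :=
  EN_le h fun m m' hm => ind_mono fun h1 => le_trans (by exact_mod_cast hm) h1

/-- the time of the scale `K` -/
noncomputable def tK (K : ℕ) : ℝ := K * log 2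

theorem log2_pos : 0 < log 2 := log_pos (by norm_num)

theorem tend_tK : Tendsto tK atTop atTop :=
  tendsto_natCast_atTop_atTop.atTop_mul_const log2_pos

theorem tK_eq (K : ℕ) : log ((2 ^ K : ℕ) : ℝ) = tK K := by
  push_cast
  rw [log_pow]
  rfl

/-- the arithmetic of the exponents -/
theorem expo {ε : ℝ} (h0 : 0 < ε) (h1 : ε ≤ 1) :
    (1 - ε / 2) ^ 2 * ((1 + ε / 16) * (1 + 3 * (ε / 16))) ≤ 1 - 5 * ε / 16 := by
  nlinarith [mul_pos h0 h0, mul_nonneg (mul_pos h0 h0).le (show 0 ≤ 1 - ε by linarith),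
    mul_nonneg (mul_nonneg (mul_pos h0 h0).le (show 0 ≤ 1 - ε by linarith))
      (show 0 ≤ 1 - ε by linarith)]

/-- the common part of the two lower bounds -/
theorem low_common {ε : ℝ} (h0 : 0 < ε) (h1 : ε ≤ 1) : ∃ c : ℝ, 0 < c ∧
    ∀ᶠ t : ℝ in atTop, ∀ n : ℕ, 1 ≤ n → t ≤ log n →
      c * exp (-((1 - 5 * ε / 16) * log (log t))) ≤
        EN n (fun m => ind (cN * log n + (1 - ε / 2) * √(2 * log (log t)) * √(vN * log n) ≤ m)) ∧
      c * exp (-((1 - 5 * ε / 16) * log (log t))) ≤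
        EN n (fun m => ind ((m : ℝ) ≤
          cN * log n - (1 - ε / 2) * √(2 * log (log t)) * √(vN * log n))) := by
  have hcN := cN_pos
  have hvN := vN_pos
  obtain ⟨c, x0, hc, hx0, h⟩ := EN_md (θ := ε / 16) (by positivity) (by linarith)
  refine ⟨c, hc, ?_⟩
  filter_upwards [tend_ll.eventually_ge_atTop (2 * x0 ^ 2),
    ll_lin (72 / vN) (by positivity), ll_cube ((54 * cN) ^ 2 * 8 / vN ^ 3),
    tend_ll.eventually_ge_atTop 0, eventually_ge_atTop 0] with t k1 k2 k3 k4 k5 n hn htn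
  obtain ⟨u, hu⟩ : ∃ u : ℝ, u = log (log t) := ⟨_, rfl⟩
  rw [← hu] at k1 k2 k3 k4 ⊢
  obtain ⟨x, hx⟩ : ∃ x : ℝ, x = (1 - ε / 2) * √(2 * u) := ⟨_, rfl⟩
  have hxx : x ^ 2 = (1 - ε / 2) ^ 2 * (2 * u) := by
    rw [hx, mul_pow, sq_sqrt (by positivity)]
  have hxx1 : x ^ 2 ≤ 2 * u := by
    rw [hxx]
    have : (1 - ε / 2) ^ 2 ≤ 1 := by nlinarith
    nlinarith
  have hxx2 : u / 2 ≤ x ^ 2 := by
    rw [hxx]
    have : (1/4 : ℝ) ≤ (1 - ε / 2) ^ 2 := by nlinarith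
    nlinarith
  have hx00 : 0 ≤ x := by rw [hx]; exact mul_nonneg (by linarith) (sqrt_nonneg _)
  have hln : 0 ≤ log (n : ℝ) := by linarith
  have c1 : x0 ≤ x := by
    apply le_of_sq_le_sq _ hx00
    nlinarith
  have c2 : 6 * x ≤ √(vN * log n) := by
    apply le_sqrt_of_sq_le
    rw [mul_pow]
    have e1 : 72 / vN * u * vN = 72 * u := by field_simp
    have e2 : 72 / vN * u * vN ≤ t * vN := mul_le_mul_of_nonneg_right k2 hvN.le
    have e3 : t * vN ≤ log n * vN := mul_le_mul_of_nonneg_right htn hvN.le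
    nlinarith
  have c3 : 54 * cN * x ^ 3 * log n ≤ √(vN * log n) ^ 3 := by
    have hs2 : √(vN * log n) ^ 2 = vN * log n := sq_sqrt (by positivity)
    have e1 : 54 * cN * x ^ 3 ≤ vN * √(vN * log n) := by
      apply le_of_sq_le_sq _ (by positivity)
      rw [mul_pow vN, hs2, mul_pow, ← pow_mul, show 3 * 2 = 2 * 3 by norm_num, pow_mul]
      have e2 : (x ^ 2) ^ 3 ≤ (2 * u) ^ 3 := pow_le_pow_left₀ (by positivity) hxx1 3
      have e3 : (54 * cN) ^ 2 * (x ^ 2) ^ 3 ≤ (54 * cN) ^ 2 * (2 * u) ^ 3 :=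
        mul_le_mul_of_nonneg_left e2 (by positivity)
      have e4 : (54 * cN) ^ 2 * 8 / vN ^ 3 * u ^ 3 * vN ^ 3 ≤ t * vN ^ 3 :=
        mul_le_mul_of_nonneg_right k3 (by positivity)
      have e5 : (54 * cN) ^ 2 * 8 / vN ^ 3 * u ^ 3 * vN ^ 3 = (54 * cN) ^ 2 * (2 * u) ^ 3 := by
        field_simp
        ring
      have e6 : t * vN ^ 3 ≤ log n * vN ^ 3 := mul_le_mul_of_nonneg_right htn (by positivity)
      calc (54 * cN) ^ 2 * (x ^ 2) ^ 3 ≤ (54 * cN) ^ 2 * (2 * u) ^ 3 := e3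
        _ ≤ t * vN ^ 3 := by rw [← e5]; exact e4
        _ ≤ log n * vN ^ 3 := e6
        _ = _ := by ring
    calc 54 * cN * x ^ 3 * log n ≤ vN * √(vN * log n) * log n :=
          mul_le_mul_of_nonneg_right e1 hln
      _ = √(vN * log n) ^ 2 * √(vN * log n) := by rw [hs2]; ring
      _ = _ := by ring
  have h2 := h n x hn c1 c2 c3
  have h3 : c * exp (-((1 - 5 * ε / 16) * u)) ≤
      c * exp (-((1 + ε / 16) * (1 + 3 * (ε / 16)) / 2 * x ^ 2)) := by
    apply mul_le_mul_of_nonneg_left _ hc.le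
    apply exp_le_exp.2
    have e1 := mul_le_mul_of_nonneg_right (expo h0 h1) k4
    rw [hxx]
    nlinarith
  rw [← hx]
  exact ⟨h3.trans h2.1, h3.trans h2.2⟩

end Pool.Agent.U154.NI
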